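import Mathlib

set_option autoImplicit false
set_option linter.unusedVariables false

/-! Orders of magnitude. -/

namespace Pool.Agent.K9h56.TB

section calc0

variable {w a b : ℝ} {m n : ℤ}

lemma mulB (hw : 1000 ≤ w) (ha : a ≤ w ^ m) (hb : b ≤ w ^ n) (ha0 : 0 ≤ a) (hb0 : 0 ≤ b) :
    a * b ≤ w ^ (m + n) := by
  have hw0 : 0 < w := by linarith
  rw [zpow_add₀ hw0.ne']
  exact mul_le_mul ha hb hb0 (zpow_nonneg hw0.le _)

lemma addB (hw : 1000 ≤ w) (ha : a ≤ w ^ m) (hb : b ≤ w ^ m) : a + b ≤ w ^ (m + 1) := by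
  have hw0 : 0 < w := by linarith
  rw [zpow_add₀ hw0.ne', zpow_one]
  have := zpow_nonneg hw0.le m
  nlinarith

lemma powB (hw : 1000 ≤ w) (ha : a ≤ w ^ m) (ha0 : 0 ≤ a) (k : ℕ) : a ^ k ≤ w ^ (m * k) := by
  rw [zpow_mul, zpow_natCast]
  exact pow_le_pow_left₀ ha0 ha k

lemma weak (hw : 1000 ≤ w) (ha : a ≤ w ^ m) (hmn : m ≤ n) : a ≤ w ^ n :=
  ha.trans (zpow_le_zpow_right₀ (by linarith) hmn)

lemma cB (hw : 1000 ≤ w) (hc : a ≤ 1000) : a ≤ w ^ (1 : ℤ) := by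
  rw [zpow_one]; linarith

end calc0

/-- all the estimates -/
theorem numeric {w θ d0 q K η Lq : ℝ} {H ℓ a0 : ℕ} (hw : 1000 ≤ w)
    (hθ : θ = q * d0) (hq0 : 0 < q) (hq1 : q ≤ 1) (hd0 : 0 < d0) (hd1 : d0 ≤ 1)
    (hθhi : θ ≤ w ^ (-2397 : ℤ)) (hθlo : θ⁻¹ ≤ w ^ (2403 : ℤ)) (hdlo : d0⁻¹ ≤ w ^ (3 : ℤ))
    (hK1 : 1 ≤ K) (hK : K ≤ w ^ (3 : ℤ)) (hη0 : 0 ≤ η) (hη : η ≤ w ^ (-35999 : ℤ))
    (hL : Lq = Real.log (1 / q)) (hL1 : 1 ≤ Lq) (hLw : 8 * Lq ≤ w)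
    (hH : H = ⌈4 * Lq / θ⌉₊) (hℓ : ℓ = ⌈w ^ (400 : ℤ)⌉₊) (ha0 : a0 = ⌈2 * d0 * H⌉₊) :
    0 < H ∧ 0 < ℓ ∧ (H : ℝ) ≤ w ^ (2404 : ℤ) ∧ K ≤ w ^ 4 ∧
    8 * K * ((H : ℝ) ^ 2 + θ ^ 4 * (H : ℝ) ^ 6) ≤ (w ^ 1210) ^ 4 ∧
    64 * K * ((H : ℝ) ^ 2 + q ^ 4 * (H : ℝ) ^ 6) +
      8 / q ^ 4 * (Real.exp (- (q * d0 * H / 2)) + 16 * K / (d0 ^ 4 * (H : ℝ) ^ 2)) ≤ (w ^ 1210) ^ 4 ∧
    (2 * (((a0 : ℝ) + 2) ^ 3 * η * q * (1 + q) ^ a0) + 2 * q * Real.exp (- (q * d0 * H / 2)) +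
        37 * q * K / (d0 ^ 4 * (H : ℝ) ^ 2) +
      q ^ 2 * (q * (w * (w ^ 1210) ^ 2 / ℓ + 5 * (ℓ : ℝ) ^ 2 * (w ^ 1210) + 6 * (ℓ : ℝ) ^ 4) + (1 - q * d0) ^ H / q) +
      H * (4 * η * q ^ 2) + (1 - θ) ^ H / θ) / θ ≤ w ^ (-2700 : ℤ) := by
  have hw0 : 0 < w := by linarith
  have hθ0 : 0 < θ := by rw [hθ]; positivity
  have hθ1 : θ ≤ 1 := by rw [hθ]; exact mul_le_one₀ hq1 hd0.le hd1
  have hK0 : 0 < K := by linarith
  have one_le : ∀ m : ℤ, 0 ≤ m → 1 ≤ w ^ m := fun m hm => one_le_zpow₀ (by linarith) hm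
  -- q
  have q_eq : q = θ * d0⁻¹ := by rw [hθ]; field_simp
  have bq : q ≤ w ^ (-2394 : ℤ) := by
    rw [q_eq]
    exact weak hw (mulB hw hθhi hdlo hθ0.le (by positivity)) (by norm_num)
  have bqi : q⁻¹ ≤ w ^ (2403 : ℤ) := by
    have : q⁻¹ = d0 * θ⁻¹ := by rw [hθ]; field_simp
    rw [this]
    calc d0 * θ⁻¹ ≤ 1 * θ⁻¹ := mul_le_mul_of_nonneg_right hd1 (by positivity)
      _ = θ⁻¹ := one_mul _
      _ ≤ _ := hθlo
  -- H
  have hLθ : 0 < 4 * Lq / θ := by positivity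
  have hHpos : 0 < H := by rw [hH]; exact Nat.ceil_pos.2 hLθ
  have hH' : (0 : ℝ) < H := by exact_mod_cast hHpos
  have hHlo : 4 * Lq / θ ≤ H := by rw [hH]; exact Nat.le_ceil _
  have hHhi : (H : ℝ) ≤ 4 * Lq / θ + 1 := by rw [hH]; exact (Nat.ceil_lt_add_one hLθ.le).le
  have hθH : 4 * Lq ≤ θ * H := by
    rw [div_le_iff₀ hθ0] at hHlo
    linarith
  have hθH2 : θ * H ≤ 4 * Lq + 1 := by
    have : θ * H ≤ θ * (4 * Lq / θ + 1) := mul_le_mul_of_nonneg_left hHhi hθ0.le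
    have h2 : θ * (4 * Lq / θ + 1) = 4 * Lq + θ := by field_simp
    linarith
  have bθH : θ * H ≤ w ^ (1 : ℤ) := by
    rw [zpow_one]; linarith
  have bH : (H : ℝ) ≤ w ^ (2404 : ℤ) := by
    have h2 : (H : ℝ) = (θ * H) * θ⁻¹ := by field_simp
    rw [h2]
    exact weak hw (mulB hw bθH hθlo (by positivity) (by positivity)) (by norm_num)
  have bHi : (H : ℝ)⁻¹ ≤ w ^ (-2397 : ℤ) := by
    refine le_trans ?_ hθhi
    rw [inv_le_comm₀ hH' hθ0]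
    refine le_trans ?_ hHlo
    rw [le_div_iff₀ hθ0, inv_mul_cancel₀ hθ0.ne']
    linarith
  have bqH : q * H ≤ w ^ (4 : ℤ) := by
    have h2 : q * H = (θ * H) * d0⁻¹ := by rw [hθ]; field_simp
    rw [h2]
    exact weak hw (mulB hw bθH hdlo (by positivity) (by positivity)) (by norm_num)
  -- exponentials
  have expL : Real.exp (-Lq) = q := by
    rw [hL, one_div, Real.log_inv, neg_neg, Real.exp_log hq0]
  have be1 : Real.exp (- (q * d0 * H / 2)) ≤ w ^ (-4788 : ℤ) := by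
    have h1 : Real.exp (- (q * d0 * H / 2)) ≤ q ^ 2 := by
      rw [← hθ]
      calc Real.exp (- (θ * H / 2)) ≤ Real.exp (((2 : ℕ) : ℝ) * (-Lq)) := by
            apply Real.exp_le_exp.2
            push_cast
            linarith
        _ = q ^ 2 := by rw [Real.exp_nat_mul, expL]
    exact weak hw (h1.trans (powB hw bq hq0.le 2)) (by norm_num)
  have be2 : (1 - θ) ^ H ≤ w ^ (-9576 : ℤ) := by
    have h1 : (1 - θ) ^ H ≤ q ^ 4 := by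
      have h3 : 1 - θ ≤ Real.exp (-θ) := by
        have := Real.add_one_le_exp (-θ); linarith
      calc (1 - θ) ^ H ≤ Real.exp (-θ) ^ H := pow_le_pow_left₀ (by linarith) h3 _
        _ = Real.exp (-(θ * H)) := by rw [← Real.exp_nat_mul]; congr 1; ring
        _ ≤ Real.exp (-(4 * Lq)) := Real.exp_le_exp.2 (by linarith)
        _ = q ^ 4 := by rw [← expL, ← Real.exp_nat_mul]; congr 1; push_cast; ring
    exact weak hw (h1.trans (powB hw bq hq0.le 4)) (by norm_num)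
  have be2' : 0 ≤ (1 - θ) ^ H := pow_nonneg (by linarith) _
  -- a0
  have ha0hi : (a0 : ℝ) ≤ 2 * d0 * H + 1 := by
    rw [ha0]; exact (Nat.ceil_lt_add_one (by positivity)).le
  have ba0 : (a0 : ℝ) + 2 ≤ w ^ (2406 : ℤ) := by
    have h1 : d0 * H ≤ H := by nlinarith
    have h2 : (a0 : ℝ) + 2 ≤ 2 * H + 3 := by nlinarith
    have h3 : (2 : ℝ) * H ≤ w ^ (2405 : ℤ) :=
      weak hw (mulB hw (cB hw (by norm_num : (2 : ℝ) ≤ 1000)) bH (by norm_num) hH'.le) (by norm_num)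
    have h4 : (3 : ℝ) ≤ w ^ (2405 : ℤ) := weak hw (cB hw (by norm_num : (3 : ℝ) ≤ 1000)) (by norm_num)
    exact h2.trans (weak hw (addB hw h3 h4) (by norm_num))
  have bexp : (1 + q) ^ a0 ≤ w ^ (19225 : ℤ) := by
    have h3 : 1 + q ≤ Real.exp q := by
      have := Real.add_one_le_exp q; linarith
    have h4 : (1 + q) ^ a0 ≤ 1000 * (q⁻¹) ^ 8 := by
      calc (1 + q) ^ a0 ≤ Real.exp q ^ a0 := pow_le_pow_left₀ (by linarith) h3 _
        _ = Real.exp (a0 * q) := by rw [← Real.exp_nat_mul]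
        _ ≤ Real.exp (3 + 8 * Lq) := by
          apply Real.exp_le_exp.2
          have h5 : (a0 : ℝ) * q ≤ (2 * d0 * H + 1) * q := mul_le_mul_of_nonneg_right ha0hi hq0.le
          have h6 : (2 * d0 * H + 1) * q = 2 * (θ * H) + q := by rw [hθ]; ring
          linarith
        _ = Real.exp 3 * (q⁻¹) ^ 8 := by
          rw [Real.exp_add]
          congr 1
          rw [← expL, ← Real.exp_neg, neg_neg, ← Real.exp_nat_mul]
          norm_num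
        _ ≤ _ := by
          apply mul_le_mul_of_nonneg_right _ (by positivity)
          have h7 : Real.exp 3 = Real.exp 1 ^ 3 := by rw [← Real.exp_nat_mul]; norm_num
          rw [h7]
          have h8 := Real.exp_one_lt_d9
          have h9 : Real.exp 1 ^ 3 ≤ 3 ^ 3 := pow_le_pow_left₀ (Real.exp_pos _).le (by linarith) 3
          linarith
    exact h4.trans (weak hw (mulB hw (cB hw le_rfl) (powB hw bqi (by positivity) 8) (by norm_num)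
      (by positivity)) (by norm_num))
  -- ℓ
  have h400 : (1 : ℝ) ≤ w ^ (400 : ℤ) := one_le _ (by norm_num)
  have hℓpos : 0 < ℓ := by rw [hℓ]; exact Nat.ceil_pos.2 (by linarith)
  have hℓ' : (0 : ℝ) < ℓ := by exact_mod_cast hℓpos
  have bℓ : (ℓ : ℝ) ≤ w ^ (401 : ℤ) := by
    have : (ℓ : ℝ) ≤ w ^ (400 : ℤ) + 1 := by rw [hℓ]; exact (Nat.ceil_lt_add_one (by linarith)).le
    exact this.trans (weak hw (addB hw le_rfl h400) (by norm_num))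
  have bℓi : (ℓ : ℝ)⁻¹ ≤ w ^ (-400 : ℤ) := by
    rw [zpow_neg, inv_le_inv₀ hℓ' (by linarith), hℓ]
    exact Nat.le_ceil _
  have hB : (w ^ 1210 : ℝ) = w ^ (1210 : ℤ) := by norm_cast
  have hB0 : (0 : ℝ) ≤ w ^ 1210 := by positivity
  have hB4 : ((w : ℝ) ^ 1210) ^ 4 = w ^ (4840 : ℤ) := by
    rw [← pow_mul]; norm_cast
  have bB : (w ^ 1210 : ℝ) ≤ w ^ (1210 : ℤ) := hB.le
  -- pieces
  have bH2 : (H : ℝ) ^ 2 ≤ w ^ (4808 : ℤ) := weak hw (powB hw bH hH'.le 2) (by norm_num)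
  have p1 : (H : ℝ) ^ 2 + θ ^ 4 * (H : ℝ) ^ 6 ≤ w ^ (4813 : ℤ) := by
    have h1 : θ ^ 4 * (H : ℝ) ^ 6 = (θ * H) ^ 4 * (H : ℝ) ^ 2 := by ring
    rw [h1]
    have h2 : (θ * H) ^ 4 * (H : ℝ) ^ 2 ≤ w ^ (4812 : ℤ) :=
      weak hw (mulB hw (powB hw bθH (by positivity) 4) bH2 (by positivity) (by positivity)) (by norm_num)
    exact weak hw (addB hw (weak hw bH2 (by norm_num : (4808 : ℤ) ≤ 4812)) h2) (by norm_num)
  have p2 : (H : ℝ) ^ 2 + q ^ 4 * (H : ℝ) ^ 6 ≤ w ^ (4825 : ℤ) := by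
    have h1 : q ^ 4 * (H : ℝ) ^ 6 = (q * H) ^ 4 * (H : ℝ) ^ 2 := by ring
    rw [h1]
    have h2 : (q * H) ^ 4 * (H : ℝ) ^ 2 ≤ w ^ (4824 : ℤ) :=
      weak hw (mulB hw (powB hw bqH (by positivity) 4) bH2 (by positivity) (by positivity)) (by norm_num)
    exact weak hw (addB hw (weak hw bH2 (by norm_num : (4808 : ℤ) ≤ 4824)) h2) (by norm_num)
  have p3 : K / (d0 ^ 4 * (H : ℝ) ^ 2) ≤ w ^ (-4779 : ℤ) := by
    have h1 : K / (d0 ^ 4 * (H : ℝ) ^ 2) = K * (d0⁻¹) ^ 4 * ((H : ℝ)⁻¹) ^ 2 := by field_simp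
    rw [h1]
    exact weak hw (mulB hw (mulB hw hK (powB hw hdlo (by positivity) 4) hK0.le (by positivity))
      (powB hw bHi (by positivity) 2) (by positivity) (by positivity)) (by norm_num)
  have p3' : 16 * K / (d0 ^ 4 * (H : ℝ) ^ 2) ≤ w ^ (-4778 : ℤ) := by
    have h1 : 16 * K / (d0 ^ 4 * (H : ℝ) ^ 2) = 16 * (K / (d0 ^ 4 * (H : ℝ) ^ 2)) := by ring
    rw [h1]
    exact weak hw (mulB hw (cB hw (by norm_num : (16 : ℝ) ≤ 1000)) p3 (by norm_num) (by positivity)) (by norm_num)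
  have p4 : Real.exp (- (q * d0 * H / 2)) + 16 * K / (d0 ^ 4 * (H : ℝ) ^ 2) ≤ w ^ (-4777 : ℤ) :=
    weak hw (addB hw (weak hw be1 (by norm_num : (-4788 : ℤ) ≤ -4778)) p3') (by norm_num)
  have p5 : 8 / q ^ 4 ≤ w ^ (9613 : ℤ) := by
    have h1 : 8 / q ^ 4 = 8 * (q⁻¹) ^ 4 := by field_simp
    rw [h1]
    exact weak hw (mulB hw (cB hw (by norm_num : (8 : ℝ) ≤ 1000)) (powB hw bqi (by positivity) 4)
      (by norm_num) (by positivity)) (by norm_num)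
  refine ⟨hHpos, hℓpos, bH, ?_, ?_, ?_, ?_⟩
  · have : (w : ℝ) ^ 4 = w ^ (4 : ℤ) := by norm_cast
    rw [this]
    exact weak hw hK (by norm_num)
  · rw [hB4]
    exact weak hw (mulB hw (mulB hw (cB hw (by norm_num : (8 : ℝ) ≤ 1000)) hK (by norm_num) hK0.le) p1
      (by positivity) (by positivity)) (by norm_num)
  · rw [hB4]
    have h1 : 64 * K * ((H : ℝ) ^ 2 + q ^ 4 * (H : ℝ) ^ 6) ≤ w ^ (4836 : ℤ) :=
      weak hw (mulB hw (mulB hw (cB hw (by norm_num : (64 : ℝ) ≤ 1000)) hK (by norm_num) hK0.le) p2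
        (by positivity) (by positivity)) (by norm_num)
    have h2 : 8 / q ^ 4 * (Real.exp (- (q * d0 * H / 2)) + 16 * K / (d0 ^ 4 * (H : ℝ) ^ 2)) ≤ w ^ (4836 : ℤ) :=
      weak hw (mulB hw p5 p4 (by positivity) (by positivity)) (by norm_num)
    exact weak hw (addB hw h1 h2) (by norm_num)
  · have hqθ : q * θ⁻¹ = d0⁻¹ := by rw [hθ]; field_simp
    -- the terms
    have t1 : 2 * (((a0 : ℝ) + 2) ^ 3 * η * (1 + q) ^ a0) * (q * θ⁻¹) ≤ w ^ (-2760 : ℤ) := by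
      rw [hqθ]
      exact weak hw (mulB hw (mulB hw (cB hw (by norm_num : (2 : ℝ) ≤ 1000)) (mulB hw (mulB hw
        (powB hw ba0 (by positivity) 3) hη (by positivity) hη0) bexp (by positivity) (by positivity))
        (by norm_num) (by positivity)) hdlo (by positivity) (by positivity)) (by norm_num)
    have t2 : 2 * Real.exp (- (q * d0 * H / 2)) * (q * θ⁻¹) ≤ w ^ (-2760 : ℤ) := by
      rw [hqθ]
      exact weak hw (mulB hw (mulB hw (cB hw (by norm_num : (2 : ℝ) ≤ 1000)) be1 (by norm_num) (Real.exp_pos _).le)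
        hdlo (by positivity) (by positivity)) (by norm_num)
    have t3 : 37 * (K / (d0 ^ 4 * (H : ℝ) ^ 2)) * (q * θ⁻¹) ≤ w ^ (-2760 : ℤ) := by
      rw [hqθ]
      exact weak hw (mulB hw (mulB hw (cB hw (by norm_num : (37 : ℝ) ≤ 1000)) p3 (by norm_num) (by positivity))
        hdlo (by positivity) (by positivity)) (by norm_num)
    have s1 : w * (w ^ 1210) ^ 2 * (ℓ : ℝ)⁻¹ ≤ w ^ (2021 : ℤ) :=
      weak hw (mulB hw (mulB hw (le_of_eq (zpow_one w).symm) (powB hw bB hB0 2) hw0.le (by positivity)) bℓi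
        (by positivity) (by positivity)) (by norm_num)
    have s2 : 5 * (ℓ : ℝ) ^ 2 * (w ^ 1210) ≤ w ^ (2021 : ℤ) :=
      weak hw (mulB hw (mulB hw (cB hw (by norm_num : (5 : ℝ) ≤ 1000)) (powB hw bℓ hℓ'.le 2) (by norm_num)
        (by positivity)) bB (by positivity) hB0) (by norm_num)
    have s3 : 6 * (ℓ : ℝ) ^ 4 ≤ w ^ (2022 : ℤ) :=
      weak hw (mulB hw (cB hw (by norm_num : (6 : ℝ) ≤ 1000)) (powB hw bℓ hℓ'.le 4) (by norm_num)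
        (by positivity)) (by norm_num)
    have s4 : w * (w ^ 1210) ^ 2 * (ℓ : ℝ)⁻¹ + 5 * (ℓ : ℝ) ^ 2 * (w ^ 1210) + 6 * (ℓ : ℝ) ^ 4 ≤ w ^ (2023 : ℤ) :=
      weak hw (addB hw (addB hw s1 s2) s3) (by norm_num)
    have t4 : q * (q * θ⁻¹) * (q * (w * (w ^ 1210) ^ 2 * (ℓ : ℝ)⁻¹ + 5 * (ℓ : ℝ) ^ 2 * (w ^ 1210) + 6 * (ℓ : ℝ) ^ 4)) ≤
        w ^ (-2760 : ℤ) := by
      rw [hqθ]
      exact weak hw (mulB hw (mulB hw bq hdlo hq0.le (by positivity)) (mulB hw bq s4 hq0.le (by positivity))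
        (by positivity) (by positivity)) (by norm_num)
    have t5 : (q * θ⁻¹) * (1 - θ) ^ H ≤ w ^ (-2760 : ℤ) := by
      rw [hqθ]
      exact weak hw (mulB hw hdlo be2 (by positivity) be2') (by norm_num)
    have t6 : H * (4 * η * q) * (q * θ⁻¹) ≤ w ^ (-2760 : ℤ) := by
      rw [hqθ]
      exact weak hw (mulB hw (mulB hw bH (mulB hw (mulB hw (cB hw (by norm_num : (4 : ℝ) ≤ 1000)) hη (by norm_num) hη0)
        bq (by positivity) hq0.le) hH'.le (by positivity)) hdlo (by positivity) (by positivity)) (by norm_num)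
    have t7 : (1 - θ) ^ H * (θ⁻¹) ^ 2 ≤ w ^ (-2760 : ℤ) :=
      weak hw (mulB hw be2 (powB hw hθlo (by positivity) 2) be2' (by positivity)) (by norm_num)
    have e : (2 * (((a0 : ℝ) + 2) ^ 3 * η * q * (1 + q) ^ a0) + 2 * q * Real.exp (- (q * d0 * H / 2)) +
        37 * q * K / (d0 ^ 4 * (H : ℝ) ^ 2) +
      q ^ 2 * (q * (w * (w ^ 1210) ^ 2 / ℓ + 5 * (ℓ : ℝ) ^ 2 * (w ^ 1210) + 6 * (ℓ : ℝ) ^ 4) + (1 - q * d0) ^ H / q) +
      H * (4 * η * q ^ 2) + (1 - θ) ^ H / θ) / θ =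
      2 * (((a0 : ℝ) + 2) ^ 3 * η * (1 + q) ^ a0) * (q * θ⁻¹) +
      2 * Real.exp (- (q * d0 * H / 2)) * (q * θ⁻¹) + 37 * (K / (d0 ^ 4 * (H : ℝ) ^ 2)) * (q * θ⁻¹) +
      q * (q * θ⁻¹) * (q * (w * (w ^ 1210) ^ 2 * (ℓ : ℝ)⁻¹ + 5 * (ℓ : ℝ) ^ 2 * (w ^ 1210) + 6 * (ℓ : ℝ) ^ 4)) +
      (q * θ⁻¹) * (1 - θ) ^ H + H * (4 * η * q) * (q * θ⁻¹) + (1 - θ) ^ H * (θ⁻¹) ^ 2 := by
      rw [← hθ]
      have hq' := hq0.ne'
      have hθ' := hθ0.ne'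
      have hH'' := hH'.ne'
      have hℓ'' := hℓ'.ne'
      have hd' := hd0.ne'
      generalize (w ^ 1210 : ℝ) = B
      generalize (1 - θ) ^ H = P
      generalize (1 + q) ^ a0 = Q
      generalize Real.exp (- (θ * H / 2)) = E
      field_simp
      ring
    rw [e]
    have f1 := addB hw (weak hw (addB hw (weak hw (addB hw t1 t2) le_rfl) (weak hw t3 (by norm_num : (-2760 : ℤ) ≤ -2760 + 1))) le_rfl)
      (weak hw t4 (by norm_num : (-2760 : ℤ) ≤ -2760 + 1 + 1))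
    have f2 := addB hw f1 (weak hw t5 (by norm_num : (-2760 : ℤ) ≤ -2760 + 1 + 1 + 1))
    have f3 := addB hw f2 (weak hw t6 (by norm_num : (-2760 : ℤ) ≤ -2760 + 1 + 1 + 1 + 1))
    have f4 := addB hw f3 (weak hw t7 (by norm_num : (-2760 : ℤ) ≤ -2760 + 1 + 1 + 1 + 1 + 1))
    exact weak hw f4 (by norm_num)

end Pool.Agent.K9h56.TB
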