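import Pool.Agent.K9h56.TB.Rho
import Pool.Agent.K9h56.TB.Num

set_option autoImplicit false
set_option linter.unusedSectionVars false
set_option linter.style.haveILetI false

/-! The formula for the bias. -/

namespace Pool.Agent.K9h56.TB

open Finset Filter

/-- the sum of the signs over a period -/
noncomputable def sgn {s : Finset ℕ} (hs : IsPr s) : ℝ := by
  classical
  exact ∑ m ∈ range (∏ p ∈ s, p), if Good s m then (-1 : ℝ) ^ gap hs m else 0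

/-- the mean sign -/
noncomputable def Dz (z : ℕ) : ℝ := sgn (isPr_pr5 z) / ((∏ p ∈ pr5 z, p : ℕ) : ℝ) / dz z

lemma ST_nat {z0 z : ℕ} (h4 : 4 ≤ z0) (h : z0 ≤ z) (m : ℕ) :
    haveI := neZero_of (isPr_pr5 z0)
    haveI := neZero_of (isPr_prl z0 z h4)
    (Good (pr5 z) m → ST (SS (av (pr5 z0)) (bv (pr5 z0)) univ) (SS (av (prl z0 z)) (bv (prl z0 z)) univ)
      ((m : ℕ) : RR (pr5 z0) × RR (prl z0 z)) = 1) ∧
    (¬ Good (pr5 z) m → ST (SS (av (pr5 z0)) (bv (pr5 z0)) univ) (SS (av (prl z0 z)) (bv (prl z0 z)) univ)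
      ((m : ℕ) : RR (pr5 z0) × RR (prl z0 z)) = 0) := by
  haveI := neZero_of (isPr_pr5 z0)
  haveI := neZero_of (isPr_prl z0 z h4)
  classical
  have h0 := SS_nat (isPr_pr5 z0) m
  have h1 := SS_nat (isPr_prl z0 z h4) m
  rw [pr5_union h4 h, good_union]
  unfold ST
  rw [Prod.fst_natCast, Prod.snd_natCast, h0, h1]
  constructor
  · rintro ⟨h2, h3⟩
    rw [if_pos h2, if_pos h3, one_mul]
  · intro h2
    by_cases h3 : Good (pr5 z0) m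
    · rw [if_neg (fun h4 => h2 ⟨h3, h4⟩), mul_zero]
    · rw [if_neg h3, zero_mul]

lemma dz_prod {z0 z : ℕ} (h4 : 4 ≤ z0) (h : z0 ≤ z) :
    dz z = dz z0 * ∏ p ∈ prl z0 z, (1 - 2 / (p : ℝ)) := by
  unfold dz
  rw [pr5_union h4 h, prod_union (pr5_disj z0 z)]

lemma Dz_eq {z0 z : ℕ} (h4 : 4 ≤ z0) (h : z0 ≤ z) :
    haveI := neZero_of (isPr_pr5 z0)
    haveI := neZero_of (isPr_prl z0 z h4)
    Dz z = (Ex fun ω : RR (pr5 z0) × RR (prl z0 z) =>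
      ST (SS (av (pr5 z0)) (bv (pr5 z0)) univ) (SS (av (prl z0 z)) (bv (prl z0 z)) univ) ω *
      uu (ST (SS (av (pr5 z0)) (bv (pr5 z0)) univ) (SS (av (prl z0 z)) (bv (prl z0 z)) univ)) 1 ω) / dz z := by
  haveI := neZero_of (isPr_pr5 z0)
  haveI := neZero_of (isPr_prl z0 z h4)
  classical
  unfold Dz
  rw [Ex_period (isPr_pr5 z0) (isPr_prl z0 z h4) (pr5_disj z0 z)]
  rw [← pr5_union h4 h]
  congr 2
  unfold sgn
  apply sum_congr rfl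
  intro m _
  have h1 := ST_nat h4 h m
  have h2 := uu_gap (isPr_pr5 z) (ST (SS (av (pr5 z0)) (bv (pr5 z0)) univ)
    (SS (av (prl z0 z)) (bv (prl z0 z)) univ)) m (fun n => (ST_nat h4 h n).1) (fun n => (ST_nat h4 h n).2)
  rw [h2]
  by_cases hg : Good (pr5 z) m
  · rw [if_pos hg, h1.1 hg, one_mul]
  · rw [if_neg hg, h1.2 hg, zero_mul]

lemma rz_nonneg {s : Finset ℕ} (hs : IsPr s) (k : ℕ) : 0 ≤ rz s k := by
  unfold rz
  apply prod_nonneg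
  intro p hp
  have h5 : (5 : ℝ) ≤ p := by exact_mod_cast (hs p hp).2
  have h4 : (nu p k : ℝ) ≤ 4 := by
    unfold nu; split_ifs <;> norm_num
  rw [sub_nonneg, div_le_one (by linarith)]
  linarith

lemma rz_le_one {s : Finset ℕ} (hs : IsPr s) (k : ℕ) : rz s k ≤ 1 := by
  unfold rz
  apply prod_le_one
  · intro p hp
    have h5 : (5 : ℝ) ≤ p := by exact_mod_cast (hs p hp).2
    have h4 : (nu p k : ℝ) ≤ 4 := by
      unfold nu; split_ifs <;> norm_num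
    rw [sub_nonneg, div_le_one (by linarith)]
    linarith
  · intro p hp
    have : 0 ≤ (nu p k : ℝ) / p := by positivity
    linarith

/-- truncation of the series -/
lemma series_trunc {s : Finset ℕ} (hs : IsPr s) {θ : ℝ} (h0 : 0 < θ) (h1 : θ ≤ 1) (H : ℕ) :
    Summable (fun k : ℕ => (-1 : ℝ) ^ (k + 1) * (1 - θ) ^ k * rz s (k + 1)) ∧
    |(∑' k : ℕ, (-1 : ℝ) ^ (k + 1) * (1 - θ) ^ k * rz s (k + 1)) -
      ∑ k ∈ range H, (-1 : ℝ) ^ (k + 1) * (1 - θ) ^ k * rz s (k + 1)| ≤ (1 - θ) ^ H / θ := by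
  have hb : ∀ k : ℕ, |(-1 : ℝ) ^ (k + 1) * (1 - θ) ^ k * rz s (k + 1)| ≤ (1 - θ) ^ k := by
    intro k
    have h2 : 0 ≤ (1 - θ) ^ k := pow_nonneg (by linarith) _
    rw [abs_mul, abs_mul, abs_pow, abs_neg, abs_one, one_pow, one_mul, abs_of_nonneg h2,
      abs_of_nonneg (rz_nonneg hs _)]
    exact mul_le_of_le_one_right h2 (rz_le_one hs _)
  have hg : Summable (fun k : ℕ => (1 - θ) ^ k) := summable_geometric_of_lt_one (by linarith) (by linarith)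
  have hs1 : Summable (fun k : ℕ => (-1 : ℝ) ^ (k + 1) * (1 - θ) ^ k * rz s (k + 1)) :=
    Summable.of_norm_bounded hg (fun k => by rw [Real.norm_eq_abs]; exact hb k)
  refine ⟨hs1, ?_⟩
  have h2 := hs1.sum_add_tsum_nat_add H
  have h3 : (∑' k : ℕ, (-1 : ℝ) ^ (k + 1) * (1 - θ) ^ k * rz s (k + 1)) -
      ∑ k ∈ range H, (-1 : ℝ) ^ (k + 1) * (1 - θ) ^ k * rz s (k + 1) =
      ∑' k : ℕ, (-1 : ℝ) ^ (k + H + 1) * (1 - θ) ^ (k + H) * rz s (k + H + 1) := by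
    linarith
  rw [h3]
  have hg2 : Summable (fun k : ℕ => (1 - θ) ^ (k + H)) := (summable_nat_add_iff H).2 hg
  have h4 : ‖∑' k : ℕ, (-1 : ℝ) ^ (k + H + 1) * (1 - θ) ^ (k + H) * rz s (k + H + 1)‖ ≤
      ∑' k : ℕ, (1 - θ) ^ (k + H) := by
    apply tsum_of_norm_bounded hg2.hasSum
    intro k
    rw [Real.norm_eq_abs]
    exact hb (k + H)
  rw [Real.norm_eq_abs] at h4
  refine h4.trans (le_of_eq ?_)
  have h5 : ∀ k : ℕ, (1 - θ) ^ (k + H) = (1 - θ) ^ H * (1 - θ) ^ k := fun k => by rw [pow_add, mul_comm]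
  simp_rw [h5]
  rw [tsum_mul_left, tsum_geometric_of_lt_one (by linarith) (by linarith)]
  rw [show 1 - (1 - θ) = θ by ring]
  rfl

/-- the combination of the two parts -/
lemma combine {z0 z : ℕ} (h4 : 4 ≤ z0) (h : z0 ≤ z) {q d0 θ K η B κ : ℝ} {H ℓ a0 : ℕ}
    (hq : q = ∏ p ∈ prl z0 z, (1 - 2 / (p : ℝ))) (hd0 : d0 = dz z0) (hθ : θ = dz z) (hθq : θ = q * d0)
    (hq0 : 0 < q) (hq1 : q ≤ 1) (hd0' : 0 < d0) (hd1 : d0 ≤ 1)
    (hK : K = ∏ p ∈ pr5 z0, (1 + 1344 / (p : ℝ))) (hη : η = ∑ p ∈ prl z0 z, 4 / (p : ℝ) ^ 2)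
    (hη1 : η ≤ 1)
    (hH : 0 < H) (hℓ : 0 < ℓ) (hHp : 4 * (H + 1) ≤ z0) (ha0 : 2 * d0 * H ≤ a0) (hκ : 0 ≤ κ) (hKκ : K ≤ κ ^ 4)
    (hB : 0 ≤ B) (hB1 : 8 * K * ((H : ℝ) ^ 2 + θ ^ 4 * (H : ℝ) ^ 6) ≤ B ^ 4)
    (hB2 : 64 * K * ((H : ℝ) ^ 2 + q ^ 4 * (H : ℝ) ^ 6) +
      8 / q ^ 4 * (Real.exp (- (q * d0 * H / 2)) + 16 * K / (d0 ^ 4 * (H : ℝ) ^ 2)) ≤ B ^ 4) :
    |Dz z - (∑' k : ℕ, (-1 : ℝ) ^ (k + 1) * (1 - dz z) ^ k * rz (pr5 z) (k + 1)) / dz z| ≤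
      (2 * (((a0 : ℝ) + 2) ^ 3 * η * q * (1 + q) ^ a0) + 2 * q * Real.exp (- (q * d0 * H / 2)) +
        37 * q * K / (d0 ^ 4 * (H : ℝ) ^ 2) +
      q ^ 2 * (q * (κ * B ^ 2 / ℓ + 5 * (ℓ : ℝ) ^ 2 * B + 6 * (ℓ : ℝ) ^ 4) + (1 - q * d0) ^ H / q) +
      H * (4 * η * q ^ 2) + (1 - θ) ^ H / θ) / θ := by
  haveI := neZero_of (isPr_pr5 z0)
  haveI := neZero_of (isPr_prl z0 z h4)
  have hθ0 : 0 < θ := by rw [hθq]; positivity
  have hθ1 : θ ≤ 1 := by rw [hθq]; exact mul_le_one₀ hq1 hd0'.le hd1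
  have hη0 : 0 ≤ η := by rw [hη]; exact sum_nonneg fun p _ => by positivity
  have hK0 : 0 ≤ K := by rw [hK]; exact prod_nonneg fun p _ => by positivity
  set S0 : RR (pr5 z0) → ℝ := SS (av (pr5 z0)) (bv (pr5 z0)) univ with hS0
  set S1 : RR (prl z0 z) → ℝ := SS (av (prl z0 z)) (bv (prl z0 z)) univ with hS1
  have hS0' : ∀ ω, S0 ω = 0 ∨ S0 ω = 1 := fun ω => SS_zo _ _ _ ω
  have hS1' : ∀ ω, S1 ω = 0 ∨ S1 ω = 1 := fun ω => SS_zo _ _ _ ω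
  have H1 := first_hyp (isPr_pr5 z0)
  have H2 := second_hyp (isPr_pr5 z0)
  have H3 := third_hyp (isPr_prl z0 z h4) H (fun p hp => by rw [mem_prl] at hp; omega)
  rw [← hK] at H1 H2
  have hd0'' : ∏ p ∈ pr5 z0, (1 - 2 / (p : ℝ)) = d0 := by rw [hd0]; rfl
  rw [hd0''] at H2
  rw [← hq, ← hη] at H3
  have hb : Ex (fun ω : RR (pr5 z0) => bb S0 (q * d0) H ω ^ 4) ≤ B ^ 4 := by
    refine (four_bb hS0' (by rw [← hθq]; exact hθ0.le) (by rw [← hθq]; exact hθ1) hK0 H1 H).trans ?_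
    rw [← hθq]; exact hB1
  have hu : Ex (fun ω : RR (pr5 z0) => uu S0 q ω ^ 4) ≤ B ^ 4 :=
    (four_uu hS0' hq0 hq1 hK0 hd0' H1 H2 H hH).trans hB2
  have P1 := part_one hq0 hq1 hη0 hη1 H3 hS0' hS1' hd0' H2 hH a0 ha0
  have P2 := part_two hS0' hq0 hq1 hd0' hd1 H2 H ℓ hℓ hκ hKκ hB hb hu
  have P3 := series_trunc (isPr_pr5 z) hθ0 hθ1 H
  have P4 : ∀ k : ℕ, k < H → |rz (pr5 z) (k + 1) - q ^ 2 * rh S0 (k + 1)| ≤ 4 * η * q ^ 2 := by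
    intro k hk
    have h5 := rh_ST H3 hS0' (k + 1) (by omega) (by omega)
    have h6 : rh (ST S0 S1) (k + 1) = rz (pr5 z) (k + 1) := by
      rw [rh_prod, rh_SS (isPr_pr5 z0) _ (by omega), rh_SS (isPr_prl z0 z h4) _ (by omega)]
      unfold rz
      rw [pr5_union h4 h, prod_union (pr5_disj z0 z)]
    rw [h6] at h5
    exact h5
  rw [Dz_eq h4 h, ← hθ, ← sub_div, abs_div, abs_of_pos hθ0]
  apply div_le_div_of_nonneg_right _ hθ0.le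
  set E := (Ex fun ω : RR (pr5 z0) × RR (prl z0 z) => ST S0 S1 ω * uu (ST S0 S1) 1 ω) with hE
  set F := (Ex fun ω : RR (pr5 z0) => S0 ω * uu S0 q ω) with hF
  set T := (∑' k : ℕ, (-1 : ℝ) ^ (k + 1) * (1 - θ) ^ k * rz (pr5 z) (k + 1)) with hT
  set T1 := ∑ k ∈ range H, (-1 : ℝ) ^ (k + 1) * (1 - θ) ^ k * rz (pr5 z) (k + 1) with hT1
  set T2 := ∑ k ∈ range H, (-1 : ℝ) ^ (k + 1) * (1 - q * d0) ^ k * rh S0 (k + 1) with hT2
  have P5 : |T1 - q ^ 2 * T2| ≤ H * (4 * η * q ^ 2) := by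
    have e1 : T1 - q ^ 2 * T2 = ∑ k ∈ range H, ((-1 : ℝ) ^ (k + 1) * (1 - θ) ^ k) *
        (rz (pr5 z) (k + 1) - q ^ 2 * rh S0 (k + 1)) := by
      rw [hT1, hT2, mul_sum, ← sum_sub_distrib]
      apply sum_congr rfl
      intro k _
      rw [← hθq]
      ring
    rw [e1]
    refine (abs_sum_le_sum_abs _ _).trans ?_
    have e2 : ∀ k ∈ range H, |((-1 : ℝ) ^ (k + 1) * (1 - θ) ^ k) *
        (rz (pr5 z) (k + 1) - q ^ 2 * rh S0 (k + 1))| ≤ 4 * η * q ^ 2 := by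
      intro k hk
      rw [abs_mul, abs_mul, abs_pow, abs_neg, abs_one, one_pow, one_mul,
        abs_of_nonneg (pow_nonneg (by linarith : 0 ≤ 1 - θ) _)]
      calc (1 - θ) ^ k * |rz (pr5 z) (k + 1) - q ^ 2 * rh S0 (k + 1)| ≤
          1 * |rz (pr5 z) (k + 1) - q ^ 2 * rh S0 (k + 1)| :=
            mul_le_mul_of_nonneg_right (pow_le_one₀ (by linarith) (by linarith)) (abs_nonneg _)
        _ = _ := one_mul _
        _ ≤ _ := P4 k (mem_range.1 hk)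
    refine (sum_le_sum e2).trans ?_
    rw [sum_const, card_range, nsmul_eq_mul]
  have P6 : |q ^ 2 * F - q ^ 2 * T2| ≤
      q ^ 2 * (q * (κ * B ^ 2 / ℓ + 5 * (ℓ : ℝ) ^ 2 * B + 6 * (ℓ : ℝ) ^ 4) + (1 - q * d0) ^ H / q) := by
    rw [← mul_sub, abs_mul, abs_of_nonneg (sq_nonneg q)]
    exact mul_le_mul_of_nonneg_left P2 (sq_nonneg q)
  have e : E - T = (E - q ^ 2 * F) + (q ^ 2 * F - q ^ 2 * T2) - (T1 - q ^ 2 * T2) - (T - T1) := by ring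
  rw [e]
  have tri : ∀ a b c d : ℝ, |a + b - c - d| ≤ |a| + |b| + |c| + |d| := by
    intro a b c d
    have h1 := abs_sub (a + b - c) d
    have h2 := abs_sub (a + b) c
    have h3 := abs_add_le a b
    linarith
  refine (tri _ _ _ _).trans ?_
  have P3' := P3.2
  linarith

end Pool.Agent.K9h56.TB
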