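import Pool.Agent.Helper601.Mertens
import Mathlib

set_option autoImplicit false

/-! Products over primes. -/

namespace Pool.Agent.K9h56.TB

open Finset Real

/-- the primes `5 ≤ p ≤ z` -/
def pr5 (z : ℕ) : Finset ℕ := (Icc 5 z).filter Nat.Prime

/-- the primes `z₀ < p ≤ z` -/
def prl (z0 z : ℕ) : Finset ℕ := (Ioc z0 z).filter Nat.Prime

lemma mem_pr5 {z p : ℕ} : p ∈ pr5 z ↔ 5 ≤ p ∧ p ≤ z ∧ p.Prime := by
  unfold pr5; rw [mem_filter, mem_Icc]; tauto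

lemma mem_prl {z0 z p : ℕ} : p ∈ prl z0 z ↔ z0 < p ∧ p ≤ z ∧ p.Prime := by
  unfold prl; rw [mem_filter, mem_Ioc]; tauto

/-- `∏_{5 ≤ p ≤ z} (1 - 2 / p)` -/
noncomputable def dz (z : ℕ) : ℝ := ∏ p ∈ pr5 z, (1 - 2 / (p : ℝ))

lemma sum_pr5 {z : ℕ} (hz : 5 ≤ z) : ∑ p ∈ (Icc 1 z).filter Nat.Prime, (1 : ℝ) / p =
    5 / 6 + ∑ p ∈ pr5 z, (1 : ℝ) / p := by
  have h1 : (Icc 1 z).filter Nat.Prime = insert 2 (insert 3 (pr5 z)) := by
    ext p
    rw [mem_filter, mem_Icc, mem_insert, mem_insert, mem_pr5]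
    constructor
    · rintro ⟨⟨_, h2⟩, h3⟩
      rcases le_or_gt 5 p with h | h
      · right; right; exact ⟨h, h2, h3⟩
      · have := h3.two_le
        interval_cases p
        · left; rfl
        · right; left; rfl
        · exact absurd h3 (by norm_num)
    · rintro (h | h | h)
      · subst h; exact ⟨by omega, Nat.prime_two⟩
      · subst h; exact ⟨by omega, Nat.prime_three⟩
      · exact ⟨⟨by omega, h.2.1⟩, h.2.2⟩
  rw [h1, sum_insert, sum_insert]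
  · norm_num; ring
  · rw [mem_pr5]; omega
  · rw [mem_insert, mem_pr5]; omega

lemma mert : ∃ C : ℝ, 0 ≤ C ∧ ∀ z : ℕ, 5 ≤ z → |∑ p ∈ pr5 z, (1 : ℝ) / p - log (log z)| ≤ C := by
  obtain ⟨C, hC⟩ := Pool.Agent.Helper601.Mertens.mertens_inv
  refine ⟨C + 1, ?_, fun z hz => ?_⟩
  · have := (abs_nonneg _).trans (hC 3 le_rfl)
    linarith
  · have h := hC z (by omega)
    rw [sum_pr5 hz] at h
    rw [abs_le] at h ⊢
    constructor <;> linarith [h.1, h.2]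

lemma exp_lower {x : ℝ} (h0 : 0 ≤ x) (h1 : x ≤ 1 / 2) : exp (-(x + x ^ 2)) ≤ 1 - x := by
  have h2 : 1 + (x + x ^ 2) + (x + x ^ 2) ^ 2 / 2 ≤ exp (x + x ^ 2) :=
    quadratic_le_exp_of_nonneg (by positivity)
  have h3 : 1 ≤ (1 - x) * exp (x + x ^ 2) := by
    have h4 : (1 - x) * (1 + (x + x ^ 2) + (x + x ^ 2) ^ 2 / 2) ≤ (1 - x) * exp (x + x ^ 2) :=
      mul_le_mul_of_nonneg_left h2 (by linarith)
    have h5 : (1 - x) * (1 + (x + x ^ 2) + (x + x ^ 2) ^ 2 / 2) = 1 + x ^ 2 / 2 - x ^ 3 / 2 - x ^ 4 / 2 - x ^ 5 / 2 := by ring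
    have h6 : x ^ 3 ≤ x ^ 2 * (1 / 2) := by nlinarith [sq_nonneg x]
    have h7 : x ^ 4 ≤ x ^ 2 * (1 / 4) := by nlinarith [sq_nonneg x, pow_nonneg h0 3]
    have h8 : x ^ 5 ≤ x ^ 2 * (1 / 8) := by nlinarith [sq_nonneg x, pow_nonneg h0 4]
    nlinarith [sq_nonneg x]
  rw [exp_neg]
  rw [inv_le_iff_one_le_mul₀ (exp_pos _)]
  exact h3

lemma sum_sq_pr5 (z : ℕ) : ∑ p ∈ pr5 z, (4 : ℝ) / (p : ℝ) ^ 2 ≤ 1 := by
  have h1 : ∀ n : ℕ, ∑ m ∈ Icc 5 n, (4 : ℝ) / (m : ℝ) ^ 2 ≤ 1 - (if 5 ≤ n then 4 / (n : ℝ) else 0) := by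
    intro n
    induction n with
    | zero => simp
    | succ n ih =>
      rcases lt_or_ge n 4 with h | h
      · rw [Icc_eq_empty (by omega), if_neg (by omega)]; simp
      · rcases eq_or_lt_of_le h with h | h
        · subst h
          norm_num
        · rw [← Nat.succ_eq_add_one, Nat.succ_eq_add_one, sum_Icc_succ_top (by omega), if_pos (by omega)]
          rw [if_pos (by omega)] at ih
          have hn : (5 : ℝ) ≤ n := by exact_mod_cast h
          have h2 : (4 : ℝ) / ((n + 1 : ℕ) : ℝ) ^ 2 ≤ 4 / (n : ℝ) - 4 / ((n + 1 : ℕ) : ℝ) := by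
            push_cast
            rw [div_sub_div _ _ (by positivity) (by positivity), div_le_div_iff₀ (by positivity) (by positivity)]
            nlinarith
          linarith
  have h2 : ∑ p ∈ pr5 z, (4 : ℝ) / (p : ℝ) ^ 2 ≤ ∑ m ∈ Icc 5 z, (4 : ℝ) / (m : ℝ) ^ 2 :=
    sum_le_sum_of_subset_of_nonneg (filter_subset _ _) fun _ _ _ => by positivity
  have h3 := h1 z
  split_ifs at h3
  · have : 0 ≤ 4 / (z : ℝ) := by positivity
    linarith
  · linarith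

lemma sum_sq_prl (z0 z : ℕ) (hz0 : 0 < z0) : ∑ p ∈ prl z0 z, (4 : ℝ) / (p : ℝ) ^ 2 ≤ 4 / z0 := by
  have hz0' : (0 : ℝ) < z0 := by exact_mod_cast hz0
  have h1 : ∀ n : ℕ, z0 ≤ n → ∑ m ∈ Ioc z0 n, (4 : ℝ) / (m : ℝ) ^ 2 ≤ 4 / z0 - 4 / (n : ℝ) := by
    intro n hn
    induction n, hn using Nat.le_induction with
    | base => simp
    | succ n hn ih =>
      rw [sum_Ioc_succ_top (by omega)]
      have hn' : (0 : ℝ) < n := by exact_mod_cast (by omega : 0 < n)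
      have h2 : (4 : ℝ) / ((n + 1 : ℕ) : ℝ) ^ 2 ≤ 4 / (n : ℝ) - 4 / ((n + 1 : ℕ) : ℝ) := by
        push_cast
        rw [div_sub_div _ _ (by positivity) (by positivity), div_le_div_iff₀ (by positivity) (by positivity)]
        nlinarith
      linarith
  rcases le_or_gt z0 z with h | h
  · have h2 : ∑ p ∈ prl z0 z, (4 : ℝ) / (p : ℝ) ^ 2 ≤ ∑ m ∈ Ioc z0 z, (4 : ℝ) / (m : ℝ) ^ 2 :=
      sum_le_sum_of_subset_of_nonneg (filter_subset _ _) fun _ _ _ => by positivity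
    have h3 := h1 z h
    have : 0 ≤ 4 / (z : ℝ) := by positivity
    linarith
  · have : prl z0 z = ∅ := by
      unfold prl
      rw [Ioc_eq_empty (by omega), filter_empty]
    rw [this, sum_empty]
    positivity

lemma dz_bounds : ∃ c C : ℝ, 0 < c ∧ 0 < C ∧ ∀ z : ℕ, 5 ≤ z → c / (log z) ^ 2 ≤ dz z ∧ dz z ≤ C / (log z) ^ 2 := by
  obtain ⟨C, hC0, hC⟩ := mert
  refine ⟨exp (-(2 * C + 1)), exp (2 * C), exp_pos _, exp_pos _, fun z hz => ?_⟩
  have h := hC z hz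
  rw [abs_le] at h
  have hlog : 1 < log z := by
    have h5 : (5 : ℝ) ≤ z := by exact_mod_cast hz
    have h6 : exp 1 < 5 := by have := exp_one_lt_d9; linarith
    rw [lt_log_iff_exp_lt (by linarith)]
    linarith
  have hsq : (log z) ^ 2 = exp (2 * log (log z)) := by
    rw [mul_comm, exp_mul, exp_log (by linarith)]
    norm_num
  have hx : ∀ p ∈ pr5 z, 0 ≤ 2 / (p : ℝ) ∧ 2 / (p : ℝ) ≤ 1 / 2 := by
    intro p hp
    rw [mem_pr5] at hp
    have : (5 : ℝ) ≤ p := by exact_mod_cast hp.1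
    refine ⟨by positivity, ?_⟩
    rw [div_le_div_iff₀ (by linarith) (by norm_num)]
    linarith
  constructor
  · have h1 : exp (∑ p ∈ pr5 z, -(2 / (p : ℝ) + (2 / (p : ℝ)) ^ 2)) ≤ dz z := by
      rw [exp_sum]
      unfold dz
      apply prod_le_prod
      · intro p _; exact (exp_pos _).le
      · intro p hp; exact exp_lower (hx p hp).1 (hx p hp).2
    refine le_trans ?_ h1
    rw [hsq, ← exp_sub]
    apply exp_le_exp.2
    have h2 : ∑ p ∈ pr5 z, -(2 / (p : ℝ) + (2 / (p : ℝ)) ^ 2) =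
        - (2 * ∑ p ∈ pr5 z, (1 : ℝ) / p + ∑ p ∈ pr5 z, (4 : ℝ) / (p : ℝ) ^ 2) := by
      rw [sum_neg_distrib, mul_sum, ← sum_add_distrib]
      congr 1
      apply sum_congr rfl
      intro p _
      rw [div_pow]; ring
    rw [h2]
    have h3 := sum_sq_pr5 z
    linarith [h.2]
  · have h1 : dz z ≤ exp (∑ p ∈ pr5 z, -(2 / (p : ℝ))) := by
      rw [exp_sum]
      unfold dz
      apply prod_le_prod
      · intro p hp; linarith [(hx p hp).2]
      · intro p _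
        have := add_one_le_exp (-(2 / (p : ℝ)))
        linarith
    refine h1.trans ?_
    rw [hsq, ← exp_sub]
    apply exp_le_exp.2
    have h2 : ∑ p ∈ pr5 z, -(2 / (p : ℝ)) = - (2 * ∑ p ∈ pr5 z, (1 : ℝ) / p) := by
      rw [sum_neg_distrib, mul_sum]
      congr 1
      apply sum_congr rfl
      intro p _
      ring
    rw [h2]
    linarith [h.1]

lemma kk_bound (k : ℝ) (hk : 0 ≤ k) : ∃ C : ℝ, 0 < C ∧ ∀ z : ℕ, 5 ≤ z → ∏ p ∈ pr5 z, (1 + k / (p : ℝ)) ≤ C * (log z) ^ k := by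
  obtain ⟨C, hC0, hC⟩ := mert
  refine ⟨exp (k * C), exp_pos _, fun z hz => ?_⟩
  have h := hC z hz
  rw [abs_le] at h
  have hlog : 1 < log z := by
    have h5 : (5 : ℝ) ≤ z := by exact_mod_cast hz
    have h6 : exp 1 < 5 := by have := exp_one_lt_d9; linarith
    rw [lt_log_iff_exp_lt (by linarith)]
    linarith
  have h1 : ∏ p ∈ pr5 z, (1 + k / (p : ℝ)) ≤ exp (∑ p ∈ pr5 z, k / (p : ℝ)) := by
    rw [exp_sum]
    apply prod_le_prod
    · intro p _; positivity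
    · intro p _
      have := add_one_le_exp (k / (p : ℝ))
      linarith
  refine h1.trans ?_
  rw [rpow_def_of_pos (by linarith), ← exp_add]
  apply exp_le_exp.2
  have h2 : ∑ p ∈ pr5 z, k / (p : ℝ) = k * ∑ p ∈ pr5 z, (1 : ℝ) / p := by
    rw [mul_sum]
    apply sum_congr rfl
    intro p _
    ring
  rw [h2]
  nlinarith [h.2]

end Pool.Agent.K9h56.TB
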