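import Pool.Agent.K9h56.TB.Mod
import Pool.Agent.K9h56.TB.NT

set_option autoImplicit false
set_option linter.unusedSectionVars false

/-! The concrete sifted set. -/

namespace Pool.Agent.K9h56.TB

open Finset

/-- a finite set of primes `≥ 5` -/
def IsPr (s : Finset ℕ) : Prop := ∀ p ∈ s, p.Prime ∧ 5 ≤ p

lemma isPr_pr5 (z : ℕ) : IsPr (pr5 z) := fun p hp => by rw [mem_pr5] at hp; exact ⟨hp.2.2, hp.1⟩

lemma isPr_prl (z0 z : ℕ) (h : 4 ≤ z0) : IsPr (prl z0 z) := fun p hp => by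
  rw [mem_prl] at hp; exact ⟨hp.2.2, by omega⟩

/-- the ring -/
abbrev RR (s : Finset ℕ) : Type := ∀ i : ↥s, ZMod (i : ℕ)

/-- the first forbidden class -/
noncomputable def av (s : Finset ℕ) : RR s := fun _ => -5 * 6⁻¹

/-- the second forbidden class -/
noncomputable def bv (s : Finset ℕ) : RR s := fun _ => -7 * 6⁻¹

lemma six_mul {p : ℕ} (hp : p.Prime) (h5 : 5 ≤ p) : (6 : ZMod p) * 6⁻¹ = 1 := by
  haveI := Fact.mk hp
  apply mul_inv_cancel₀
  intro h
  have h1 : ((6 : ℕ) : ZMod p) = 0 := by exact_mod_cast h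
  rw [ZMod.natCast_eq_zero_iff] at h1
  have h2 : p ∣ 2 * 3 := by simpa using h1
  rcases (Nat.Prime.dvd_mul hp).1 h2 with h3 | h3
  · have := Nat.le_of_dvd (by norm_num) h3; omega
  · have := Nat.le_of_dvd (by norm_num) h3; omega

lemma eq_av {p : ℕ} (hp : p.Prime) (h5 : 5 ≤ p) (c : ℕ) (x : ZMod p) :
    x = -(c : ZMod p) * 6⁻¹ ↔ 6 * x + c = 0 := by
  have h6 := six_mul hp h5
  constructor
  · intro h
    rw [h]
    linear_combination (-(c : ZMod p)) * h6
  · intro h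
    linear_combination (6 : ZMod p)⁻¹ * h - x * h6

lemma nat_av {p : ℕ} (hp : p.Prime) (h5 : 5 ≤ p) (c m : ℕ) :
    (m : ZMod p) = -(c : ZMod p) * 6⁻¹ ↔ p ∣ 6 * m + c := by
  rw [eq_av hp h5, ← ZMod.natCast_eq_zero_iff]
  push_cast
  rfl

lemma av_ne_bv {p : ℕ} (hp : p.Prime) (h5 : 5 ≤ p) : (-5 * 6⁻¹ : ZMod p) ≠ -7 * 6⁻¹ := by
  intro h
  have h6 := six_mul hp h5
  have h2 : ((2 : ℕ) : ZMod p) = 0 := by
    push_cast
    linear_combination (6 : ZMod p) * h + (-2) * h6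
  rw [ZMod.natCast_eq_zero_iff] at h2
  have := Nat.le_of_dvd (by norm_num) h2
  omega

lemma av_sub {p : ℕ} (hp : p.Prime) (h5 : 5 ≤ p) (H : ℕ) (hH : 3 * H + 1 < p) (j k : ℕ) (hj : j ≤ H) (hk : k ≤ H) :
    (-5 * 6⁻¹ : ZMod p) - (j : ZMod p) ≠ -7 * 6⁻¹ - (k : ZMod p) := by
  intro h
  have h6 := six_mul hp h5
  haveI := Fact.mk hp
  have h2 : (2 : ZMod p) * (((3 * (j : ℤ) - 3 * (k : ℤ) - 1 : ℤ)) : ZMod p) = 0 := by
    push_cast
    linear_combination (-6 : ZMod p) * h + 2 * h6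
  have h20 : (2 : ZMod p) ≠ 0 := by
    intro h3
    have h4 : ((2 : ℕ) : ZMod p) = 0 := by exact_mod_cast h3
    rw [ZMod.natCast_eq_zero_iff] at h4
    have := Nat.le_of_dvd (by norm_num) h4
    omega
  have h3 := (mul_eq_zero.1 h2).resolve_left h20
  rw [ZMod.intCast_zmod_eq_zero_iff_dvd] at h3
  rcases h3 with ⟨c, hc⟩
  have hc0 : c = 0 := by
    by_contra hne
    have h5 : 1 ≤ |c| := Int.one_le_abs hne
    have h7 : |3 * (j : ℤ) - 3 * (k : ℤ) - 1| = p * |c| := by rw [hc, abs_mul, Nat.abs_cast]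
    have h8 : |3 * (j : ℤ) - 3 * (k : ℤ) - 1| ≤ 3 * H + 1 := by
      rw [abs_le]; constructor <;> omega
    have h9 : (p : ℤ) * 1 ≤ p * |c| := mul_le_mul_of_nonneg_left h5 (by positivity)
    have : (p : ℤ) ≤ 3 * H + 1 := by linarith
    omega
  rw [hc0, mul_zero] at hc
  omega

section set

variable {s : Finset ℕ}

lemma neZero_of (hs : IsPr s) : ∀ i : ↥s, NeZero (i : ℕ) := fun i => ⟨(hs i i.2).1.ne_zero⟩

/-- `p` divides neither `6 m + 5` nor `6 m + 7`, for `p` in `s` -/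
def Good (s : Finset ℕ) (m : ℕ) : Prop := ∀ p ∈ s, ¬ p ∣ 6 * m + 5 ∧ ¬ p ∣ 6 * m + 7

open Classical in
lemma SS_nat (hs : IsPr s) (m : ℕ) :
    SS (av s) (bv s) univ ((m : ℕ) : RR s) = if Good s m then 1 else 0 := by
  unfold SS
  split_ifs with h
  · apply prod_eq_one
    intro i _
    have hi := hs i i.2
    have h1 := h i i.2
    unfold gd
    rw [if_neg]
    rintro (h2 | h2)
    · apply h1.1
      rw [← nat_av hi.1 hi.2 5 m]
      simpa [av] using h2
    · apply h1.2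
      rw [← nat_av hi.1 hi.2 7 m]
      simpa [bv] using h2
  · unfold Good at h
    push Not at h
    obtain ⟨p, hp, h⟩ := h
    apply prod_eq_zero (mem_univ ⟨p, hp⟩)
    unfold gd
    rw [if_pos]
    have hi := hs p hp
    by_cases h2 : p ∣ 6 * m + 5
    · left
      have := (nat_av hi.1 hi.2 5 m).2 h2
      simpa [av] using this
    · right
      have := (nat_av hi.1 hi.2 7 m).2 (h h2)
      simpa [bv] using this

lemma dl_eq (f : ℕ → ℝ) : ∏ i : ↥s, f (i : ℕ) = ∏ p ∈ s, f p := prod_coe_sort s f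

lemma cop_of (hs : IsPr s) : ∀ i j : ↥s, i ≠ j → Nat.Coprime (i : ℕ) (j : ℕ) := by
  intro i j hij
  rw [Nat.coprime_primes (hs i i.2).1 (hs j j.2).1]
  exact fun h => hij (Subtype.ext h)

lemma first_hyp (hs : IsPr s) : haveI := neZero_of hs
    ∀ n : ℕ, Ex (fun ω : RR s => (∑ t ∈ range n, (-1) ^ t * SS (av s) (bv s) univ (ω + (t : RR s))) ^ 4) ≤
      (∏ p ∈ s, (1 + 1344 / (p : ℝ))) * (n : ℝ) ^ 2 := by
  haveI := neZero_of hs
  intro n
  have h := four_signed (p := fun i : ↥s => (i : ℕ)) (a := av s) (b := bv s)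
    (fun i => av_ne_bv (hs i i.2).1 (hs i i.2).2)
    (fun i => (hs i i.2).1.odd_of_ne_two (by have := (hs i i.2).2; omega)) (cop_of hs) univ 1
    (fun i _ => isCoprime_one_left) 0 n
  unfold W KK at h
  rw [dl_eq (fun p => 1 + 1344 / (p : ℝ))] at h
  refine le_trans (le_of_eq ?_) h
  apply Ex_congr
  intro ω
  congr 1
  apply sum_congr rfl
  intro t _
  congr 3
  push_cast
  ring

lemma second_hyp (hs : IsPr s) : haveI := neZero_of hs
    ∀ n : ℕ, Ex (fun ω : RR s => (∑ t ∈ range n, (SS (av s) (bv s) univ (ω + (t : RR s)) -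
      ∏ p ∈ s, (1 - 2 / (p : ℝ)))) ^ 4) ≤
      (∏ p ∈ s, (1 + 1344 / (p : ℝ))) * (n : ℝ) ^ 2 := by
  haveI := neZero_of hs
  intro n
  have h := four_centred (p := fun i : ↥s => (i : ℕ)) (a := av s) (b := bv s)
    (fun i => av_ne_bv (hs i i.2).1 (hs i i.2).2)
    (fun i => (hs i i.2).1.two_le) (cop_of hs) univ 1
    (fun i _ => isCoprime_one_left) 0 n
  unfold V KK dl at h
  rw [dl_eq (fun p => 1 + 1344 / (p : ℝ)), dl_eq (fun p => 1 - 2 / (p : ℝ))] at h
  refine le_trans (le_of_eq ?_) h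
  apply Ex_congr
  intro ω
  congr 1
  apply sum_congr rfl
  intro t _
  congr 3
  push_cast
  ring

lemma third_hyp (hs : IsPr s) (H : ℕ) (hH : ∀ p ∈ s, 4 * (H + 1) ≤ p) : haveI := neZero_of hs
    HT (SS (av s) (bv s) univ) (∏ p ∈ s, (1 - 2 / (p : ℝ))) (∑ p ∈ s, 4 / (p : ℝ) ^ 2) H := by
  haveI := neZero_of hs
  have h := HT_SS (p := fun i : ↥s => (i : ℕ)) (av s) (bv s) H (fun i => hH i i.2)
    (fun i j hj k hk => av_sub (hs i i.2).1 (hs i i.2).2 H (by have := hH i i.2; omega) j k hj hk)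
  unfold dl at h
  rw [dl_eq (fun p => 1 - 2 / (p : ℝ))] at h
  have e : ∑ i : ↥s, 4 / ((i : ℕ) : ℝ) ^ 2 = ∑ p ∈ s, 4 / (p : ℝ) ^ 2 := sum_coe_sort s (fun p => 4 / (p : ℝ) ^ 2)
  rw [e] at h
  exact h

/-- averages over a period -/
lemma Ex_period {s0 s1 : Finset ℕ} (h0 : IsPr s0) (h1 : IsPr s1) (hd : Disjoint s0 s1) :
    haveI := neZero_of h0
    haveI := neZero_of h1
    ∀ F : RR s0 × RR s1 → ℝ, Ex F = (∑ m ∈ range (∏ p ∈ s0 ∪ s1, p), F ((m : ℕ) : RR s0 × RR s1)) /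
      ((∏ p ∈ s0 ∪ s1, p : ℕ) : ℝ) := by
  haveI := neZero_of h0
  haveI := neZero_of h1
  intro F
  set M : ℕ := ∏ p ∈ s0 ∪ s1, p with hM
  have hcard : Fintype.card (RR s0 × RR s1) = M := by
    rw [Fintype.card_prod, Fintype.card_pi, Fintype.card_pi, hM, prod_union hd]
    congr 1
    · rw [← prod_coe_sort s0 (fun p => p)]
      apply prod_congr rfl
      intro i _
      exact ZMod.card _
    · rw [← prod_coe_sort s1 (fun p => p)]
      apply prod_congr rfl
      intro i _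
      exact ZMod.card _
  have hinj : Function.Injective (fun m : Fin M => ((m : ℕ) : RR s0 × RR s1)) := by
    have key : ∀ m m' : ℕ, m ≤ m' → m' < M → ((m : ℕ) : RR s0 × RR s1) = ((m' : ℕ) : RR s0 × RR s1) → m = m' := by
      intro m m' hmm hm' h
      have hdv : ∀ p ∈ s0 ∪ s1, p ∣ m' - m := by
        intro p hp
        rw [← Nat.modEq_iff_dvd' hmm, ← ZMod.natCast_eq_natCast_iff]
        rcases mem_union.1 hp with hp | hp
        · have h2 := congrArg (fun x : RR s0 × RR s1 => x.1 ⟨p, hp⟩) h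
          simpa using h2
        · have h2 := congrArg (fun x : RR s0 × RR s1 => x.2 ⟨p, hp⟩) h
          simpa using h2
      have hpr : ∀ p ∈ s0 ∪ s1, Prime p := by
        intro p hp
        rcases mem_union.1 hp with hp | hp
        · exact (h0 p hp).1.prime
        · exact (h1 p hp).1.prime
      have h3 := prod_primes_dvd _ hpr hdv
      have h4 := Nat.eq_zero_of_dvd_of_lt h3 (by omega)
      omega
    intro m m' h
    rcases le_total (m : ℕ) (m' : ℕ) with hle | hle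
    · exact Fin.ext (key m m' hle m'.2 h)
    · exact Fin.ext (key m' m hle m.2 h.symm).symm
  have hbij : Function.Bijective (fun m : Fin M => ((m : ℕ) : RR s0 × RR s1)) := by
    rw [Fintype.bijective_iff_injective_and_card]
    exact ⟨hinj, by rw [Fintype.card_fin, hcard]⟩
  unfold Ex
  rw [hcard]
  congr 1
  rw [← hbij.sum_comp F, ← Fin.sum_univ_eq_sum_range (fun m => F ((m : ℕ) : RR s0 × RR s1)) M]

end set

end Pool.Agent.K9h56.TB
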