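import Pool.Agent.K9h56.TB.Asm

set_option autoImplicit false
set_option linter.unusedSectionVars false
set_option linter.style.haveILetI false

/-! Counting. -/

namespace Pool.Agent.K9h56.TB

open Finset Filter Topology

/-- Neither `n` nor `n + 2` has a prime factor `≤ z`. -/
def RoughPair (z n : ℕ) : Prop := ∀ p : ℕ, p.Prime → p ≤ z → ¬ p ∣ n ∧ ¬ p ∣ n + 2

/-- `m` is the next element of `S_z` after `n`. -/
def IsNext (z n m : ℕ) : Prop := n < m ∧ RoughPair z m ∧ ∀ k, n < k → k < m → ¬ RoughPair z k

open Classical in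
/-- The number of the elements `n < x` of `S_z` with `n ≡ a (mod 4)`. -/
noncomputable def total (z a x : ℕ) : ℕ := ((range x).filter fun n => RoughPair z n ∧ n % 4 = a).card

open Classical in
/-- The number of those which are followed in `S_z` by an element `≡ b (mod 4)`. -/
noncomputable def count (z a b x : ℕ) : ℕ :=
  ((range x).filter fun n => RoughPair z n ∧ n % 4 = a ∧ ∃ m, IsNext z n m ∧ m % 4 = b).card

lemma rough_iff {z : ℕ} (hz : 3 ≤ z) (n : ℕ) : RoughPair z n ↔ ∃ m, n = 6 * m + 5 ∧ Good (pr5 z) m := by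
  constructor
  · intro h
    obtain ⟨h2, _⟩ := h 2 Nat.prime_two (by omega)
    obtain ⟨h3, h4⟩ := h 3 Nat.prime_three hz
    have h5 : n % 2 = 1 := by omega
    have h6 : n % 3 = 2 := by omega
    have h7 : n % 6 = 5 := by omega
    refine ⟨n / 6, by omega, ?_⟩
    intro p hp
    rw [mem_pr5] at hp
    have h6 := h p hp.2.2 hp.2.1
    have e1 : 6 * (n / 6) + 5 = n := by omega
    have e2 : 6 * (n / 6) + 7 = n + 2 := by omega
    rw [e1, e2]
    exact h6
  · rintro ⟨m, rfl, hg⟩ p hp hpz
    rcases le_or_gt 5 p with h | h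
    · exact hg p (by rw [mem_pr5]; exact ⟨h, hpz, hp⟩)
    · have := hp.two_le
      interval_cases p
      · omega
      · omega
      · exact absurd hp (by norm_num)

lemma rough_iff' {z : ℕ} (hz : 3 ≤ z) (m : ℕ) : RoughPair z (6 * m + 5) ↔ Good (pr5 z) m := by
  rw [rough_iff hz]
  constructor
  · rintro ⟨m', h, hg⟩
    have : m = m' := by omega
    rw [this]; exact hg
  · intro h
    exact ⟨m, rfl, h⟩

lemma next_iff {z : ℕ} (hz : 3 ≤ z) (m n : ℕ) :
    IsNext z (6 * m + 5) n ↔ n = 6 * (m + gap (isPr_pr5 z) m) + 5 := by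
  have hs := isPr_pr5 z
  have h0 := gap_pos hs m
  have h1 := gap_good hs m
  have h2 := gap_min hs m
  constructor
  · rintro ⟨h3, h4, h5⟩
    obtain ⟨m', rfl, hg⟩ := (rough_iff hz n).1 h4
    rcases lt_trichotomy m' (m + gap hs m) with h | h | h
    · exfalso
      have h6 : m' = m + (m' - m) := by omega
      rw [h6] at hg
      exact h2 (m' - m) (by omega) (by omega) hg
    · rw [h]
    · exfalso
      exact h5 (6 * (m + gap hs m) + 5) (by omega) (by omega) ((rough_iff' hz _).2 h1)
  · rintro rfl
    refine ⟨by omega, (rough_iff' hz _).2 h1, ?_⟩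
    intro k hk1 hk2 hk
    obtain ⟨m', rfl, hg⟩ := (rough_iff hz k).1 hk
    have h6 : m' = m + (m' - m) := by omega
    rw [h6] at hg
    exact h2 (m' - m) (by omega) (by omega) hg

/-- the sign of a class -/
def sg (a : ℕ) : ℝ := if a = 1 then 1 else -1

lemma ind_class (m a : ℕ) (ha : a = 1 ∨ a = 3) :
    (if (6 * m + 5) % 4 = a then (1 : ℝ) else 0) = (1 + sg a * (-1) ^ m) / 2 := by
  rcases Nat.even_or_odd m with h | h
  · obtain ⟨k, rfl⟩ := h
    rw [Even.neg_one_pow ⟨k, rfl⟩]
    rcases ha with rfl | rfl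
    · rw [if_pos (by omega)]; unfold sg; norm_num
    · rw [if_neg (by omega)]; unfold sg; norm_num
  · obtain ⟨k, rfl⟩ := h
    rw [Odd.neg_one_pow ⟨k, rfl⟩]
    rcases ha with rfl | rfl
    · rw [if_neg (by omega)]; unfold sg; norm_num
    · rw [if_pos (by omega)]; unfold sg; norm_num

/-- periodic predicates -/
lemma density (A : ℕ → Prop) (P : ℕ) (hP : 0 < P) (hA : ∀ n, A (n + P) ↔ A n) : by
    classical
    exact Tendsto (fun x : ℕ => (((range x).filter A).card : ℝ) / x) atTop
      (𝓝 ((((range P).filter A).card : ℝ) / P)) := by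
  classical
  set c := ((range P).filter A).card with hc
  have h1 : ∀ k : ℕ, ((range (P * k)).filter A).card = k * c := by
    intro k
    induction k with
    | zero => simp
    | succ k ih =>
      have h2 : (range (P * (k + 1))).filter A = (range (P * k)).filter A ∪ ((Ico (P * k) (P * (k + 1))).filter A) := by
        rw [← filter_union]
        congr 1
        ext n
        rw [mem_union, mem_range, mem_range, mem_Ico]
        have : P * (k + 1) = P * k + P := by ring
        omega
      have h3 : ((Ico (P * k) (P * (k + 1))).filter A).card = c := by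
        rw [hc]
        symm
        apply card_bij (fun n _ => n + P * k)
        · intro n hn
          rw [mem_filter, mem_range] at hn
          rw [mem_filter, mem_Ico]
          have h4 : ∀ k : ℕ, A (n + P * k) ↔ A n := by
            intro k
            induction k with
            | zero => simp
            | succ k ih2 => rw [show n + P * (k + 1) = n + P * k + P by ring, hA, ih2]
          refine ⟨⟨by omega, ?_⟩, (h4 k).2 hn.2⟩
          have : P * (k + 1) = P * k + P := by ring
          omega
        · intro n _ m _ h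
          omega
        · intro n hn
          rw [mem_filter, mem_Ico] at hn
          refine ⟨n - P * k, ?_, by omega⟩
          rw [mem_filter, mem_range]
          have : P * (k + 1) = P * k + P := by ring
          refine ⟨by omega, ?_⟩
          have h4 : ∀ (k m : ℕ), A (m + P * k) ↔ A m := by
            intro k m
            induction k with
            | zero => simp
            | succ k ih2 => rw [show m + P * (k + 1) = m + P * k + P by ring, hA, ih2]
          rw [← h4 k, Nat.sub_add_cancel hn.1.1]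
          exact hn.2
      rw [h2, card_union_of_disjoint, ih, h3]
      · ring
      · rw [disjoint_left]
        intro n hn hn'
        rw [mem_filter, mem_range] at hn
        rw [mem_filter, mem_Ico] at hn'
        omega
  have hmono : ∀ x y : ℕ, x ≤ y → ((range x).filter A).card ≤ ((range y).filter A).card := by
    intro x y h
    apply card_le_card
    apply filter_subset_filter
    exact range_subset_range.2 h
  have hP' : (0 : ℝ) < P := by exact_mod_cast hP
  have hb : ∀ x : ℕ, |(((range x).filter A).card : ℝ) - x * ((c : ℝ) / P)| ≤ c := by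
    intro x
    have hx : P * (x / P) ≤ x := Nat.mul_div_le x P
    have hx2 : x ≤ P * (x / P + 1) := (Nat.lt_mul_div_succ x hP).le
    have l1 := hmono _ _ hx
    have l2 := hmono _ _ hx2
    rw [h1] at l1 l2
    have hx' : (P : ℝ) * ((x / P : ℕ) : ℝ) ≤ x := by exact_mod_cast hx
    have hx2' : (x : ℝ) ≤ P * (((x / P : ℕ) : ℝ) + 1) := by exact_mod_cast hx2
    have l1' : ((x / P : ℕ) : ℝ) * c ≤ (((range x).filter A).card : ℝ) := by exact_mod_cast l1
    have l2' : (((range x).filter A).card : ℝ) ≤ (((x / P : ℕ) : ℝ) + 1) * c := by exact_mod_cast l2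
    have hc0 : (0 : ℝ) ≤ c := Nat.cast_nonneg _
    have e1 : (x : ℝ) * (c / P) ≤ (((x / P : ℕ) : ℝ) + 1) * c := by
      rw [mul_div_assoc', div_le_iff₀ hP']
      nlinarith
    have e2 : ((x / P : ℕ) : ℝ) * c ≤ (x : ℝ) * (c / P) := by
      rw [mul_div_assoc', le_div_iff₀ hP']
      nlinarith
    rw [abs_le]
    constructor <;> linarith
  rw [tendsto_iff_norm_sub_tendsto_zero]
  have hlim : Tendsto (fun x : ℕ => (c : ℝ) / x) atTop (𝓝 0) := tendsto_const_div_atTop_nhds_zero_nat _
  refine squeeze_zero' (Eventually.of_forall fun _ => norm_nonneg _) ?_ hlim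
  filter_upwards [eventually_gt_atTop 0] with x hx
  have hx' : (0 : ℝ) < x := by exact_mod_cast hx
  rw [Real.norm_eq_abs]
  have : (((range x).filter A).card : ℝ) / x - (c : ℝ) / P =
      ((((range x).filter A).card : ℝ) - x * ((c : ℝ) / P)) / x := by field_simp
  rw [this, abs_div, abs_of_pos hx']
  exact div_le_div_of_nonneg_right (hb x) hx'.le

open Classical in
/-- the number of the good places in a period -/
noncomputable def NG (s : Finset ℕ) : ℝ := ∑ m ∈ range (∏ p ∈ s, p), if Good s m then (1 : ℝ) else 0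

lemma NG_eq (z : ℕ) (hz : 4 ≤ z) : NG (pr5 z) / ((∏ p ∈ pr5 z, p : ℕ) : ℝ) = dz z := by
  haveI := neZero_of (isPr_pr5 z)
  haveI := neZero_of (isPr_prl z z hz)
  classical
  have h := Ex_period (isPr_pr5 z) (isPr_prl z z hz) (pr5_disj z z)
    (ST (SS (av (pr5 z)) (bv (pr5 z)) univ) (SS (av (prl z z)) (bv (prl z z)) univ))
  rw [← pr5_union hz le_rfl] at h
  have e1 : ∑ m ∈ range (∏ p ∈ pr5 z, p), ST (SS (av (pr5 z)) (bv (pr5 z)) univ)
      (SS (av (prl z z)) (bv (prl z z)) univ) ((m : ℕ) : RR (pr5 z) × RR (prl z z)) = NG (pr5 z) := by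
    unfold NG
    apply sum_congr rfl
    intro m _
    by_cases hg : Good (pr5 z) m
    · rw [if_pos hg, (ST_nat hz le_rfl m).1 hg]
    · rw [if_neg hg, (ST_nat hz le_rfl m).2 hg]
  rw [e1] at h
  rw [← h]
  have e2 : Ex (ST (SS (av (pr5 z)) (bv (pr5 z)) univ) (SS (av (prl z z)) (bv (prl z z)) univ)) =
      (Ex (SS (av (pr5 z)) (bv (pr5 z)) univ : RR (pr5 z) → ℝ)) *
      Ex (SS (av (prl z z)) (bv (prl z z)) univ : RR (prl z z) → ℝ) := by
    rw [Ex_prod, ← Ex_mul_right]
    apply Ex_congr
    intro ω
    rw [← Ex_mul_left]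
    rfl
  rw [e2, Ex_SS (isPr_pr5 z), Ex_SS (isPr_prl z z hz), dz_prod hz le_rfl]
  rfl

/-- sums over a double period -/
lemma double_sum {M : ℕ} (hM : Odd M) (F : ℕ → ℝ) (hF : ∀ m, F (m + M) = F m) :
    (∑ m ∈ range (2 * M), F m = 2 * ∑ m ∈ range M, F m) ∧
    (∑ m ∈ range (2 * M), (-1) ^ m * F m = 0) := by
  rw [two_mul, sum_range_add, sum_range_add]
  constructor
  · have : ∑ x ∈ range M, F (M + x) = ∑ x ∈ range M, F x := by
      apply sum_congr rfl
      intro x _
      rw [add_comm, hF]
    rw [this]; ring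
  · have : ∑ x ∈ range M, (-1) ^ (M + x) * F (M + x) = - ∑ x ∈ range M, (-1) ^ x * F x := by
      rw [← sum_neg_distrib]
      apply sum_congr rfl
      intro x _
      rw [add_comm M x, hF, pow_add, hM.neg_one_pow]
      ring
    rw [this]; ring

end Pool.Agent.K9h56.TB
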