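import Pool.Agent.K9h56.TB.Cnt

set_option autoImplicit false
set_option linter.unusedSectionVars false
set_option linter.style.haveILetI false

/-! The limits of the proportions. -/

namespace Pool.Agent.K9h56.TB

open Finset Filter Topology

/-- the pairs of classes in the coordinates `m` -/
def BB (z a b m : ℕ) : Prop := Good (pr5 z) m ∧ (6 * m + 5) % 4 = a ∧ (6 * (m + gap (isPr_pr5 z) m) + 5) % 4 = b

def TT (z a m : ℕ) : Prop := Good (pr5 z) m ∧ (6 * m + 5) % 4 = a

lemma count_iff {z : ℕ} (hz : 3 ≤ z) (a b n : ℕ) :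
    (RoughPair z n ∧ n % 4 = a ∧ ∃ m, IsNext z n m ∧ m % 4 = b) ↔ ∃ m, n = 6 * m + 5 ∧ BB z a b m := by
  constructor
  · rintro ⟨h1, h2, m', h3, h4⟩
    obtain ⟨m, rfl, hg⟩ := (rough_iff hz n).1 h1
    rw [next_iff hz] at h3
    exact ⟨m, rfl, hg, h2, by rw [← h3]; exact h4⟩
  · rintro ⟨m, rfl, hg, h2, h3⟩
    exact ⟨(rough_iff' hz m).2 hg, h2, _, (next_iff hz m _).2 rfl, h3⟩

lemma total_iff {z : ℕ} (hz : 3 ≤ z) (a n : ℕ) :
    (RoughPair z n ∧ n % 4 = a) ↔ ∃ m, n = 6 * m + 5 ∧ TT z a m := by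
  constructor
  · rintro ⟨h1, h2⟩
    obtain ⟨m, rfl, hg⟩ := (rough_iff hz n).1 h1
    exact ⟨m, rfl, hg, h2⟩
  · rintro ⟨m, rfl, hg, h2⟩
    exact ⟨(rough_iff' hz m).2 hg, h2⟩

lemma lift_period (B : ℕ → Prop) (M : ℕ) (hB : ∀ m, B (m + 2 * M) ↔ B m) (n : ℕ) :
    (∃ m, n + 12 * M = 6 * m + 5 ∧ B m) ↔ ∃ m, n = 6 * m + 5 ∧ B m := by
  constructor
  · rintro ⟨m, h, hb⟩
    have h1 : 2 * M ≤ m := by omega
    refine ⟨m - 2 * M, by omega, ?_⟩
    rw [← hB, Nat.sub_add_cancel h1]
    exact hb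
  · rintro ⟨m, h, hb⟩
    exact ⟨m + 2 * M, by omega, (hB m).2 hb⟩

open Classical in
lemma lift_card (B : ℕ → Prop) (M : ℕ) :
    ((range (12 * M)).filter fun n => ∃ m, n = 6 * m + 5 ∧ B m).card = ((range (2 * M)).filter B).card := by
  symm
  apply card_bij (fun m _ => 6 * m + 5)
  · intro m hm
    rw [mem_filter, mem_range] at hm ⊢
    exact ⟨by omega, m, rfl, hm.2⟩
  · intro m _ m' _ h
    omega
  · intro n hn
    rw [mem_filter, mem_range] at hn
    obtain ⟨h1, m, h2, h3⟩ := hn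
    refine ⟨m, ?_, h2.symm⟩
    rw [mem_filter, mem_range]
    exact ⟨by omega, h3⟩

lemma good_add' (z m : ℕ) : Good (pr5 z) (m + 2 * ∏ p ∈ pr5 z, p) ↔ Good (pr5 z) m := by
  rw [mul_comm]; exact good_add m 2

lemma gap_add' (z m : ℕ) : gap (isPr_pr5 z) (m + 2 * ∏ p ∈ pr5 z, p) = gap (isPr_pr5 z) m := by
  rw [mul_comm]; exact gap_add (isPr_pr5 z) m 2

lemma TT_per (z a m : ℕ) : TT z a (m + 2 * ∏ p ∈ pr5 z, p) ↔ TT z a m := by
  unfold TT
  rw [good_add']
  have : (6 * (m + 2 * ∏ p ∈ pr5 z, p) + 5) % 4 = (6 * m + 5) % 4 := by omega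
  rw [this]

lemma BB_per (z a b m : ℕ) : BB z a b (m + 2 * ∏ p ∈ pr5 z, p) ↔ BB z a b m := by
  unfold BB
  rw [good_add', gap_add']
  have h1 : (6 * (m + 2 * ∏ p ∈ pr5 z, p) + 5) % 4 = (6 * m + 5) % 4 := by omega
  have h2 : (6 * (m + 2 * ∏ p ∈ pr5 z, p + gap (isPr_pr5 z) m) + 5) % 4 =
    (6 * (m + gap (isPr_pr5 z) m) + 5) % 4 := by omega
  rw [h1, h2]

lemma odd_prod (z : ℕ) : Odd (∏ p ∈ pr5 z, p) := by
  apply prod_induction _ Odd
  · intro a b ha hb; exact ha.mul hb
  · exact odd_one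
  · intro p hp
    rw [mem_pr5] at hp
    exact hp.2.2.odd_of_ne_two (by omega)

open Classical in
lemma card_TT (z a : ℕ) (ha : a = 1 ∨ a = 3) :
    (((range (2 * ∏ p ∈ pr5 z, p)).filter (TT z a)).card : ℝ) = NG (pr5 z) := by
  rw [card_filter, Nat.cast_sum]
  set F : ℕ → ℝ := fun m => if Good (pr5 z) m then 1 else 0 with hF
  have hper : ∀ m, F (m + ∏ p ∈ pr5 z, p) = F m := by
    intro m
    simp only [hF]
    have := good_add (s := pr5 z) m 1
    rw [mul_one] at this
    simp only [this]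
  have h1 : ∀ m, (((if TT z a m then 1 else 0 : ℕ)) : ℝ) = (1 / 2) * F m + (sg a / 2) * ((-1) ^ m * F m) := by
    intro m
    have h2 := ind_class m a ha
    simp only [hF]
    by_cases hg : Good (pr5 z) m
    · rw [if_pos hg]
      have : (((if TT z a m then 1 else 0 : ℕ)) : ℝ) =
          if (6 * m + 5) % 4 = a then (1 : ℝ) else 0 := by
        by_cases h : (6 * m + 5) % 4 = a
        · rw [if_pos (show TT z a m from ⟨hg, h⟩), if_pos h]; norm_num
        · rw [if_neg (fun h' : TT z a m => h h'.2), if_neg h]; norm_num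
      rw [this, h2]; ring
    · rw [if_neg hg, if_neg (fun h' : TT z a m => hg h'.1)]; norm_num
  simp_rw [h1]
  rw [sum_add_distrib, ← mul_sum, ← mul_sum]
  have h3 := double_sum (odd_prod z) F hper
  rw [h3.1, h3.2]
  unfold NG
  simp only [hF]
  ring

open Classical in
lemma card_BB (z a b : ℕ) (ha : a = 1 ∨ a = 3) (hb : b = 1 ∨ b = 3) :
    (((range (2 * ∏ p ∈ pr5 z, p)).filter (BB z a b)).card : ℝ) =
      (NG (pr5 z) + sg a * sg b * sgn (isPr_pr5 z)) / 2 := by
  rw [card_filter, Nat.cast_sum]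
  set F : ℕ → ℝ := fun m => if Good (pr5 z) m then 1 else 0 with hF
  set G : ℕ → ℝ := fun m => if Good (pr5 z) m then (-1) ^ gap (isPr_pr5 z) m else 0 with hG
  have hperF : ∀ m, F (m + ∏ p ∈ pr5 z, p) = F m := by
    intro m
    simp only [hF]
    have := good_add (s := pr5 z) m 1
    rw [mul_one] at this
    simp only [this]
  have hperG : ∀ m, G (m + ∏ p ∈ pr5 z, p) = G m := by
    intro m
    simp only [hG]
    have := good_add (s := pr5 z) m 1
    have h2 := gap_add (isPr_pr5 z) m 1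
    rw [mul_one] at this h2
    simp only [this, h2]
  have h1 : ∀ m, (((if BB z a b m then 1 else 0 : ℕ)) : ℝ) = (1 / 4) * F m + (sg a * sg b / 4) * G m +
      (sg a / 4) * ((-1) ^ m * F m) + (sg b / 4) * ((-1) ^ m * G m) := by
    intro m
    have h2 := ind_class m a ha
    have h3 := ind_class (m + gap (isPr_pr5 z) m) b hb
    simp only [hF, hG]
    by_cases hg : Good (pr5 z) m
    · rw [if_pos hg, if_pos hg]
      have : (((if BB z a b m then 1 else 0 : ℕ)) : ℝ) =
          (if (6 * m + 5) % 4 = a then (1 : ℝ) else 0) *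
          (if (6 * (m + gap (isPr_pr5 z) m) + 5) % 4 = b then (1 : ℝ) else 0) := by
        by_cases h : (6 * m + 5) % 4 = a
        · by_cases h' : (6 * (m + gap (isPr_pr5 z) m) + 5) % 4 = b
          · rw [if_pos (show BB z a b m from ⟨hg, h, h'⟩), if_pos h, if_pos h']; norm_num
          · rw [if_neg (fun h'' : BB z a b m => h' h''.2.2), if_neg h']; norm_num
        · rw [if_neg (fun h'' : BB z a b m => h h''.2.1), if_neg h]; norm_num
      rw [this, h2, h3, pow_add]
      have hsq : ((-1 : ℝ) ^ m) * (-1) ^ m = 1 := by rw [← mul_pow]; norm_num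
      linear_combination (sg a * sg b * (-1) ^ gap (isPr_pr5 z) m / 4) * hsq
    · rw [if_neg hg, if_neg hg, if_neg (fun h' : BB z a b m => hg h'.1)]; norm_num
  simp_rw [h1]
  rw [sum_add_distrib, sum_add_distrib, sum_add_distrib, ← mul_sum, ← mul_sum, ← mul_sum, ← mul_sum]
  have h3 := double_sum (odd_prod z) F hperF
  have h4 := double_sum (odd_prod z) G hperG
  rw [h3.1, h3.2, h4.1, h4.2]
  unfold NG sgn
  simp only [hF, hG]
  ring

theorem limits (z : ℕ) (hz : 5 ≤ z) (a b : ℕ) (ha : a = 1 ∨ a = 3) (hb : b = 1 ∨ b = 3) :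
    Tendsto (fun x : ℕ => (count z a b x : ℝ) / total z a x) atTop
      (𝓝 ((1 + if a = b then Dz z else - Dz z) / 2)) := by
  classical
  set M := ∏ p ∈ pr5 z, p with hM
  have hM0 : 0 < M := prod_pos fun p hp => (isPr_pr5 z p hp).1.pos
  have hM0' : (0 : ℝ) < M := by exact_mod_cast hM0
  -- the densities
  have d1 : Tendsto (fun x : ℕ => (count z a b x : ℝ) / x) atTop
      (𝓝 (((NG (pr5 z) + sg a * sg b * sgn (isPr_pr5 z)) / 2) / ((12 * M : ℕ) : ℝ))) := by
    have h := density (fun n => ∃ m, n = 6 * m + 5 ∧ BB z a b m) (12 * M) (by omega)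
      (lift_period (BB z a b) M (BB_per z a b))
    have e1 : ((range (12 * M)).filter fun n => ∃ m, n = 6 * m + 5 ∧ BB z a b m).card =
        ((range (2 * M)).filter (BB z a b)).card := lift_card _ M
    have e2 : ∀ x, ((range x).filter fun n => ∃ m, n = 6 * m + 5 ∧ BB z a b m).card = count z a b x := by
      intro x
      unfold count
      congr 1
      apply filter_congr
      intro n _
      exact (count_iff (by omega) a b n).symm
    simp only [e2] at h
    rw [← e2, e1, card_BB z a b ha hb] at h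
    exact h
  have d2 : Tendsto (fun x : ℕ => (total z a x : ℝ) / x) atTop (𝓝 (NG (pr5 z) / ((12 * M : ℕ) : ℝ))) := by
    have h := density (fun n => ∃ m, n = 6 * m + 5 ∧ TT z a m) (12 * M) (by omega)
      (lift_period (TT z a) M (TT_per z a))
    have e1 : ((range (12 * M)).filter fun n => ∃ m, n = 6 * m + 5 ∧ TT z a m).card =
        ((range (2 * M)).filter (TT z a)).card := lift_card _ M
    have e2 : ∀ x, ((range x).filter fun n => ∃ m, n = 6 * m + 5 ∧ TT z a m).card = total z a x := by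
      intro x
      unfold total
      congr 1
      apply filter_congr
      intro n _
      exact (total_iff (by omega) a n).symm
    simp only [e2] at h
    rw [← e2, e1, card_TT z a ha] at h
    exact h
  have hdz : 0 < dz z := by
    unfold dz
    apply prod_pos
    intro p hp
    rw [mem_pr5] at hp
    have h9 : (5 : ℝ) ≤ p := by exact_mod_cast hp.1
    rw [sub_pos, div_lt_one (by linarith)]; linarith
  have hN := NG_eq z (by omega)
  rw [← hM] at hN
  have hNG : 0 < NG (pr5 z) := by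
    have : NG (pr5 z) = dz z * M := by rw [← hN]; field_simp
    rw [this]; positivity
  have hne : NG (pr5 z) / ((12 * M : ℕ) : ℝ) ≠ 0 := by
    have : (0 : ℝ) < ((12 * M : ℕ) : ℝ) := by exact_mod_cast (by omega : 0 < 12 * M)
    positivity
  have h := d1.div d2 hne
  have e : ((NG (pr5 z) + sg a * sg b * sgn (isPr_pr5 z)) / 2) / ((12 * M : ℕ) : ℝ) /
      (NG (pr5 z) / ((12 * M : ℕ) : ℝ)) = (1 + if a = b then Dz z else - Dz z) / 2 := by
    have hD : Dz z = sgn (isPr_pr5 z) / NG (pr5 z) := by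
      unfold Dz
      rw [← hM, ← hN]
      field_simp
    have hsg : (if a = b then Dz z else - Dz z) = sg a * sg b * Dz z := by
      rcases ha with rfl | rfl <;> rcases hb with rfl | rfl <;> simp [sg]
    rw [hsg, hD]
    push_cast
    field_simp
  rw [e] at h
  refine h.congr' ?_
  filter_upwards [eventually_gt_atTop 0] with x hx
  have hx' : (x : ℝ) ≠ 0 := by exact_mod_cast (by omega : x ≠ 0)
  simp only [Pi.div_apply]
  rw [div_div_div_cancel_right₀ hx']

end Pool.Agent.K9h56.TB
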