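import Mathlib

set_option autoImplicit false

/-! Averages over finite types. -/

namespace Pool.Agent.K9h56.TB

open Finset

variable {Ω Ω' : Type*} [Fintype Ω] [Fintype Ω']

/-- the average over a finite type -/
noncomputable def Ex (f : Ω → ℝ) : ℝ := (∑ ω, f ω) / Fintype.card Ω

lemma Ex_add (f g : Ω → ℝ) : Ex (fun ω => f ω + g ω) = Ex f + Ex g := by
  unfold Ex; rw [sum_add_distrib, add_div]

lemma Ex_sub (f g : Ω → ℝ) : Ex (fun ω => f ω - g ω) = Ex f - Ex g := by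
  unfold Ex; rw [sum_sub_distrib, sub_div]

lemma Ex_neg (f : Ω → ℝ) : Ex (fun ω => - f ω) = - Ex f := by
  unfold Ex; rw [sum_neg_distrib, neg_div]

lemma Ex_mul_left (c : ℝ) (f : Ω → ℝ) : Ex (fun ω => c * f ω) = c * Ex f := by
  unfold Ex; rw [← mul_sum, mul_div_assoc]

lemma Ex_mul_right (c : ℝ) (f : Ω → ℝ) : Ex (fun ω => f ω * c) = Ex f * c := by
  unfold Ex; rw [← sum_mul]; ring

lemma Ex_const [Nonempty Ω] (c : ℝ) : Ex (fun _ : Ω => c) = c := by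
  unfold Ex
  rw [sum_const, card_univ, nsmul_eq_mul]
  have : (Fintype.card Ω : ℝ) ≠ 0 := by exact_mod_cast Fintype.card_ne_zero
  field_simp

lemma Ex_zero : Ex (fun _ : Ω => (0 : ℝ)) = 0 := by
  unfold Ex; simp

lemma Ex_sum {α : Type*} (s : Finset α) (f : α → Ω → ℝ) :
    Ex (fun ω => ∑ a ∈ s, f a ω) = ∑ a ∈ s, Ex (f a) := by
  unfold Ex; rw [sum_comm, sum_div]

lemma Ex_mono {f g : Ω → ℝ} (h : ∀ ω, f ω ≤ g ω) : Ex f ≤ Ex g := by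
  unfold Ex
  exact div_le_div_of_nonneg_right (sum_le_sum fun ω _ => h ω) (Nat.cast_nonneg _)

lemma Ex_nonneg {f : Ω → ℝ} (h : ∀ ω, 0 ≤ f ω) : 0 ≤ Ex f := by
  unfold Ex
  exact div_nonneg (sum_nonneg fun ω _ => h ω) (Nat.cast_nonneg _)

lemma abs_Ex_le (f : Ω → ℝ) : |Ex f| ≤ Ex (fun ω => |f ω|) := by
  unfold Ex
  rw [abs_div, Nat.abs_cast]
  exact div_le_div_of_nonneg_right (abs_sum_le_sum_abs _ _) (Nat.cast_nonneg _)

lemma Ex_congr {f g : Ω → ℝ} (h : ∀ ω, f ω = g ω) : Ex f = Ex g := by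
  rw [funext h]

lemma Ex_equiv (e : Ω ≃ Ω') (f : Ω' → ℝ) : Ex (fun ω => f (e ω)) = Ex f := by
  unfold Ex
  rw [Fintype.card_congr e, e.sum_comp]

lemma Ex_prod (f : Ω × Ω' → ℝ) : Ex f = Ex (fun ω => Ex (fun ω' => f (ω, ω'))) := by
  unfold Ex
  rw [Fintype.sum_prod_type, Fintype.card_prod, ← sum_div]
  push_cast
  rw [div_div, mul_comm (Fintype.card Ω' : ℝ)]

/-- Cauchy-Schwarz -/
lemma Ex_cs (f g : Ω → ℝ) : (Ex fun ω => f ω * g ω) ^ 2 ≤ Ex (fun ω => f ω ^ 2) * Ex fun ω => g ω ^ 2 := by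
  unfold Ex
  rw [div_pow, div_mul_div_comm, ← pow_two (Fintype.card Ω : ℝ)]
  exact div_le_div_of_nonneg_right (sum_mul_sq_le_sq_mul_sq _ _ _) (by positivity)

lemma Ex_sq_le [Nonempty Ω] (f : Ω → ℝ) : (Ex f) ^ 2 ≤ Ex fun ω => f ω ^ 2 := by
  have h := Ex_cs f (fun _ => 1)
  simp only [mul_one, one_pow, Ex_const] at h
  exact h

lemma Ex_sq_sq_le [Nonempty Ω] (f : Ω → ℝ) : (Ex fun ω => f ω ^ 2) ^ 2 ≤ Ex fun ω => f ω ^ 4 := by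
  have h := Ex_sq_le (fun ω => f ω ^ 2)
  refine h.trans (le_of_eq (Ex_congr fun ω => by ring))

lemma Ex_four_le [Nonempty Ω] (f : Ω → ℝ) : (Ex f) ^ 4 ≤ Ex fun ω => f ω ^ 4 := by
  have h := Ex_sq_le f
  have h2 := Ex_sq_sq_le f
  calc (Ex f) ^ 4 = ((Ex f) ^ 2) ^ 2 := by ring
    _ ≤ (Ex fun ω => f ω ^ 2) ^ 2 := pow_le_pow_left₀ (sq_nonneg _) h 2
    _ ≤ _ := h2

lemma Ex_sq_mul_sq (f g : Ω → ℝ) :
    (Ex fun ω => f ω ^ 2 * g ω ^ 2) ^ 2 ≤ Ex (fun ω => f ω ^ 4) * Ex fun ω => g ω ^ 4 := by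
  have h := Ex_cs (fun ω => f ω ^ 2) (fun ω => g ω ^ 2)
  refine h.trans (le_of_eq ?_)
  congr 1
  · exact Ex_congr fun ω => by ring
  · exact Ex_congr fun ω => by ring

/-- Hölder's inequality with the exponents `4, 4, 2` -/
lemma Ex_holder (f g h : Ω → ℝ) : (Ex fun ω => |f ω * g ω * h ω|) ^ 4 ≤
    Ex (fun ω => f ω ^ 4) * Ex (fun ω => g ω ^ 4) * (Ex fun ω => h ω ^ 2) ^ 2 := by
  have h1 := Ex_cs (fun ω => |f ω * g ω|) (fun ω => |h ω|)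
  have e1 : (Ex fun ω => |f ω * g ω * h ω|) = Ex fun ω => |f ω * g ω| * |h ω| :=
    Ex_congr fun ω => by rw [abs_mul]
  have e2 : (Ex fun ω => |f ω * g ω| ^ 2) = Ex fun ω => f ω ^ 2 * g ω ^ 2 :=
    Ex_congr fun ω => by rw [sq_abs]; ring
  have e3 : (Ex fun ω => |h ω| ^ 2) = Ex fun ω => h ω ^ 2 :=
    Ex_congr fun ω => by rw [sq_abs]
  rw [e1]
  rw [e2, e3] at h1
  have h2 := Ex_sq_mul_sq f g
  calc (Ex fun ω => |f ω * g ω| * |h ω|) ^ 4 = ((Ex fun ω => |f ω * g ω| * |h ω|) ^ 2) ^ 2 := by ring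
    _ ≤ (Ex (fun ω => f ω ^ 2 * g ω ^ 2) * Ex fun ω => h ω ^ 2) ^ 2 := pow_le_pow_left₀ (sq_nonneg _) h1 2
    _ = (Ex (fun ω => f ω ^ 2 * g ω ^ 2)) ^ 2 * (Ex fun ω => h ω ^ 2) ^ 2 := by ring
    _ ≤ _ := mul_le_mul_of_nonneg_right h2 (sq_nonneg _)

section shift

variable {R : Type*} [Fintype R] [CommRing R]

lemma Ex_shift (c : R) (f : R → ℝ) : Ex (fun ω => f (ω + c)) = Ex f :=
  Ex_equiv (Equiv.addRight c) f

end shift

end Pool.Agent.K9h56.TB
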