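import Pool.Agent.K9h56.TB.Ex

set_option autoImplicit false

/-! Fourth moments of the window sums of a sifted set, by induction on the primes. -/

namespace Pool.Agent.K9h56.TB

open Finset

/-- indicator of the complement of `{a, b}` -/
noncomputable def gd {m : ℕ} (a b x : ZMod m) : ℝ := if x = a ∨ x = b then 0 else 1

lemma gd_nonneg {m : ℕ} (a b x : ZMod m) : 0 ≤ gd a b x := by
  unfold gd; split_ifs <;> norm_num

lemma gd_le_one {m : ℕ} (a b x : ZMod m) : gd a b x ≤ 1 := by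
  unfold gd; split_ifs <;> norm_num

lemma gd_sq {m : ℕ} (a b x : ZMod m) : gd a b x * gd a b x = gd a b x := by
  unfold gd; split_ifs <;> norm_num

lemma gd_eq {m : ℕ} {a b : ZMod m} (h : a ≠ b) (x : ZMod m) :
    gd a b x = 1 - (if x = a then 1 else 0) - (if x = b then 1 else 0) := by
  unfold gd
  by_cases h1 : x = a
  · have h2 : ¬ x = b := fun h3 => h (h1 ▸ h3)
    simp [h1, h]
  · by_cases h2 : x = b
    · subst h2; simp [Ne.symm h]
    · simp [h1, h2]

section numbers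

variable {m : ℕ} [NeZero m]

lemma four_step (C : ZMod m → ℝ) (e1 e2 : ZMod m ≃ ZMod m) (A : ℝ) (hA : A = ∑ τ, C τ) :
    ∑ x, (A - C (e1 x) - C (e2 x)) ^ 4 ≤ m * A ^ 4 + 32 * (A ^ 2 * ∑ τ, C τ ^ 2) + 48 * ∑ τ, C τ ^ 4 := by
  have h1 : ∀ x, (A - C (e1 x) - C (e2 x)) ^ 4 ≤ A ^ 4 - 4 * A ^ 3 * (C (e1 x) + C (e2 x)) +
      16 * A ^ 2 * (C (e1 x) ^ 2 + C (e2 x) ^ 2) + 24 * (C (e1 x) ^ 4 + C (e2 x) ^ 4) := by
    intro x
    set u := C (e1 x)
    set v := C (e2 x)
    have e1 : (A - u - v) ^ 4 = A ^ 4 - 4 * A ^ 3 * (u + v) + 6 * A ^ 2 * (u + v) ^ 2 -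
      4 * A * (u + v) ^ 3 + (u + v) ^ 4 := by ring
    have h2 : 0 ≤ 2 * ((u + v) * (A + (u + v))) ^ 2 := by positivity
    have h3 : (u + v) ^ 2 ≤ 2 * (u ^ 2 + v ^ 2) := by nlinarith [sq_nonneg (u - v)]
    have h4 : (u + v) ^ 4 ≤ 8 * (u ^ 4 + v ^ 4) := by
      have h5 : ((u + v) ^ 2) ^ 2 ≤ (2 * (u ^ 2 + v ^ 2)) ^ 2 := pow_le_pow_left₀ (sq_nonneg _) h3 2
      nlinarith [sq_nonneg (u ^ 2 - v ^ 2)]
    have h6 : A ^ 2 * (u + v) ^ 2 ≤ A ^ 2 * (2 * (u ^ 2 + v ^ 2)) :=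
      mul_le_mul_of_nonneg_left h3 (sq_nonneg _)
    nlinarith
  refine (sum_le_sum fun x _ => h1 x).trans ?_
  have s1 : ∀ (e : ZMod m ≃ ZMod m) (f : ZMod m → ℝ), ∑ x, f (e x) = ∑ τ, f τ := fun e f => e.sum_comp f
  simp only [sum_add_distrib, sum_sub_distrib, ← mul_sum]
  rw [s1 e1 C, s1 e2 C, s1 e1 (fun τ => C τ ^ 2), s1 e2 (fun τ => C τ ^ 2), s1 e1 (fun τ => C τ ^ 4),
    s1 e2 (fun τ => C τ ^ 4), ← hA, sum_const, card_univ, ZMod.card, nsmul_eq_mul]
  have : 0 ≤ A ^ 4 := by positivity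
  nlinarith

/-- the number of the `t < n` in the class `τ` modulo `m` -/
def nc (n : ℕ) (τ : ZMod m) : ℕ := ((range n).filter (fun t : ℕ => (t : ZMod m) = τ)).card

lemma sum_nc (n : ℕ) : ∑ τ : ZMod m, nc n τ = n := by
  unfold nc
  have h := card_eq_sum_card_fiberwise (f := fun t : ℕ => (t : ZMod m)) (s := range n) (t := univ)
    (fun t _ => mem_univ _)
  rw [card_range] at h
  exact h.symm

lemma class_eq (n : ℕ) (τ : ZMod m) : ∃ k : ℕ, ((range n).filter (fun t : ℕ => (t : ZMod m) = τ)) =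
    (range k).image (fun t => τ.val + m * t) ∧ k * m ≤ n + m - 1 - τ.val ∧ n + m - 1 - τ.val < (k + 1) * m := by
  have hm : 0 < m := NeZero.pos m
  have hv : τ.val < m := ZMod.val_lt τ
  refine ⟨(n + m - 1 - τ.val) / m, ?_, Nat.div_mul_le_self _ _, ?_⟩
  · ext t
    simp only [mem_filter, mem_range, mem_image]
    constructor
    · rintro ⟨h1, h2⟩
      refine ⟨t / m, ?_, ?_⟩
      · rw [Nat.lt_iff_add_one_le, Nat.le_div_iff_mul_le hm]
        have h3 : t % m = τ.val := by rw [← ZMod.val_natCast, h2]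
        have h4 := Nat.div_add_mod t m
        have h5 : (t / m + 1) * m = m * (t / m) + m := by ring
        omega
      · have h3 : t % m = τ.val := by rw [← ZMod.val_natCast, h2]
        have h4 := Nat.div_add_mod t m
        omega
    · rintro ⟨u, h1, h2⟩
      rw [Nat.lt_iff_add_one_le, Nat.le_div_iff_mul_le hm] at h1
      have h5 : (u + 1) * m = m * u + m := by ring
      refine ⟨by omega, ?_⟩
      rw [← h2]
      push_cast
      rw [ZMod.natCast_self, zero_mul, add_zero, ZMod.natCast_val, ZMod.cast_id]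
  · have := Nat.lt_succ_iff.2 (le_refl ((n + m - 1 - τ.val) / m))
    have h2 := Nat.lt_div_mul_add hm (a := n + m - 1 - τ.val)
    rw [add_mul, one_mul]
    exact h2

lemma sum_class (n : ℕ) (τ : ZMod m) (f : ℕ → ℝ) :
    ∑ t ∈ (range n).filter (fun t : ℕ => (t : ZMod m) = τ), f t =
    ∑ t ∈ range (nc n τ), f (τ.val + m * t) := by
  obtain ⟨k, hk, -⟩ := class_eq n τ
  have hm : 0 < m := NeZero.pos m
  have hinj : Set.InjOn (fun t => τ.val + m * t) (range k : Set ℕ) := by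
    intro x _ y _ h
    have : m * x = m * y := by simpa using h
    exact Nat.eq_of_mul_eq_mul_left hm this
  have hc : nc n τ = k := by
    unfold nc
    rw [hk, card_image_of_injOn hinj, card_range]
  rw [hc, hk, sum_image hinj]

lemma nc_near (n : ℕ) (τ : ZMod m) : |(nc n τ : ℝ) - n / m| ≤ 1 := by
  obtain ⟨k, hk, h1, h2⟩ := class_eq n τ
  have hm : 0 < m := NeZero.pos m
  have hv : τ.val < m := ZMod.val_lt τ
  have hinj : Set.InjOn (fun t => τ.val + m * t) (range k : Set ℕ) := by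
    intro x _ y _ h
    have : m * x = m * y := by simpa using h
    exact Nat.eq_of_mul_eq_mul_left hm this
  have hc : nc n τ = k := by
    unfold nc
    rw [hk, card_image_of_injOn hinj, card_range]
  rw [hc]
  have hm' : (0 : ℝ) < m := by exact_mod_cast hm
  have h3 : k * m ≤ n + m := by omega
  have h4 : n ≤ (k + 1) * m := by
    have : n + m - 1 - τ.val ≥ n := by omega
    omega
  have h3' : (k : ℝ) * m ≤ n + m := by exact_mod_cast h3
  have h4' : (n : ℝ) ≤ (k + 1) * m := by exact_mod_cast h4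
  rw [abs_le]
  constructor
  · have : (n : ℝ) / m ≤ k + 1 := by rw [div_le_iff₀ hm']; exact h4'
    linarith
  · have : (k : ℝ) ≤ n / m + 1 := by
      rw [div_add_one hm'.ne', le_div_iff₀ hm']; exact h3'
    linarith

lemma nc_dev_sum (n : ℕ) : ∑ τ : ZMod m, |(nc n τ : ℝ) - n / m| ≤ 2 * n := by
  have hm' : (0 : ℝ) < m := by exact_mod_cast NeZero.pos m
  have h1 : ∀ τ : ZMod m, |(nc n τ : ℝ) - n / m| ≤ nc n τ + n / m := by
    intro τ
    rw [abs_le]
    have : (0 : ℝ) ≤ nc n τ := Nat.cast_nonneg _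
    have h2 : (0 : ℝ) ≤ (n : ℝ) / m := by positivity
    constructor <;> linarith
  refine (sum_le_sum fun τ _ => h1 τ).trans ?_
  rw [sum_add_distrib, sum_const, card_univ, ZMod.card, nsmul_eq_mul]
  have h2 : ∑ τ : ZMod m, (nc n τ : ℝ) = n := by exact_mod_cast sum_nc (m := m) n
  rw [h2, mul_div_cancel₀ _ hm'.ne']
  linarith

end numbers

end Pool.Agent.K9h56.TB
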