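import Pool.Agent.K9h56.TB.Four

set_option autoImplicit false
set_option linter.unusedSectionVars false
set_option linter.unusedVariables false

/-! Fourth moments of the window sums of a sifted set, by induction on the primes. -/

namespace Pool.Agent.K9h56.TB

open Finset

variable {ι : Type*} [Fintype ι] [DecidableEq ι] {p : ι → ℕ} [∀ i, NeZero (p i)]

/-- the indicator that no coordinate in `s` is bad -/
noncomputable def SS (a b : ∀ i, ZMod (p i)) (s : Finset ι) (ω : ∀ i, ZMod (p i)) : ℝ :=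
  ∏ i ∈ s, gd (a i) (b i) (ω i)

/-- its density -/
noncomputable def dl (p : ι → ℕ) (s : Finset ι) : ℝ := ∏ i ∈ s, (1 - 2 / (p i : ℝ))

lemma SS_nonneg (a b : ∀ i, ZMod (p i)) (s : Finset ι) (ω : ∀ i, ZMod (p i)) : 0 ≤ SS a b s ω :=
  prod_nonneg fun i _ => gd_nonneg _ _ _

lemma SS_le_one (a b : ∀ i, ZMod (p i)) (s : Finset ι) (ω : ∀ i, ZMod (p i)) : SS a b s ω ≤ 1 :=
  prod_le_one (fun i _ => gd_nonneg _ _ _) (fun i _ => gd_le_one _ _ _)

lemma SS_sq (a b : ∀ i, ZMod (p i)) (s : Finset ι) (ω : ∀ i, ZMod (p i)) :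
    SS a b s ω * SS a b s ω = SS a b s ω := by
  unfold SS
  rw [← prod_mul_distrib]
  exact prod_congr rfl fun i _ => gd_sq _ _ _

lemma Ex_avg (i : ι) (F : (∀ i, ZMod (p i)) → ℝ) :
    Ex F = Ex (fun ω : ∀ i, ZMod (p i) =>
      (∑ x : ZMod (p i), F (ω + (Pi.single i x : ∀ i, ZMod (p i)))) / (p i : ℝ)) := by
  have hm : (p i : ℝ) ≠ 0 := by exact_mod_cast NeZero.ne (p i)
  have h1 : (fun ω : ∀ i, ZMod (p i) =>
      (∑ x : ZMod (p i), F (ω + (Pi.single i x : ∀ i, ZMod (p i)))) / (p i : ℝ)) =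
      fun ω => (∑ x : ZMod (p i), F (ω + (Pi.single i x : ∀ i, ZMod (p i)))) * (1 / (p i : ℝ)) := by
    funext ω; ring
  rw [h1, Ex_mul_right, Ex_sum]
  simp only [Ex_shift]
  rw [sum_const, card_univ, ZMod.card, nsmul_eq_mul]
  field_simp

lemma SS_single (a b : ∀ i, ZMod (p i)) (s : Finset ι) {i : ι} (hi : i ∉ s) (ω : ∀ i, ZMod (p i))
    (x : ZMod (p i)) : SS a b s (ω + Pi.single i x) = SS a b s ω := by
  unfold SS
  apply prod_congr rfl
  intro j hj
  have hji : j ≠ i := fun h => hi (h ▸ hj)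
  rw [Pi.add_apply, Pi.single_eq_of_ne hji, add_zero]

lemma SS_single' (a b : ∀ i, ZMod (p i)) (s : Finset ι) {i : ι} (hi : i ∉ s) (ω c : ∀ i, ZMod (p i))
    (x : ZMod (p i)) : SS a b s (ω + Pi.single i x + c) = SS a b s (ω + c) := by
  rw [add_right_comm, SS_single a b s hi]

lemma SS_insert (a b : ∀ i, ZMod (p i)) (s : Finset ι) {i : ι} (hi : i ∉ s) (ω : ∀ i, ZMod (p i)) :
    SS a b (insert i s) ω = gd (a i) (b i) (ω i) * SS a b s ω := by
  unfold SS; rw [prod_insert hi]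

lemma exists_bij {m : ℕ} (β a : ZMod m) (d : ℤ) (hd : IsCoprime d (m : ℤ)) :
    ∃ e : ZMod m ≃ ZMod m, ∀ x t : ZMod m, (β + x + d * t = a ↔ t = e x) := by
  have hu : IsUnit (d : ZMod m) := (ZMod.coe_int_isUnit_iff_isCoprime d m).2 hd.symm
  obtain ⟨u, hu⟩ := hu
  refine ⟨(Equiv.subLeft (a - β)).trans (Units.mulLeft u⁻¹), fun x t => ?_⟩
  have e1 : ((Equiv.subLeft (a - β)).trans (Units.mulLeft u⁻¹)) x = (u⁻¹ : (ZMod m)ˣ) * (a - β - x) := rfl
  rw [e1, ← hu]
  constructor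
  · intro h
    rw [← h]
    have : β + x + ↑u * t - β - x = ↑u * t := by ring
    rw [this, ← mul_assoc, Units.inv_mul, one_mul]
  · intro h
    rw [h, ← mul_assoc, Units.mul_inv, one_mul]
    ring

/-- the part of a sum over the class `τ` -/
noncomputable def cls {m : ℕ} (n : ℕ) (f : ℕ → ℝ) (τ : ZMod m) : ℝ :=
  ∑ t ∈ (range n).filter (fun t : ℕ => (t : ZMod m) = τ), f t

lemma sum_cls {m : ℕ} [NeZero m] (n : ℕ) (f : ℕ → ℝ) : ∑ τ : ZMod m, cls n f τ = ∑ t ∈ range n, f t := by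
  unfold cls
  exact sum_fiberwise_of_maps_to (fun t _ => mem_univ _) f

/-- removing the bad classes -/
lemma sum_gd {m : ℕ} [NeZero m] {a b : ZMod m} (hab : a ≠ b) (n : ℕ) (f : ℕ → ℝ) (c d : ℤ) (β x : ZMod m)
    (e1 e2 : ZMod m ≃ ZMod m) (h1 : ∀ x t : ZMod m, (β + c + x + d * t = a ↔ t = e1 x))
    (h2 : ∀ x t : ZMod m, (β + c + x + d * t = b ↔ t = e2 x)) :
    ∑ t ∈ range n, f t * gd a b (β + x + ((c + d * t : ℤ) : ZMod m)) =
      ∑ t ∈ range n, f t - cls n f (e1 x) - cls n f (e2 x) := by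
  have h3 : ∀ t : ℕ, f t * gd a b (β + x + ((c + d * t : ℤ) : ZMod m)) =
      f t - (if (t : ZMod m) = e1 x then f t else 0) - (if (t : ZMod m) = e2 x then f t else 0) := by
    intro t
    have e : β + x + ((c + d * t : ℤ) : ZMod m) = β + c + x + d * t := by push_cast; ring
    rw [e, gd_eq hab, mul_sub, mul_sub, mul_one]
    have k1 := h1 x t
    have k2 := h2 x t
    congr 1
    · congr 1
      by_cases h : (t : ZMod m) = e1 x
      · rw [if_pos (k1.2 h), if_pos h, mul_one]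
      · rw [if_neg (fun h' => h (k1.1 h')), if_neg h, mul_zero]
    · by_cases h : (t : ZMod m) = e2 x
      · rw [if_pos (k2.2 h), if_pos h, mul_one]
      · rw [if_neg (fun h' => h (k2.1 h')), if_neg h, mul_zero]
  rw [sum_congr rfl fun t _ => h3 t, sum_sub_distrib, sum_sub_distrib]
  unfold cls
  rw [sum_filter, sum_filter]

/-- the signed window sums -/
noncomputable def W (a b : ∀ i, ZMod (p i)) (s : Finset ι) (c d : ℤ) (n : ℕ) (ω : ∀ i, ZMod (p i)) : ℝ :=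
  ∑ t ∈ range n, (-1) ^ t * SS a b s (ω + ((c + d * t : ℤ) : ∀ i, ZMod (p i)))

lemma Ex_mul_bound {Ω : Type*} [Fintype Ω] (f g : Ω → ℝ) {K x y : ℝ} (hK : 0 ≤ K) (hx : 0 ≤ x) (hy : 0 ≤ y)
    (hf : Ex (fun ω => f ω ^ 4) ≤ K * x ^ 2) (hg : Ex (fun ω => g ω ^ 4) ≤ K * y ^ 2) :
    Ex (fun ω => f ω ^ 2 * g ω ^ 2) ≤ K * x * y := by
  have h := Ex_sq_mul_sq f g
  have h0 : 0 ≤ Ex (fun ω => f ω ^ 4) := Ex_nonneg fun ω => by positivity
  have h1 : (Ex fun ω => f ω ^ 2 * g ω ^ 2) ^ 2 ≤ (K * x * y) ^ 2 := by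
    calc _ ≤ _ := h
      _ ≤ (K * x ^ 2) * (K * y ^ 2) := mul_le_mul hf hg (Ex_nonneg fun ω => by positivity) (by positivity)
      _ = _ := by ring
  exact le_of_sq_le_sq h1 (by positivity) 

lemma W_update {a b : ∀ i, ZMod (p i)} (hab : ∀ i, a i ≠ b i) (s : Finset ι) {i : ι} (hi : i ∉ s) (c d : ℤ)
    (n : ℕ) (ω : ∀ i, ZMod (p i)) (hd : IsCoprime d (p i : ℤ)) : ∃ e1 e2 : ZMod (p i) ≃ ZMod (p i), ∀ x : ZMod (p i),
      W a b (insert i s) c d n (ω + Pi.single i x) = W a b s c d n ω -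
        cls n (fun t => (-1) ^ t * SS a b s (ω + ((c + d * t : ℤ) : ∀ i, ZMod (p i)))) (e1 x) -
        cls n (fun t => (-1) ^ t * SS a b s (ω + ((c + d * t : ℤ) : ∀ i, ZMod (p i)))) (e2 x) := by
  obtain ⟨e1, h1⟩ := exists_bij (ω i + (c : ZMod (p i))) (a i) d hd
  obtain ⟨e2, h2⟩ := exists_bij (ω i + (c : ZMod (p i))) (b i) d hd
  refine ⟨e1, e2, fun x => ?_⟩
  have h3 := sum_gd (hab i) n (fun t => (-1) ^ t * SS a b s (ω + ((c + d * t : ℤ) : ∀ i, ZMod (p i)))) c d (ω i) x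
    e1 e2 h1 h2
  unfold W
  rw [← h3]
  apply sum_congr rfl
  intro t _
  rw [SS_insert a b s hi, SS_single' a b s hi]
  have e : (ω + (Pi.single i x : ∀ i, ZMod (p i)) + ((c + d * t : ℤ) : ∀ i, ZMod (p i))) i =
      ω i + x + ((c + d * t : ℤ) : ZMod (p i)) := by
    rw [Pi.add_apply, Pi.add_apply, Pi.single_eq_same, Pi.intCast_apply]
  rw [e]
  ring

lemma cls_W {a b : ∀ i, ZMod (p i)} (s : Finset ι) {m : ℕ} [NeZero m] (hm : Odd m) (c d : ℤ)
    (n : ℕ) (ω : ∀ i, ZMod (p i)) (τ : ZMod m) :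
    cls n (fun t => (-1) ^ t * SS a b s (ω + ((c + d * t : ℤ) : ∀ i, ZMod (p i)))) τ =
      (-1) ^ τ.val * W a b s (c + d * τ.val) (d * m) (nc n τ) ω := by
  unfold cls W
  rw [sum_class, mul_sum]
  apply sum_congr rfl
  intro t _
  have e1 : ((-1 : ℝ)) ^ (τ.val + m * t) = (-1) ^ τ.val * (-1) ^ t := by
    rw [pow_add, pow_mul, hm.neg_one_pow]
  have e2 : (c + d * ((τ.val + m * t : ℕ) : ℤ)) = c + d * τ.val + d * m * t := by push_cast; ring
  rw [e1, e2, mul_assoc]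

lemma alt_sum (n : ℕ) : (∑ t ∈ range n, (-1 : ℝ) ^ t) ^ 4 ≤ 1 * (n : ℝ) ^ 2 := by
  have h : ∀ n : ℕ, ∑ t ∈ range n, (-1 : ℝ) ^ t = (1 - (-1) ^ n) / 2 := by
    intro n
    induction n with
    | zero => simp
    | succ n ih => rw [sum_range_succ, ih, pow_succ]; ring
  rw [h]
  rcases Nat.eq_zero_or_pos n with h0 | h0
  · subst h0; simp
  · have h1 : (1 : ℝ) ≤ n := by exact_mod_cast h0
    have h2 : (1 : ℝ) ≤ (n : ℝ) ^ 2 := one_le_pow₀ h1
    rcases Nat.even_or_odd n with h3 | h3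
    · rw [h3.neg_one_pow]; norm_num
    · rw [h3.neg_one_pow]; norm_num; linarith

/-- the constant -/
noncomputable def KK (p : ι → ℕ) (s : Finset ι) : ℝ := ∏ i ∈ s, (1 + 1344 / (p i : ℝ))

lemma one_le_KK (p : ι → ℕ) (s : Finset ι) : 1 ≤ KK p s := by
  unfold KK
  induction s using Finset.induction_on with
  | empty => simp
  | insert i s hi ih =>
    rw [prod_insert hi]
    have h1 : (1 : ℝ) ≤ 1 + 1344 / (p i : ℝ) := by
      have : (0 : ℝ) ≤ 1344 / (p i : ℝ) := by positivity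
      linarith
    nlinarith

/-- the signed sums -/
theorem four_signed {a b : ∀ i, ZMod (p i)} (hab : ∀ i, a i ≠ b i) (hodd : ∀ i, Odd (p i))
    (hcop : ∀ i j, i ≠ j → Nat.Coprime (p i) (p j)) (s : Finset ι) : ∀ d : ℤ, (∀ i ∈ s, IsCoprime d (p i : ℤ)) →
    ∀ (c : ℤ) (n : ℕ), Ex (fun ω => W a b s c d n ω ^ 4) ≤ KK p s * (n : ℝ) ^ 2 := by
  induction s using Finset.induction_on with
  | empty =>
    intro d _ c n
    have h1 : ∀ ω : ∀ i, ZMod (p i), W a b ∅ c d n ω ^ 4 = (∑ t ∈ range n, (-1 : ℝ) ^ t) ^ 4 := by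
      intro ω
      unfold W SS
      simp
    rw [Ex_congr h1, Ex_const]
    unfold KK
    rw [prod_empty]
    exact alt_sum n
  | insert i s hi ih =>
    intro d hd c n
    have hm : (0 : ℝ) < p i := by exact_mod_cast NeZero.pos (p i)
    have hdi : IsCoprime d (p i : ℤ) := hd i (mem_insert_self _ _)
    have hds : ∀ j ∈ s, IsCoprime d (p j : ℤ) := fun j hj => hd j (mem_insert_of_mem hj)
    have hdm : ∀ j ∈ s, IsCoprime (d * p i) (p j : ℤ) := by
      intro j hj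
      apply IsCoprime.mul_left (hds j hj)
      rw [Nat.isCoprime_iff_coprime]
      exact hcop i j (fun h => hi (h ▸ hj))
    set K := KK p s with hK
    have hK1 : 1 ≤ K := one_le_KK p s
    have hA := ih d hds c n
    have hC : ∀ τ : ZMod (p i), Ex (fun ω => (cls n (fun t => (-1) ^ t *
        SS a b s (ω + ((c + d * t : ℤ) : ∀ i, ZMod (p i)))) τ) ^ 4) ≤ K * (nc n τ : ℝ) ^ 2 := by
      intro τ
      have h2 := ih (d * p i) hdm (c + d * τ.val) (nc n τ)
      refine le_trans (le_of_eq (Ex_congr fun ω => ?_)) h2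
      rw [cls_W s (hodd i), mul_pow]
      have : (((-1 : ℝ)) ^ τ.val) ^ 4 = 1 := by
        rw [← pow_mul, mul_comm, pow_mul]; norm_num
      rw [this, one_mul]
    -- averaging over the coordinate `i`
    rw [Ex_avg i]
    have h4 : ∀ ω : ∀ i, ZMod (p i), (∑ x : ZMod (p i),
        W a b (insert i s) c d n (ω + (Pi.single i x : ∀ i, ZMod (p i))) ^ 4) / (p i : ℝ) ≤
        W a b s c d n ω ^ 4 + 32 / p i * ∑ τ : ZMod (p i), (W a b s c d n ω ^ 2 *
          (cls n (fun t => (-1) ^ t * SS a b s (ω + ((c + d * t : ℤ) : ∀ i, ZMod (p i)))) τ) ^ 2) +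
        48 / p i * ∑ τ : ZMod (p i), (cls n (fun t => (-1) ^ t *
          SS a b s (ω + ((c + d * t : ℤ) : ∀ i, ZMod (p i)))) τ) ^ 4 := by
      intro ω
      obtain ⟨e1, e2, he⟩ := W_update hab s hi c d n ω hdi
      rw [div_le_iff₀ hm]
      simp only [he]
      refine (four_step _ e1 e2 _ (by rw [sum_cls]; rfl)).trans (le_of_eq ?_)
      rw [← mul_sum]
      field_simp
    refine (Ex_mono h4).trans ?_
    rw [Ex_add, Ex_add, Ex_mul_left, Ex_mul_left, Ex_sum, Ex_sum]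
    have h5 : ∑ τ : ZMod (p i), Ex (fun ω => W a b s c d n ω ^ 2 *
          (cls n (fun t => (-1) ^ t * SS a b s (ω + ((c + d * t : ℤ) : ∀ i, ZMod (p i)))) τ) ^ 2) ≤
          K * (n : ℝ) ^ 2 := by
      refine (sum_le_sum fun τ _ => Ex_mul_bound _ _ (by linarith) (Nat.cast_nonneg n)
        (Nat.cast_nonneg (nc n τ)) hA (hC τ)).trans (le_of_eq ?_)
      rw [← mul_sum]
      have : ∑ τ : ZMod (p i), (nc n τ : ℝ) = n := by exact_mod_cast sum_nc (m := p i) n
      rw [this]; ring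
    have h6 : ∑ τ : ZMod (p i), Ex (fun ω => (cls n (fun t => (-1) ^ t *
        SS a b s (ω + ((c + d * t : ℤ) : ∀ i, ZMod (p i)))) τ) ^ 4) ≤ K * (n : ℝ) ^ 2 := by
      refine (sum_le_sum fun τ _ => hC τ).trans ?_
      rw [← mul_sum]
      apply mul_le_mul_of_nonneg_left _ (by linarith)
      have h7 : ∀ τ ∈ (univ : Finset (ZMod (p i))), (nc n τ : ℝ) ^ 2 ≤ n * nc n τ := by
        intro τ _
        have : (nc n τ : ℝ) ≤ n := by
          have : nc n τ ≤ n := by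
            unfold nc
            exact (card_filter_le _ _).trans (by rw [card_range])
          exact_mod_cast this
        have h0 : (0 : ℝ) ≤ nc n τ := Nat.cast_nonneg _
        nlinarith
      refine (sum_le_sum h7).trans (le_of_eq ?_)
      rw [← mul_sum]
      have : ∑ τ : ZMod (p i), (nc n τ : ℝ) = n := by exact_mod_cast sum_nc (m := p i) n
      rw [this]; ring
    have h8 : KK p (insert i s) = (1 + 1344 / (p i : ℝ)) * K := by
      rw [hK]; unfold KK; rw [prod_insert hi]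
    rw [h8]
    have h9 : 32 / (p i : ℝ) * ∑ τ : ZMod (p i), Ex (fun ω => W a b s c d n ω ^ 2 *
          (cls n (fun t => (-1) ^ t * SS a b s (ω + ((c + d * t : ℤ) : ∀ i, ZMod (p i)))) τ) ^ 2) ≤
          32 / (p i : ℝ) * (K * (n : ℝ) ^ 2) := mul_le_mul_of_nonneg_left h5 (by positivity)
    have h10 : 48 / (p i : ℝ) * ∑ τ : ZMod (p i), Ex (fun ω => (cls n (fun t => (-1) ^ t *
        SS a b s (ω + ((c + d * t : ℤ) : ∀ i, ZMod (p i)))) τ) ^ 4) ≤
          48 / (p i : ℝ) * (K * (n : ℝ) ^ 2) := mul_le_mul_of_nonneg_left h6 (by positivity)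
    have h11 : 0 ≤ 1264 / (p i : ℝ) * (K * (n : ℝ) ^ 2) := by positivity
    have h12 : (1 + 1344 / (p i : ℝ)) * K * (n : ℝ) ^ 2 = K * (n : ℝ) ^ 2 + 32 / (p i : ℝ) * (K * (n : ℝ) ^ 2) +
      48 / (p i : ℝ) * (K * (n : ℝ) ^ 2) + 1264 / (p i : ℝ) * (K * (n : ℝ) ^ 2) := by ring
    rw [h12]
    linarith

/-- the centred window sums -/
noncomputable def V (a b : ∀ i, ZMod (p i)) (s : Finset ι) (c d : ℤ) (n : ℕ) (ω : ∀ i, ZMod (p i)) : ℝ :=
  ∑ t ∈ range n, (SS a b s (ω + ((c + d * t : ℤ) : ∀ i, ZMod (p i))) - dl p s)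

lemma V_update {a b : ∀ i, ZMod (p i)} (hab : ∀ i, a i ≠ b i) (s : Finset ι) {i : ι} (hi : i ∉ s) (c d : ℤ)
    (n : ℕ) (ω : ∀ i, ZMod (p i)) (hd : IsCoprime d (p i : ℤ)) : ∃ e1 e2 : ZMod (p i) ≃ ZMod (p i), ∀ x : ZMod (p i),
      V a b (insert i s) c d n (ω + Pi.single i x) = V a b s c d n ω -
        (cls n (fun t => SS a b s (ω + ((c + d * t : ℤ) : ∀ i, ZMod (p i)))) (e1 x) - dl p s * (n / p i)) -
        (cls n (fun t => SS a b s (ω + ((c + d * t : ℤ) : ∀ i, ZMod (p i)))) (e2 x) - dl p s * (n / p i)) := by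
  obtain ⟨e1, h1⟩ := exists_bij (ω i + (c : ZMod (p i))) (a i) d hd
  obtain ⟨e2, h2⟩ := exists_bij (ω i + (c : ZMod (p i))) (b i) d hd
  refine ⟨e1, e2, fun x => ?_⟩
  have h3 := sum_gd (hab i) n (fun t => SS a b s (ω + ((c + d * t : ℤ) : ∀ i, ZMod (p i)))) c d (ω i) x
    e1 e2 h1 h2
  have h4 : V a b (insert i s) c d n (ω + Pi.single i x) =
      ∑ t ∈ range n, SS a b s (ω + ((c + d * t : ℤ) : ∀ i, ZMod (p i))) *
        gd (a i) (b i) (ω i + x + ((c + d * t : ℤ) : ZMod (p i))) - n * (dl p s * (1 - 2 / (p i : ℝ))) := by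
    unfold V
    rw [sum_sub_distrib, sum_const, card_range, nsmul_eq_mul]
    congr 1
    · apply sum_congr rfl
      intro t _
      rw [SS_insert a b s hi, SS_single' a b s hi]
      have e : (ω + (Pi.single i x : ∀ i, ZMod (p i)) + ((c + d * t : ℤ) : ∀ i, ZMod (p i))) i =
          ω i + x + ((c + d * t : ℤ) : ZMod (p i)) := by
        rw [Pi.add_apply, Pi.add_apply, Pi.single_eq_same, Pi.intCast_apply]
      rw [e]
      ring
    · unfold dl
      rw [prod_insert hi]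
      ring
  rw [h4, h3]
  unfold V
  rw [sum_sub_distrib, sum_const, card_range, nsmul_eq_mul]
  ring

lemma cls_V {a b : ∀ i, ZMod (p i)} (s : Finset ι) {m : ℕ} [NeZero m] (c d : ℤ)
    (n : ℕ) (ω : ∀ i, ZMod (p i)) (τ : ZMod m) :
    cls n (fun t => SS a b s (ω + ((c + d * t : ℤ) : ∀ i, ZMod (p i)))) τ - dl p s * (n / m) =
      V a b s (c + d * τ.val) (d * m) (nc n τ) ω + dl p s * (nc n τ - n / m) := by
  unfold cls V
  rw [sum_class, sum_sub_distrib, sum_const, card_range, nsmul_eq_mul]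
  have : ∑ t ∈ range (nc n τ), SS a b s (ω + ((c + d * ((τ.val + m * t : ℕ) : ℤ) : ℤ) : ∀ i, ZMod (p i))) =
      ∑ t ∈ range (nc n τ), SS a b s (ω + ((c + d * τ.val + d * m * t : ℤ) : ∀ i, ZMod (p i))) := by
    apply sum_congr rfl
    intro t _
    have e2 : (c + d * ((τ.val + m * t : ℕ) : ℤ)) = c + d * τ.val + d * m * t := by push_cast; ring
    rw [e2]
  rw [this]
  ring

lemma dl_nonneg (hp : ∀ i, 2 ≤ p i) (s : Finset ι) : 0 ≤ dl p s := by
  unfold dl
  apply prod_nonneg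
  intro i _
  have : (2 : ℝ) ≤ p i := by exact_mod_cast hp i
  rw [sub_nonneg, div_le_one (by linarith)]
  exact this

lemma dl_le_one (hp : ∀ i, 2 ≤ p i) (s : Finset ι) : dl p s ≤ 1 := by
  unfold dl
  apply prod_le_one
  · intro i _
    have : (2 : ℝ) ≤ p i := by exact_mod_cast hp i
    rw [sub_nonneg, div_le_one (by linarith)]
    exact this
  · intro i _
    have : (0 : ℝ) ≤ 2 / (p i : ℝ) := by positivity
    linarith

/-- the centred sums -/
theorem four_centred {a b : ∀ i, ZMod (p i)} (hab : ∀ i, a i ≠ b i) (hp : ∀ i, 2 ≤ p i)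
    (hcop : ∀ i j, i ≠ j → Nat.Coprime (p i) (p j)) (s : Finset ι) : ∀ d : ℤ, (∀ i ∈ s, IsCoprime d (p i : ℤ)) →
    ∀ (c : ℤ) (n : ℕ), Ex (fun ω => V a b s c d n ω ^ 4) ≤ KK p s * (n : ℝ) ^ 2 := by
  induction s using Finset.induction_on with
  | empty =>
    intro d _ c n
    have h1 : ∀ ω : ∀ i, ZMod (p i), V a b ∅ c d n ω ^ 4 = 0 := by
      intro ω
      unfold V SS dl
      simp
    rw [Ex_congr h1, Ex_const]
    unfold KK
    rw [prod_empty]
    positivity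
  | insert i s hi ih =>
    intro d hd c n
    have hm : (0 : ℝ) < p i := by exact_mod_cast NeZero.pos (p i)
    have hdi : IsCoprime d (p i : ℤ) := hd i (mem_insert_self _ _)
    have hds : ∀ j ∈ s, IsCoprime d (p j : ℤ) := fun j hj => hd j (mem_insert_of_mem hj)
    have hdm : ∀ j ∈ s, IsCoprime (d * p i) (p j : ℤ) := by
      intro j hj
      apply IsCoprime.mul_left (hds j hj)
      rw [Nat.isCoprime_iff_coprime]
      exact hcop i j (fun h => hi (h ▸ hj))
    set K := KK p s with hK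
    have hK1 : 1 ≤ K := one_le_KK p s
    have hδ0 := dl_nonneg hp s
    have hδ1 := dl_le_one hp s
    set δ := dl p s with hδ
    have hA := ih d hds c n
    have hn0 : (0 : ℝ) ≤ n := Nat.cast_nonneg n
    have hnn : (n : ℝ) ≤ (n : ℝ) ^ 2 := by
      rcases Nat.eq_zero_or_pos n with h0 | h0
      · subst h0; simp
      · have h1 : (1 : ℝ) ≤ n := by exact_mod_cast h0
        nlinarith
    have hA2 : Ex (fun ω => V a b s c d n ω ^ 2) ≤ K * n := by
      have h1 := Ex_sq_sq_le (fun ω => V a b s c d n ω)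
      have h2 : (Ex fun ω => V a b s c d n ω ^ 2) ^ 2 ≤ (K * n) ^ 2 := by
        refine (h1.trans hA).trans ?_
        rw [mul_pow]
        apply mul_le_mul_of_nonneg_right _ (by positivity)
        nlinarith
      exact le_of_sq_le_sq h2 (by positivity)
    have hC : ∀ τ : ZMod (p i), Ex (fun ω => V a b s (c + d * τ.val) (d * p i) (nc n τ) ω ^ 4) ≤
        K * (nc n τ : ℝ) ^ 2 := fun τ => ih (d * p i) hdm (c + d * τ.val) (nc n τ)
    have hnc : ∑ τ : ZMod (p i), (nc n τ : ℝ) = n := by exact_mod_cast sum_nc (m := p i) n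
    have hw1 : ∀ τ : ZMod (p i), |(nc n τ : ℝ) - n / p i| ≤ 1 := nc_near n
    have hw2 : ∑ τ : ZMod (p i), |(nc n τ : ℝ) - n / p i| ≤ 2 * n := nc_dev_sum n
    -- the functions `G`
    set G : ZMod (p i) → (∀ i, ZMod (p i)) → ℝ := fun τ ω =>
      V a b s (c + d * τ.val) (d * p i) (nc n τ) ω + δ * (nc n τ - n / p i) with hG
    have hw : ∀ τ : ZMod (p i), (δ * ((nc n τ : ℝ) - n / p i)) ^ 2 ≤ |(nc n τ : ℝ) - n / p i| := by
      intro τ
      have h1 := hw1 τ
      have h2 := abs_nonneg ((nc n τ : ℝ) - n / p i)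
      rw [mul_pow, ← sq_abs ((nc n τ : ℝ) - n / p i)]
      have h3 : δ ^ 2 ≤ 1 := by nlinarith
      have h4 : |(nc n τ : ℝ) - n / p i| ^ 2 ≤ |(nc n τ : ℝ) - n / p i| := by nlinarith
      nlinarith [sq_nonneg |(nc n τ : ℝ) - n / p i|]
    have hw4 : ∀ τ : ZMod (p i), (δ * ((nc n τ : ℝ) - n / p i)) ^ 4 ≤ |(nc n τ : ℝ) - n / p i| := by
      intro τ
      have h1 := hw1 τ
      have h2 := abs_nonneg ((nc n τ : ℝ) - n / p i)
      have h3 := hw τ
      have h5 : 0 ≤ (δ * ((nc n τ : ℝ) - n / p i)) ^ 2 := sq_nonneg _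
      have e : (δ * ((nc n τ : ℝ) - n / p i)) ^ 4 = ((δ * ((nc n τ : ℝ) - n / p i)) ^ 2) ^ 2 := by ring
      rw [e]
      nlinarith
    have hG2 : ∀ τ ω, G τ ω ^ 2 ≤ 2 * V a b s (c + d * τ.val) (d * p i) (nc n τ) ω ^ 2 +
        2 * |(nc n τ : ℝ) - n / p i| := by
      intro τ ω
      have h1 := hw τ
      rw [hG]
      nlinarith [sq_nonneg (V a b s (c + d * τ.val) (d * p i) (nc n τ) ω - δ * (nc n τ - n / p i))]
    have hG4 : ∀ τ ω, G τ ω ^ 4 ≤ 8 * V a b s (c + d * τ.val) (d * p i) (nc n τ) ω ^ 4 +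
        8 * |(nc n τ : ℝ) - n / p i| := by
      intro τ ω
      have h1 := hw4 τ
      have h2 : G τ ω ^ 4 ≤ 8 * V a b s (c + d * τ.val) (d * p i) (nc n τ) ω ^ 4 +
          8 * (δ * ((nc n τ : ℝ) - n / p i)) ^ 4 := by
        rw [hG]
        set u := V a b s (c + d * τ.val) (d * p i) (nc n τ) ω
        set v := δ * ((nc n τ : ℝ) - n / p i)
        have h3 : (u + v) ^ 2 ≤ 2 * (u ^ 2 + v ^ 2) := by nlinarith [sq_nonneg (u - v)]
        have h5 : ((u + v) ^ 2) ^ 2 ≤ (2 * (u ^ 2 + v ^ 2)) ^ 2 := pow_le_pow_left₀ (sq_nonneg _) h3 2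
        have h6 : (u + v) ^ 4 = ((u + v) ^ 2) ^ 2 := by ring
        show (u + v) ^ 4 ≤ _
        rw [h6]
        nlinarith [sq_nonneg (u ^ 2 - v ^ 2)]
      linarith
    rw [Ex_avg i]
    have h4 : ∀ ω : ∀ i, ZMod (p i), (∑ x : ZMod (p i),
        V a b (insert i s) c d n (ω + (Pi.single i x : ∀ i, ZMod (p i))) ^ 4) / (p i : ℝ) ≤
        V a b s c d n ω ^ 4 + 32 / p i * ∑ τ : ZMod (p i), (V a b s c d n ω ^ 2 * G τ ω ^ 2) +
        48 / p i * ∑ τ : ZMod (p i), G τ ω ^ 4 := by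
      intro ω
      obtain ⟨e1, e2, he⟩ := V_update hab s hi c d n ω hdi
      rw [div_le_iff₀ hm]
      simp only [he, cls_V s c d n ω]
      have hsum : V a b s c d n ω = ∑ τ, G τ ω := by
        have h5 : ∀ τ : ZMod (p i), G τ ω =
          cls n (fun t => SS a b s (ω + ((c + d * t : ℤ) : ∀ i, ZMod (p i)))) τ - dl p s * (n / p i) :=
          fun τ => (cls_V s c d n ω τ).symm
        rw [sum_congr rfl fun τ _ => h5 τ, sum_sub_distrib, sum_cls, sum_const, card_univ, ZMod.card,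
          nsmul_eq_mul]
        unfold V
        rw [sum_sub_distrib, sum_const, card_range, nsmul_eq_mul]
        field_simp
      refine (four_step (fun τ => G τ ω) e1 e2 _ hsum).trans (le_of_eq ?_)
      rw [← mul_sum]
      field_simp
    refine (Ex_mono h4).trans ?_
    rw [Ex_add, Ex_add, Ex_mul_left, Ex_mul_left, Ex_sum, Ex_sum]
    have h5 : ∑ τ : ZMod (p i), Ex (fun ω => V a b s c d n ω ^ 2 * G τ ω ^ 2) ≤ 6 * (K * (n : ℝ) ^ 2) := by
      have h6 : ∀ τ ∈ (univ : Finset (ZMod (p i))), Ex (fun ω => V a b s c d n ω ^ 2 * G τ ω ^ 2) ≤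
          2 * (K * n * nc n τ) + 2 * |(nc n τ : ℝ) - n / p i| * (K * n) := by
        intro τ _
        have h7 : ∀ ω, V a b s c d n ω ^ 2 * G τ ω ^ 2 ≤
            2 * (V a b s c d n ω ^ 2 * V a b s (c + d * τ.val) (d * p i) (nc n τ) ω ^ 2) +
            2 * |(nc n τ : ℝ) - n / p i| * V a b s c d n ω ^ 2 := by
          intro ω
          have h8 := mul_le_mul_of_nonneg_left (hG2 τ ω) (sq_nonneg (V a b s c d n ω))
          linarith
        refine (Ex_mono h7).trans ?_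
        rw [Ex_add, Ex_mul_left, Ex_mul_left]
        have h8 := Ex_mul_bound (fun ω => V a b s c d n ω)
          (fun ω => V a b s (c + d * τ.val) (d * p i) (nc n τ) ω) (by linarith : 0 ≤ K) hn0
          (Nat.cast_nonneg (nc n τ)) hA (hC τ)
        have h9 : 2 * |(nc n τ : ℝ) - n / p i| * Ex (fun ω => V a b s c d n ω ^ 2) ≤
          2 * |(nc n τ : ℝ) - n / p i| * (K * n) := mul_le_mul_of_nonneg_left hA2 (by positivity)
        linarith
      refine (sum_le_sum h6).trans ?_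
      rw [sum_add_distrib, ← mul_sum, ← mul_sum, hnc, ← sum_mul, ← mul_sum]
      have h10 : 2 * (∑ τ : ZMod (p i), |(nc n τ : ℝ) - n / p i|) * (K * n) ≤ 2 * (2 * n) * (K * n) := by
        apply mul_le_mul_of_nonneg_right _ (by positivity)
        linarith
      nlinarith
    have h6 : ∑ τ : ZMod (p i), Ex (fun ω => G τ ω ^ 4) ≤ 24 * (K * (n : ℝ) ^ 2) := by
      have h7 : ∀ τ ∈ (univ : Finset (ZMod (p i))), Ex (fun ω => G τ ω ^ 4) ≤
          8 * (K * (n * nc n τ)) + 8 * |(nc n τ : ℝ) - n / p i| := by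
        intro τ _
        refine (Ex_mono (hG4 τ)).trans ?_
        rw [Ex_add, Ex_mul_left, Ex_const]
        have h8 : K * (nc n τ : ℝ) ^ 2 ≤ K * (n * nc n τ) := by
          apply mul_le_mul_of_nonneg_left _ (by linarith)
          have : (nc n τ : ℝ) ≤ n := by
            have : nc n τ ≤ n := by
              unfold nc
              exact (card_filter_le _ _).trans (by rw [card_range])
            exact_mod_cast this
          have h0 : (0 : ℝ) ≤ nc n τ := Nat.cast_nonneg _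
          nlinarith
        have := hC τ
        linarith
      refine (sum_le_sum h7).trans ?_
      rw [sum_add_distrib, ← mul_sum, ← mul_sum, ← mul_sum, ← mul_sum, hnc]
      nlinarith
    have h8 : KK p (insert i s) = (1 + 1344 / (p i : ℝ)) * K := by
      rw [hK]; unfold KK; rw [prod_insert hi]
    rw [h8]
    have h9 : 32 / (p i : ℝ) * ∑ τ : ZMod (p i), Ex (fun ω => V a b s c d n ω ^ 2 * G τ ω ^ 2) ≤
          32 / (p i : ℝ) * (6 * (K * (n : ℝ) ^ 2)) := mul_le_mul_of_nonneg_left h5 (by positivity)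
    have h10 : 48 / (p i : ℝ) * ∑ τ : ZMod (p i), Ex (fun ω => G τ ω ^ 4) ≤
          48 / (p i : ℝ) * (24 * (K * (n : ℝ) ^ 2)) := mul_le_mul_of_nonneg_left h6 (by positivity)
    have h12 : (1 + 1344 / (p i : ℝ)) * K * (n : ℝ) ^ 2 = K * (n : ℝ) ^ 2 +
      32 / (p i : ℝ) * (6 * (K * (n : ℝ) ^ 2)) + 48 / (p i : ℝ) * (24 * (K * (n : ℝ) ^ 2)) := by ring
    rw [h12]
    linarith

end Pool.Agent.K9h56.TB
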