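import Pool.Agent.K9h56.TB.Asm

set_option autoImplicit false
set_option linter.unusedSectionVars false
set_option linter.style.haveILetI false

/-! The choice of the parameters. -/

namespace Pool.Agent.K9h56.TB

open Finset Filter Topology

lemma grow (C : ℝ) (n : ℕ) : ∀ᶠ w : ℝ in atTop, C * (Real.log w) ^ n ≤ w := by
  have h := (Real.isLittleO_pow_log_id_atTop (n := n)).bound (show (0 : ℝ) < 1 / (|C| + 1) by positivity)
  filter_upwards [h, eventually_ge_atTop 1] with w h1 h2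
  rw [Real.norm_eq_abs, Real.norm_eq_abs, id, abs_of_nonneg (pow_nonneg (Real.log_nonneg h2) _),
    abs_of_nonneg (by linarith : (0 : ℝ) ≤ w)] at h1
  have h3 : 0 ≤ Real.log w ^ n := pow_nonneg (Real.log_nonneg h2) _
  calc C * Real.log w ^ n ≤ (|C| + 1) * Real.log w ^ n :=
        mul_le_mul_of_nonneg_right (by linarith [le_abs_self C]) h3
    _ ≤ (|C| + 1) * (1 / (|C| + 1) * w) := mul_le_mul_of_nonneg_left h1 (by positivity)
    _ = w := by field_simp

/-- the formula for the mean sign -/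
theorem formula : ∀ᶠ z : ℕ in atTop,
    |Dz z - (∑' k : ℕ, (-1 : ℝ) ^ (k + 1) * (1 - dz z) ^ k * rz (pr5 z) (k + 1)) / dz z| ≤
      (Real.log z) ^ (-(9 / 4) : ℝ) := by
  obtain ⟨c, C, hc, hC, hb⟩ := dz_bounds
  obtain ⟨C2, hC2, hk⟩ := kk_bound 1344 (by norm_num)
  obtain ⟨C5, hC5⟩ : ∃ C5 : ℝ, C5 = C2 * 36001 ^ 1344 := ⟨_, rfl⟩
  obtain ⟨C4, hC4⟩ : ∃ C4 : ℝ, C4 = c⁻¹ * 36001 ^ 2 := ⟨_, rfl⟩
  -- the size parameter
  set W : ℕ → ℝ := fun z => (Real.log z) ^ ((1 : ℝ) / 1200) with hW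
  have hlog : Tendsto (fun z : ℕ => Real.log (z : ℝ)) atTop atTop :=
    Real.tendsto_log_atTop.comp tendsto_natCast_atTop_atTop
  have hWt : Tendsto W atTop atTop := (tendsto_rpow_atTop (by norm_num)).comp hlog
  have e1 := hWt.eventually (eventually_ge_atTop (1000 : ℝ))
  have e2 := hWt.eventually (eventually_ge_atTop C)
  have e3 := hWt.eventually (eventually_ge_atTop c⁻¹)
  have e4 := hWt.eventually (grow C4 2)
  have e5 := hWt.eventually (grow C5 1344)
  have e6 := hWt.eventually (grow (8 * 2403) 1)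
  have e7 : ∀ᶠ z : ℕ in atTop, 36001 * Real.log (W z) ≤ Real.log z := by
    have h1 := hlog.eventually (grow 36001 1)
    filter_upwards [h1, hlog.eventually (eventually_ge_atTop 1)] with z h1 h2
    simp only [pow_one] at h1
    have h3 : Real.log (W z) ≤ Real.log (Real.log z) := by
      simp only [hW]
      rw [Real.log_rpow (by linarith)]
      have := Real.log_nonneg h2
      linarith
    linarith
  filter_upwards [e1, e2, e3, e4, e5, e6, e7, eventually_ge_atTop 5] with z h1 h2 h3 h4 h5 h6 h7 h8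
  set w := W z with hw
  set X := Real.log z with hX
  have hX0 : 0 < X := by
    rw [hX]; exact Real.log_pos (by exact_mod_cast (by omega : 1 < z))
  have hw0 : 0 < w := by linarith
  have hwX : w ^ 1200 = X := by
    rw [hw]
    simp only [hW]
    rw [← Real.rpow_natCast, ← Real.rpow_mul hX0.le]
    norm_num
  have hlw : 1 < Real.log w := by
    rw [Real.lt_log_iff_exp_lt hw0]
    have := Real.exp_one_lt_d9
    linarith
  have hw1 : 1 ≤ w := by linarith
  -- z0
  set z0 : ℕ := ⌈w ^ 36000⌉₊ with hz0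
  have hbig : (1000 : ℝ) ≤ w ^ 36000 := by
    calc (1000 : ℝ) ≤ w ^ 1 := by rw [pow_one]; exact h1
      _ ≤ w ^ 36000 := pow_le_pow_right₀ hw1 (by norm_num)
  have hz0lo : w ^ 36000 ≤ z0 := Nat.le_ceil _
  have hz0hi : (z0 : ℝ) ≤ w ^ 36001 := by
    have : (z0 : ℝ) ≤ w ^ 36000 + 1 := (Nat.ceil_lt_add_one (by positivity)).le
    have h9 : w ^ 36001 = w ^ 36000 * w := pow_succ _ _
    rw [h9]
    nlinarith
  have hz05 : 5 ≤ z0 := by
    have : (5 : ℝ) ≤ z0 := by linarith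
    exact_mod_cast this
  have hlogz0 : Real.log z0 ≤ 36001 * Real.log w := by
    have h9 : Real.log z0 ≤ Real.log (w ^ 36001) :=
      Real.log_le_log (by exact_mod_cast (by omega : 0 < z0)) hz0hi
    rwa [Real.log_pow] at h9
  have hlogz00 : 0 < Real.log z0 := Real.log_pos (by exact_mod_cast (by omega : 1 < z0))
  have hz0z : z0 ≤ z := by
    have h9 : (w ^ 36001 : ℝ) ≤ z := by
      have h10 : Real.log (w ^ 36001) ≤ Real.log z := by
        rw [Real.log_pow]; exact h7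
      exact (Real.log_le_log_iff (by positivity) (by exact_mod_cast (by omega : 0 < z))).1 h10
    exact_mod_cast hz0hi.trans h9
  -- quantities
  set θ := dz z with hθ
  set d0 := dz z0 with hd0
  set q := ∏ p ∈ prl z0 z, (1 - 2 / (p : ℝ)) with hq
  set K := ∏ p ∈ pr5 z0, (1 + 1344 / (p : ℝ)) with hK
  set η := ∑ p ∈ prl z0 z, 4 / (p : ℝ) ^ 2 with hη
  have hfac : ∀ p ∈ prl z0 z, 0 < 1 - 2 / (p : ℝ) ∧ 1 - 2 / (p : ℝ) ≤ 1 := by
    intro p hp
    rw [mem_prl] at hp
    have h9 : (5 : ℝ) < p := by exact_mod_cast (by omega : 5 < p)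
    constructor
    · rw [sub_pos, div_lt_one (by linarith)]; linarith
    · have : 0 ≤ 2 / (p : ℝ) := by positivity
      linarith
  have hq0 : 0 < q := prod_pos fun p hp => (hfac p hp).1
  have hq1 : q ≤ 1 := prod_le_one (fun p hp => (hfac p hp).1.le) fun p hp => (hfac p hp).2
  have hd0' : 0 < d0 := lt_of_lt_of_le (by positivity) (hb z0 hz05).1
  have hd1 : d0 ≤ 1 := by
    rw [hd0]; unfold dz
    apply prod_le_one
    · intro p hp
      rw [mem_pr5] at hp
      have h9 : (5 : ℝ) ≤ p := by exact_mod_cast hp.1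
      rw [sub_nonneg, div_le_one (by linarith)]; linarith
    · intro p _
      have : 0 ≤ 2 / (p : ℝ) := by positivity
      linarith
  have hθq : θ = q * d0 := by rw [hθ, dz_prod (by omega) hz0z, mul_comm]
  have hX2 : X ^ 2 = w ^ 2400 := by rw [← hwX, ← pow_mul]
  have hθhi : θ ≤ w ^ (-2397 : ℤ) := by
    refine (hb z h8).2.trans ?_
    rw [hX2, div_le_iff₀ (by positivity)]
    have : w ^ (-2397 : ℤ) * w ^ 2400 = w ^ 3 := by
      rw [← zpow_natCast, ← zpow_natCast, ← zpow_add₀ hw0.ne']; norm_num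
    rw [this]
    calc C ≤ w ^ 1 := by rw [pow_one]; exact h2
      _ ≤ w ^ 3 := pow_le_pow_right₀ hw1 (by norm_num)
  have hθlo : θ⁻¹ ≤ w ^ (2403 : ℤ) := by
    have h9 := (hb z h8).1
    rw [hX2] at h9
    have h10 : θ⁻¹ ≤ (c / w ^ 2400)⁻¹ := inv_anti₀ (by positivity) h9
    refine h10.trans ?_
    rw [inv_div, div_eq_mul_inv]
    have : w ^ (2403 : ℤ) = w ^ 2400 * w ^ 3 := by
      rw [← pow_add]; norm_cast
    rw [this]
    apply mul_le_mul_of_nonneg_left _ (by positivity)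
    calc c⁻¹ ≤ w ^ 1 := by rw [pow_one]; exact h3
      _ ≤ w ^ 3 := pow_le_pow_right₀ hw1 (by norm_num)
  have hdlo : d0⁻¹ ≤ w ^ (3 : ℤ) := by
    have h9 := (hb z0 hz05).1
    have h10 : d0⁻¹ ≤ (c / (Real.log z0) ^ 2)⁻¹ := inv_anti₀ (by positivity) h9
    refine h10.trans ?_
    rw [inv_div, div_eq_mul_inv]
    calc (Real.log z0) ^ 2 * c⁻¹ ≤ (36001 * Real.log w) ^ 2 * c⁻¹ :=
          mul_le_mul_of_nonneg_right (pow_le_pow_left₀ hlogz00.le hlogz0 2) (by positivity)
      _ = C4 * (Real.log w) ^ 2 := by rw [hC4]; ring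
      _ ≤ w := h4
      _ = w ^ (1 : ℤ) := (zpow_one w).symm
      _ ≤ w ^ (3 : ℤ) := zpow_le_zpow_right₀ hw1 (by norm_num)
  have hK1 : 1 ≤ K := by
    rw [hK]
    have : ∏ p ∈ pr5 z0, (1 : ℝ) ≤ ∏ p ∈ pr5 z0, (1 + 1344 / (p : ℝ)) := by
      apply prod_le_prod (fun _ _ => by norm_num)
      intro p _
      have : 0 ≤ 1344 / (p : ℝ) := by positivity
      linarith
    simpa using this
  have hKw : K ≤ w ^ (3 : ℤ) := by
    have h9 := hk z0 hz05
    rw [show (1344 : ℝ) = ((1344 : ℕ) : ℝ) by norm_num, Real.rpow_natCast] at h9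
    have h9' : K ≤ C2 * Real.log z0 ^ 1344 := by
      rw [hK]
      exact_mod_cast h9
    refine h9'.trans ?_
    calc C2 * Real.log z0 ^ 1344 ≤ C2 * (36001 * Real.log w) ^ 1344 :=
          mul_le_mul_of_nonneg_left (pow_le_pow_left₀ hlogz00.le hlogz0 1344) hC2.le
      _ = C5 * (Real.log w) ^ 1344 := by rw [mul_pow, hC5, mul_assoc]
      _ ≤ w := h5
      _ = w ^ (1 : ℤ) := (zpow_one w).symm
      _ ≤ w ^ (3 : ℤ) := zpow_le_zpow_right₀ hw1 (by norm_num)
  have hη0 : 0 ≤ η := sum_nonneg fun p _ => by positivity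
  have hηw : η ≤ w ^ (-35999 : ℤ) := by
    have h9 := sum_sq_prl z0 z (by omega)
    refine h9.trans ?_
    have h10 : (4 : ℝ) / z0 ≤ 4 / w ^ 36000 := div_le_div_of_nonneg_left (by norm_num) (by positivity) hz0lo
    refine h10.trans ?_
    rw [div_le_iff₀ (by positivity)]
    have : w ^ (-35999 : ℤ) * w ^ 36000 = w ^ 1 := by
      rw [← zpow_natCast, ← zpow_natCast, ← zpow_add₀ hw0.ne']; norm_num
    rw [this, pow_one]
    linarith
  set Lq := Real.log (1 / q) with hLq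
  have hqhi : q ≤ w ^ (-2394 : ℤ) := by
    have : q = θ * d0⁻¹ := by rw [hθq]; field_simp
    rw [this]
    exact weak h1 (mulB h1 hθhi hdlo (by rw [hθq]; positivity) (by positivity)) (by norm_num)
  have hqi : 1 / q ≤ w ^ 2403 := by
    have : 1 / q = d0 * θ⁻¹ := by rw [hθq]; field_simp
    rw [this]
    have h9 : (w : ℝ) ^ 2403 = w ^ (2403 : ℤ) := by norm_cast
    rw [h9]
    calc d0 * θ⁻¹ ≤ 1 * θ⁻¹ := mul_le_mul_of_nonneg_right hd1 (by rw [hθq]; positivity)
      _ = θ⁻¹ := one_mul _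
      _ ≤ _ := hθlo
  have hL1 : 1 ≤ Lq := by
    rw [hLq, Real.le_log_iff_exp_le (by positivity)]
    have h9 : Real.exp 1 ≤ 3 := by have := Real.exp_one_lt_d9; linarith
    have h10 : q ≤ 1 / 1000 := by
      refine (hqhi.trans (zpow_le_zpow_right₀ hw1 (by norm_num : (-2394 : ℤ) ≤ -1))).trans ?_
      rw [zpow_neg, zpow_one, ← one_div]
      exact one_div_le_one_div_of_le (by norm_num) h1
    rw [le_div_iff₀ hq0]
    calc Real.exp 1 * q ≤ 3 * (1 / 1000) := mul_le_mul h9 h10 hq0.le (by norm_num)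
      _ ≤ 1 := by norm_num
  have hLw : 8 * Lq ≤ w := by
    have h9 : Lq ≤ 2403 * Real.log w := by
      rw [hLq]
      have := Real.log_le_log (by positivity) hqi
      rwa [Real.log_pow] at this
    rw [pow_one] at h6
    linarith
  set H : ℕ := ⌈4 * Lq / θ⌉₊ with hHdef
  set ℓ : ℕ := ⌈w ^ (400 : ℤ)⌉₊ with hℓdef
  set a0 : ℕ := ⌈2 * d0 * (H : ℝ)⌉₊ with ha0def
  obtain ⟨n1, n2, n3, n4, n5, n6, n7⟩ := numeric (K := K) (η := η) h1 hθq hq0 hq1 hd0' hd1 hθhi hθlo hdlo hK1 hKw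
    hη0 hηw hLq hL1 hLw hHdef hℓdef ha0def
  have hη1 : η ≤ 1 := by
    refine hηw.trans ?_
    have := zpow_le_zpow_right₀ hw1 (by norm_num : (-35999 : ℤ) ≤ 0)
    rwa [zpow_zero] at this
  have hHp : 4 * (H + 1) ≤ z0 := by
    have h9 : (4 * (H + 1) : ℝ) ≤ z0 := by
      refine le_trans ?_ hz0lo
      have h10 : (H : ℝ) ≤ w ^ 2404 := by exact_mod_cast n3
      have h11 : (1 : ℝ) ≤ w ^ 2404 := one_le_pow₀ hw1
      have h12 : w * w ^ 2404 ≤ w ^ 36000 := by
        rw [← pow_succ']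
        exact pow_le_pow_right₀ hw1 (by norm_num)
      refine le_trans ?_ h12
      generalize (w ^ 2404 : ℝ) = Y at h10 h11
      nlinarith only [h10, h11, h1]
    exact_mod_cast h9
  have main := combine (z0 := z0) (z := z) (B := w ^ 1210) (κ := w) (by omega) hz0z hq hd0 hθ hθq hq0 hq1 hd0' hd1
    hK hη hη1 n1 n2 hHp (Nat.le_ceil _) hw0.le n4 (by positivity) n5 n6
  refine main.trans (n7.trans ?_)
  -- final comparison
  rw [← hwX]
  rw [← Real.rpow_natCast w 1200, ← Real.rpow_mul hw0.le, ← Real.rpow_intCast]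
  norm_num

end Pool.Agent.K9h56.TB
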