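import Pool.Agent.K9h56.TB.Thin

set_option autoImplicit false
set_option linter.unusedSectionVars false

/-! Thinning: the comparison of the two averages. -/

namespace Pool.Agent.K9h56.TB

open Finset

variable {R0 R1 : Type*} [CommRing R0] [Fintype R0] [CommRing R1] [Fintype R1]
  {S0 : R0 → ℝ} {S1 : R1 → ℝ} {q η : ℝ}

lemma Ex_S1 {H : ℕ} (hq0 : 0 ≤ q) (hη1 : η ≤ 1) (hT : HT S1 q η H) : Ex S1 ≤ 2 * q := by
  have h := hT {0} (by simp)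
  simp only [prod_singleton, card_singleton, pow_one, Nat.cast_one, Nat.cast_zero, add_zero, one_pow, one_mul] at h
  have h1 := (abs_le.1 h).2
  have h2 : η * q ≤ 1 * q := mul_le_mul_of_nonneg_right hη1 hq0
  have h3 : (Ex fun ω : R1 => S1 ω) = Ex S1 := rfl
  rw [h3] at h1
  linarith

lemma sum_bound {H : ℕ} (hq0 : 0 < q) (hq1 : q ≤ 1) (hη : 0 ≤ η) (hη1 : η ≤ 1) (hT : HT S1 q η H)
    (h0 : ∀ ω, S0 ω = 0 ∨ S0 ω = 1) (h1 : ∀ ω, S1 ω = 0 ∨ S1 ω = 1) {d0 : ℝ} (hd0 : 0 < d0)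
    (hH : 0 < H) (a0 : ℕ) (ha0 : 2 * d0 * H ≤ a0) (ω : R0) :
    |(Ex fun ω1 : R1 => S1 ω1 * uH (ST S0 S1) 1 H (ω, ω1)) - q ^ 2 * uH S0 q H ω| ≤
      ((a0 : ℝ) + 2) ^ 3 * η * q * (1 + q) ^ a0 +
        3 * q / (d0 * H) ^ 4 * (∑ t ∈ range H, (S0 (ω + 1 + (t : R0)) - d0)) ^ 4 := by
  have hH' : (0 : ℝ) < H := by exact_mod_cast hH
  have hne : Nonempty R1 := ⟨0⟩
  have hV : ∑ t ∈ range H, (S0 (ω + 1 + (t : R0)) - d0) = ((pl S0 H ω).card : ℝ) - d0 * H := by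
    rw [sum_sub_distrib, sum_const, card_range, nsmul_eq_mul, card_pl h0]
    ring
  rw [hV]
  rcases le_or_gt (pl S0 H ω).card a0 with hc | hc
  · refine (sum_one hq0.le hη hT h0 ω).trans ?_
    have h2 : ((pl S0 H ω).card : ℝ) ≤ a0 := by exact_mod_cast hc
    have h3 : (1 + q) ^ (pl S0 H ω).card ≤ (1 + q) ^ a0 := pow_le_pow_right₀ (by linarith) hc
    have h5 : 0 ≤ 3 * q / (d0 * H) ^ 4 * (((pl S0 H ω).card : ℝ) - d0 * H) ^ 4 := by positivity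
    have h6 : ((pl S0 H ω).card : ℝ) *
        ((((pl S0 H ω).card : ℝ) + 2) ^ 2 * η * q ^ 2 * (1 + q) ^ (pl S0 H ω).card) ≤
        ((a0 : ℝ) + 2) * (((a0 : ℝ) + 2) ^ 2 * η * q * (1 + q) ^ a0) := by
      have h7 : q ^ 2 ≤ q := by nlinarith
      have h8 : ((pl S0 H ω).card : ℝ) ≤ (a0 : ℝ) + 2 := by linarith
      gcongr
    have h7 : ((a0 : ℝ) + 2) * (((a0 : ℝ) + 2) ^ 2 * η * q * (1 + q) ^ a0) =
        ((a0 : ℝ) + 2) ^ 3 * η * q * (1 + q) ^ a0 := by ring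
    linarith
  · have h2 : |(Ex fun ω1 : R1 => S1 ω1 * uH (ST S0 S1) 1 H (ω, ω1))| ≤ 2 * q := by
      refine (abs_Ex_le _).trans (le_trans (Ex_mono fun ω1 => ?_) (Ex_S1 hq0.le hη1 hT))
      rw [abs_mul, abs_of_nonneg (S_nonneg h1 _)]
      have := abs_uH (ST_zo h0 h1) (by norm_num : (0 : ℝ) < 1) le_rfl H (ω, ω1)
      rw [div_one] at this
      exact mul_le_of_le_one_right (S_nonneg h1 _) this
    have h3 : |q ^ 2 * uH S0 q H ω| ≤ q := by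
      rw [abs_mul, abs_of_nonneg (sq_nonneg _)]
      calc q ^ 2 * |uH S0 q H ω| ≤ q ^ 2 * (1 / q) :=
            mul_le_mul_of_nonneg_left (abs_uH h0 hq0 hq1 H ω) (sq_nonneg _)
        _ = q := by field_simp
    have h4 : 1 ≤ 1 / (d0 * H) ^ 4 * (((pl S0 H ω).card : ℝ) - d0 * H) ^ 4 := by
      rw [one_div_mul_eq_div, one_le_div (by positivity)]
      apply pow_le_pow_left₀ (by positivity)
      have : (a0 : ℝ) ≤ (pl S0 H ω).card := by exact_mod_cast hc.le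
      linarith
    have h5 : 0 ≤ ((a0 : ℝ) + 2) ^ 3 * η * q * (1 + q) ^ a0 := by positivity
    have h6 : 3 * q / (d0 * H) ^ 4 * (((pl S0 H ω).card : ℝ) - d0 * H) ^ 4 =
        3 * q * (1 / (d0 * H) ^ 4 * (((pl S0 H ω).card : ℝ) - d0 * H) ^ 4) := by ring
    rw [h6]
    have h7 : 3 * q * 1 ≤ 3 * q * (1 / (d0 * H) ^ 4 * (((pl S0 H ω).card : ℝ) - d0 * H) ^ 4) :=
      mul_le_mul_of_nonneg_left h4 (by positivity)
    have h8 := abs_sub (Ex fun ω1 : R1 => S1 ω1 * uH (ST S0 S1) 1 H (ω, ω1)) (q ^ 2 * uH S0 q H ω)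
    linarith

lemma tail_bound {H : ℕ} (hq0 : 0 < q) (hq1 : q ≤ 1) (hη : 0 ≤ η) (hη1 : η ≤ 1) (hT : HT S1 q η H)
    (h0 : ∀ ω, S0 ω = 0 ∨ S0 ω = 1) (h1 : ∀ ω, S1 ω = 0 ∨ S1 ω = 1) {d0 : ℝ} (hd0 : 0 < d0)
    (hH : 0 < H) (a0 : ℕ) (ha0 : 2 * d0 * H ≤ a0) (ω : R0) :
    (Ex fun ω1 : R1 => S1 ω1 * PP (ST S0 S1) 1 H (ω, ω1)) ≤
      q * PP S0 q H ω + ((a0 : ℝ) + 2) ^ 3 * η * q * (1 + q) ^ a0 +
        2 * q / (d0 * H) ^ 4 * (∑ t ∈ range H, (S0 (ω + 1 + (t : R0)) - d0)) ^ 4 := by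
  have hH' : (0 : ℝ) < H := by exact_mod_cast hH
  have hne : Nonempty R1 := ⟨0⟩
  have hV : ∑ t ∈ range H, (S0 (ω + 1 + (t : R0)) - d0) = ((pl S0 H ω).card : ℝ) - d0 * H := by
    rw [sum_sub_distrib, sum_const, card_range, nsmul_eq_mul, card_pl h0]
    ring
  rw [hV]
  rcases le_or_gt (pl S0 H ω).card a0 with hc | hc
  · have h := (abs_le.1 (tail_one hq0.le hη hT h0 ω)).2
    have h2 : ((pl S0 H ω).card : ℝ) ≤ a0 := by exact_mod_cast hc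
    have h3 : (1 + q) ^ (pl S0 H ω).card ≤ (1 + q) ^ a0 := pow_le_pow_right₀ (by linarith) hc
    have h5 : 0 ≤ 2 * q / (d0 * H) ^ 4 * (((pl S0 H ω).card : ℝ) - d0 * H) ^ 4 := by positivity
    have h6 : (((pl S0 H ω).card : ℝ) + 1) ^ 2 * η * q * (1 + q) ^ (pl S0 H ω).card ≤
        ((a0 : ℝ) + 2) ^ 3 * η * q * (1 + q) ^ a0 := by
      have h8 : (((pl S0 H ω).card : ℝ) + 1) ^ 2 ≤ ((a0 : ℝ) + 2) ^ 3 := by
        calc (((pl S0 H ω).card : ℝ) + 1) ^ 2 ≤ ((a0 : ℝ) + 2) ^ 2 := by gcongr; norm_num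
          _ ≤ ((a0 : ℝ) + 2) ^ 3 := pow_le_pow_right₀ (by
            have : (0 : ℝ) ≤ a0 := Nat.cast_nonneg _
            linarith) (by norm_num)
      gcongr
    linarith
  · have h2 : (Ex fun ω1 : R1 => S1 ω1 * PP (ST S0 S1) 1 H (ω, ω1)) ≤ 2 * q := by
      refine le_trans (Ex_mono fun ω1 => ?_) (Ex_S1 hq0.le hη1 hT)
      exact mul_le_of_le_one_right (S_nonneg h1 _) (PP_le_one (ST_zo h0 h1) (by norm_num) le_rfl H (ω, ω1))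
    have h4 : 1 ≤ 1 / (d0 * H) ^ 4 * (((pl S0 H ω).card : ℝ) - d0 * H) ^ 4 := by
      rw [one_div_mul_eq_div, one_le_div (by positivity)]
      apply pow_le_pow_left₀ (by positivity)
      have : (a0 : ℝ) ≤ (pl S0 H ω).card := by exact_mod_cast hc.le
      linarith
    have h5 : 0 ≤ ((a0 : ℝ) + 2) ^ 3 * η * q * (1 + q) ^ a0 := by positivity
    have h6 : 2 * q / (d0 * H) ^ 4 * (((pl S0 H ω).card : ℝ) - d0 * H) ^ 4 =
        2 * q * (1 / (d0 * H) ^ 4 * (((pl S0 H ω).card : ℝ) - d0 * H) ^ 4) := by ring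
    rw [h6]
    have h7 : 2 * q * 1 ≤ 2 * q * (1 / (d0 * H) ^ 4 * (((pl S0 H ω).card : ℝ) - d0 * H) ^ 4) :=
      mul_le_mul_of_nonneg_left h4 (by positivity)
    have h8 : 0 ≤ q * PP S0 q H ω := mul_nonneg hq0.le (PP_nonneg h0 hq1 _ _)
    linarith

lemma Ex_V4 {K d0 : ℝ}
    (hV : ∀ n : ℕ, Ex (fun ω : R0 => (∑ t ∈ range n, (S0 (ω + (t : R0)) - d0)) ^ 4) ≤ K * (n : ℝ) ^ 2)
    (H : ℕ) : Ex (fun ω : R0 => (∑ t ∈ range H, (S0 (ω + 1 + (t : R0)) - d0)) ^ 4) ≤ K * (H : ℝ) ^ 2 := by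
  rw [Ex_shift (1 : R0) (fun ω : R0 => (∑ t ∈ range H, (S0 (ω + (t : R0)) - d0)) ^ 4)]
  exact hV H

theorem part_one {H : ℕ} (hq0 : 0 < q) (hq1 : q ≤ 1) (hη : 0 ≤ η) (hη1 : η ≤ 1) (hT : HT S1 q η H)
    (h0 : ∀ ω, S0 ω = 0 ∨ S0 ω = 1) (h1 : ∀ ω, S1 ω = 0 ∨ S1 ω = 1) {K d0 : ℝ} (hd0 : 0 < d0)
    (hV : ∀ n : ℕ, Ex (fun ω : R0 => (∑ t ∈ range n, (S0 (ω + (t : R0)) - d0)) ^ 4) ≤ K * (n : ℝ) ^ 2)
    (hH : 0 < H) (a0 : ℕ) (ha0 : 2 * d0 * H ≤ a0) :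
    |(Ex fun ω : R0 × R1 => ST S0 S1 ω * uu (ST S0 S1) 1 ω) - q ^ 2 * Ex fun ω : R0 => S0 ω * uu S0 q ω| ≤
      2 * (((a0 : ℝ) + 2) ^ 3 * η * q * (1 + q) ^ a0) + 2 * q * Real.exp (- (q * d0 * H / 2)) +
        37 * q * K / (d0 ^ 4 * (H : ℝ) ^ 2) := by
  have hH' : (0 : ℝ) < H := by exact_mod_cast hH
  have hne : Nonempty R1 := ⟨0⟩
  have hne0 : Nonempty R0 := ⟨0⟩
  have hne' : Nonempty (R0 × R1) := ⟨0⟩
  have hP := Ex_PP h0 hq0 hq1 hd0 hV H hH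
  have hV4 := Ex_V4 hV H
  set E := ((a0 : ℝ) + 2) ^ 3 * η * q * (1 + q) ^ a0 with hE
  have hE0 : 0 ≤ E := by positivity
  -- first difference
  have b1 : |(Ex fun ω : R0 × R1 => ST S0 S1 ω * uu (ST S0 S1) 1 ω) -
      (Ex fun ω : R0 × R1 => ST S0 S1 ω * uH (ST S0 S1) 1 H ω)| ≤
      q * (Ex fun ω : R0 => PP S0 q H ω) + E + 2 * q / (d0 * H) ^ 4 * (K * (H : ℝ) ^ 2) := by
    rw [← Ex_sub]
    refine (abs_Ex_le _).trans ?_
    have h2 : ∀ ω : R0 × R1, |ST S0 S1 ω * uu (ST S0 S1) 1 ω - ST S0 S1 ω * uH (ST S0 S1) 1 H ω| ≤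
        S1 ω.2 * PP (ST S0 S1) 1 H ω := by
      intro ω
      rw [← mul_sub, abs_mul, abs_of_nonneg (S_nonneg (ST_zo h0 h1) _)]
      have h3 := uu_sub (ST_zo h0 h1) (by norm_num : (0 : ℝ) < 1) le_rfl H ω
      rw [div_one] at h3
      apply mul_le_mul _ h3 (abs_nonneg _) (S_nonneg h1 _)
      unfold ST
      exact mul_le_of_le_one_left (S_nonneg h1 _) (S_le h0 _)
    refine (Ex_mono h2).trans ?_
    rw [Ex_prod]
    have h3 : ∀ ω : R0, (Ex fun ω1 : R1 => S1 (ω, ω1).2 * PP (ST S0 S1) 1 H (ω, ω1)) ≤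
        q * PP S0 q H ω + E + 2 * q / (d0 * H) ^ 4 * (∑ t ∈ range H, (S0 (ω + 1 + (t : R0)) - d0)) ^ 4 :=
      fun ω => tail_bound hq0 hq1 hη hη1 hT h0 h1 hd0 hH a0 ha0 ω
    refine (Ex_mono h3).trans ?_
    rw [Ex_add, Ex_add, Ex_const, Ex_mul_left, Ex_mul_left]
    have h4 := mul_le_mul_of_nonneg_left hV4 (show 0 ≤ 2 * q / (d0 * H) ^ 4 by positivity)
    linarith
  have b2 : |(Ex fun ω : R0 × R1 => ST S0 S1 ω * uH (ST S0 S1) 1 H ω) -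
      q ^ 2 * (Ex fun ω : R0 => S0 ω * uH S0 q H ω)| ≤ E + 3 * q / (d0 * H) ^ 4 * (K * (H : ℝ) ^ 2) := by
    rw [Ex_prod, ← Ex_mul_left, ← Ex_sub]
    refine (abs_Ex_le _).trans ?_
    have h3 : ∀ ω : R0, |(Ex fun ω1 : R1 => ST S0 S1 (ω, ω1) * uH (ST S0 S1) 1 H (ω, ω1)) -
        q ^ 2 * (S0 ω * uH S0 q H ω)| ≤
        E + 3 * q / (d0 * H) ^ 4 * (∑ t ∈ range H, (S0 (ω + 1 + (t : R0)) - d0)) ^ 4 := by
      intro ω
      have h4 := sum_bound hq0 hq1 hη hη1 hT h0 h1 hd0 hH a0 ha0 ω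
      have h5 : (Ex fun ω1 : R1 => ST S0 S1 (ω, ω1) * uH (ST S0 S1) 1 H (ω, ω1)) -
          q ^ 2 * (S0 ω * uH S0 q H ω) =
          S0 ω * ((Ex fun ω1 : R1 => S1 ω1 * uH (ST S0 S1) 1 H (ω, ω1)) - q ^ 2 * uH S0 q H ω) := by
        rw [mul_sub, ← Ex_mul_left]
        congr 1
        · apply Ex_congr
          intro ω1
          unfold ST
          ring
        · ring
      rw [h5, abs_mul, abs_of_nonneg (S_nonneg h0 _)]
      refine le_trans ?_ h4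
      exact mul_le_of_le_one_left (abs_nonneg _) (S_le h0 _)
    refine (Ex_mono h3).trans ?_
    rw [Ex_add, Ex_const, Ex_mul_left]
    have h4 := mul_le_mul_of_nonneg_left hV4 (show 0 ≤ 3 * q / (d0 * H) ^ 4 by positivity)
    linarith
  have b3 : |q ^ 2 * (Ex fun ω : R0 => S0 ω * uH S0 q H ω) - q ^ 2 * (Ex fun ω : R0 => S0 ω * uu S0 q ω)| ≤
      q * (Ex fun ω : R0 => PP S0 q H ω) := by
    rw [← mul_sub, ← Ex_sub, abs_mul, abs_of_nonneg (sq_nonneg _)]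
    have h2 : |Ex fun ω : R0 => S0 ω * uH S0 q H ω - S0 ω * uu S0 q ω| ≤ (Ex fun ω : R0 => PP S0 q H ω) / q := by
      refine (abs_Ex_le _).trans ?_
      rw [div_eq_mul_inv, ← Ex_mul_right]
      apply Ex_mono
      intro ω
      rw [← mul_sub, abs_mul, abs_of_nonneg (S_nonneg h0 _), abs_sub_comm, ← div_eq_mul_inv]
      exact (mul_le_of_le_one_left (abs_nonneg _) (S_le h0 _)).trans (uu_sub h0 hq0 hq1 H ω)
    calc q ^ 2 * _ ≤ q ^ 2 * ((Ex fun ω : R0 => PP S0 q H ω) / q) := mul_le_mul_of_nonneg_left h2 (sq_nonneg _)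
      _ = _ := by field_simp
  have htri : ∀ a b c d x y w : ℝ, |a - b| ≤ x → |b - c| ≤ y → |c - d| ≤ w → |a - d| ≤ x + y + w := by
    intro a b c d x y w h2 h3 h4
    have : a - d = (a - b) + (b - c) + (c - d) := by ring
    rw [this]
    exact (abs_add_le _ _).trans (add_le_add ((abs_add_le _ _).trans (add_le_add h2 h3)) h4)
  refine (htri _ _ _ _ _ _ _ b1 b2 b3).trans ?_
  have h5 : ∀ c : ℝ, c * q / (d0 * H) ^ 4 * (K * (H : ℝ) ^ 2) = c * (q * K / (d0 ^ 4 * (H : ℝ) ^ 2)) := by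
    intro c; field_simp
  rw [h5, h5]
  have h6 : q * (Ex fun ω : R0 => PP S0 q H ω) ≤
      q * (Real.exp (- (q * d0 * H / 2)) + 16 * K / (d0 ^ 4 * (H : ℝ) ^ 2)) :=
    mul_le_mul_of_nonneg_left hP hq0.le
  have h7 : q * (Real.exp (- (q * d0 * H / 2)) + 16 * K / (d0 ^ 4 * (H : ℝ) ^ 2)) =
      q * Real.exp (- (q * d0 * H / 2)) + 16 * (q * K / (d0 ^ 4 * (H : ℝ) ^ 2)) := by ring
  have h8 : 37 * q * K / (d0 ^ 4 * (H : ℝ) ^ 2) = 37 * (q * K / (d0 ^ 4 * (H : ℝ) ^ 2)) := by ring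
  rw [h8]
  linarith

/-- pair correlations -/
lemma rh_ST {H : ℕ} (hT : HT S1 q η H) (h0 : ∀ ω, S0 ω = 0 ∨ S0 ω = 1) (k : ℕ) (hk : 0 < k) (hkH : k ≤ H) :
    |rh (ST S0 S1) k - q ^ 2 * rh S0 k| ≤ 4 * η * q ^ 2 := by
  have hne0 : Nonempty R0 := ⟨0⟩
  have h := hT {0, k} (by
    intro j hj
    simp only [mem_insert, mem_singleton] at hj
    rw [mem_range]
    omega)
  have hcard : ({0, k} : Finset ℕ).card = 2 := by
    rw [card_pair]; omega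
  rw [hcard] at h
  have e1 : (Ex fun ω1 : R1 => ∏ j ∈ ({0, k} : Finset ℕ), S1 (ω1 + (j : R1))) = rh S1 k := by
    apply Ex_congr
    intro ω1
    rw [prod_pair (by omega)]
    simp
  rw [e1] at h
  have e2 : rh (ST S0 S1) k = rh S0 k * rh S1 k := by
    unfold rh
    rw [Ex_prod, ← Ex_mul_right]
    apply Ex_congr
    intro ω
    rw [← Ex_mul_left]
    apply Ex_congr
    intro ω1
    rw [ST_shift]
    unfold ST
    ring
  rw [e2]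
  have e3 : rh S0 k * rh S1 k - q ^ 2 * rh S0 k = rh S0 k * (rh S1 k - q ^ 2) := by ring
  have h3 : 0 ≤ rh S0 k := Ex_nonneg fun ω => mul_nonneg (S_nonneg h0 _) (S_nonneg h0 _)
  have h4 : rh S0 k ≤ 1 := by
    have : rh S0 k ≤ Ex fun _ : R0 => (1 : ℝ) :=
      Ex_mono fun ω => mul_le_one₀ (S_le h0 _) (S_nonneg h0 _) (S_le h0 _)
    rwa [Ex_const] at this
  rw [e3, abs_mul, abs_of_nonneg h3]
  calc rh S0 k * |rh S1 k - q ^ 2| ≤ 1 * |rh S1 k - q ^ 2| := mul_le_mul_of_nonneg_right h4 (abs_nonneg _)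
    _ = |rh S1 k - q ^ 2| := one_mul _
    _ ≤ _ := h
    _ = _ := by push_cast; ring

end Pool.Agent.K9h56.TB
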