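import Pool.Agent.K9h56.TB.Four2
import Pool.Agent.K9h56.TB.Thin2

set_option autoImplicit false
set_option linter.unusedSectionVars false

/-! Correlations of the sifted set. -/

namespace Pool.Agent.K9h56.TB

open Finset

variable {ι : Type*} [Fintype ι] [DecidableEq ι] {p : ι → ℕ} [∀ i, NeZero (p i)]

lemma Ex_pi (f : ∀ i, ZMod (p i) → ℝ) :
    Ex (fun ω : ∀ i, ZMod (p i) => ∏ i, f i (ω i)) = ∏ i, Ex (f i) := by
  unfold Ex
  rw [prod_div_distrib, Fintype.card_pi]
  push_cast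
  congr 1
  have := (prod_univ_sum (fun i => (univ : Finset (ZMod (p i)))) (fun i x => f i x)).symm
  rw [Fintype.piFinset_univ] at this
  exact this

lemma SS_zo (a b : ∀ i, ZMod (p i)) (s : Finset ι) (ω : ∀ i, ZMod (p i)) :
    SS a b s ω = 0 ∨ SS a b s ω = 1 := by
  have h := SS_sq a b s ω
  have : SS a b s ω * (SS a b s ω - 1) = 0 := by rw [mul_sub, h]; ring
  rcases mul_eq_zero.1 this with h | h
  · left; exact h
  · right; linarith

lemma avg_gd {m : ℕ} [NeZero m] (a b : ZMod m) (B : Finset ℕ)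
    (hinj : ∀ j ∈ B, ∀ k ∈ B, (j : ZMod m) = (k : ZMod m) → j = k)
    (hab : ∀ j ∈ B, ∀ k ∈ B, a - (j : ZMod m) ≠ b - (k : ZMod m)) :
    Ex (fun x : ZMod m => ∏ j ∈ B, gd a b (x + (j : ZMod m))) = 1 - 2 * (B.card : ℝ) / m := by
  classical
  have hm : (m : ℝ) ≠ 0 := by exact_mod_cast NeZero.ne m
  set T : Finset (ZMod m) := (B.image fun j : ℕ => a - (j : ZMod m)) ∪ (B.image fun j : ℕ => b - (j : ZMod m)) with hT
  have h1 : ∀ x : ZMod m, ∏ j ∈ B, gd a b (x + (j : ZMod m)) = if x ∈ T then 0 else 1 := by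
    intro x
    split_ifs with h
    · rw [hT, mem_union, mem_image, mem_image] at h
      rcases h with ⟨j, hj, h⟩ | ⟨j, hj, h⟩
      · apply prod_eq_zero hj
        unfold gd
        rw [if_pos]
        left; rw [← h]; ring
      · apply prod_eq_zero hj
        unfold gd
        rw [if_pos]
        right; rw [← h]; ring
    · apply prod_eq_one
      intro j hj
      unfold gd
      rw [if_neg]
      rintro (h2 | h2)
      · exact h (by rw [hT, mem_union, mem_image]; left; exact ⟨j, hj, by rw [← h2]; ring⟩)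
      · exact h (by rw [hT, mem_union, mem_image, mem_image]; right; exact ⟨j, hj, by rw [← h2]; ring⟩)
  have h2 : T.card = 2 * B.card := by
    rw [hT, card_union_of_disjoint, card_image_of_injOn, card_image_of_injOn]
    · ring
    · intro j hj k hk h
      exact hinj j hj k hk (by simpa using h)
    · intro j hj k hk h
      exact hinj j hj k hk (by simpa using h)
    · rw [disjoint_left]
      intro x hx hx'
      rw [mem_image] at hx hx'
      obtain ⟨j, hj, h⟩ := hx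
      obtain ⟨k, hk, h'⟩ := hx'
      exact hab j hj k hk (h.trans h'.symm)
  unfold Ex
  simp_rw [h1]
  have h3 : ∑ x : ZMod m, (if x ∈ T then (0 : ℝ) else 1) = (m : ℝ) - 2 * B.card := by
    have h4 : ∀ x : ZMod m, (if x ∈ T then (0 : ℝ) else 1) = 1 - if x ∈ T then 1 else 0 := by
      intro x; split_ifs <;> norm_num
    simp_rw [h4]
    rw [sum_sub_distrib, sum_const, card_univ, ZMod.card, nsmul_eq_mul, mul_one, sum_boole]
    congr 1
    rw [filter_mem_eq_inter, univ_inter, h2]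
    push_cast
    ring
  rw [h3, ZMod.card]
  field_simp

/-- the correlations of the sifted set -/
lemma corr (a b : ∀ i, ZMod (p i)) (B : Finset ℕ)
    (hinj : ∀ i, ∀ j ∈ B, ∀ k ∈ B, (j : ZMod (p i)) = (k : ZMod (p i)) → j = k)
    (hab : ∀ i, ∀ j ∈ B, ∀ k ∈ B, a i - (j : ZMod (p i)) ≠ b i - (k : ZMod (p i))) :
    Ex (fun ω : ∀ i, ZMod (p i) => ∏ j ∈ B, SS a b univ (ω + ((j : ℕ) : ∀ i, ZMod (p i)))) =
      ∏ i, (1 - 2 * (B.card : ℝ) / (p i : ℝ)) := by
  have h1 : ∀ ω : ∀ i, ZMod (p i), ∏ j ∈ B, SS a b univ (ω + ((j : ℕ) : ∀ i, ZMod (p i))) =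
      ∏ i, ∏ j ∈ B, gd (a i) (b i) (ω i + (j : ZMod (p i))) := by
    intro ω
    unfold SS
    rw [prod_comm]
    simp
  simp_rw [h1]
  rw [Ex_pi (fun i x => ∏ j ∈ B, gd (a i) (b i) (x + (j : ZMod (p i))))]
  apply prod_congr rfl
  intro i _
  exact avg_gd (a i) (b i) B (hinj i) (hab i)

lemma bern_upper (x : ℝ) (h0 : 0 ≤ x) (h1 : x ≤ 1) (b : ℕ) :
    (1 - x) ^ b ≤ 1 - b * x + (b : ℝ) ^ 2 * x ^ 2 / 2 := by
  induction b with
  | zero => simp
  | succ b ih =>
    rw [pow_succ]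
    calc (1 - x) ^ b * (1 - x) ≤ (1 - b * x + (b : ℝ) ^ 2 * x ^ 2 / 2) * (1 - x) :=
          mul_le_mul_of_nonneg_right ih (by linarith)
      _ ≤ _ := by
        push_cast
        have : 0 ≤ (b : ℝ) ^ 2 * x ^ 3 := by positivity
        nlinarith [sq_nonneg x]

lemma bern_lower (x : ℝ) (h1 : x ≤ 1) (b : ℕ) : 1 - b * x ≤ (1 - x) ^ b := by
  have := one_add_mul_le_pow (a := -x) (by linarith) b
  rw [← sub_eq_add_neg] at this
  linarith

lemma bern_ratio (x : ℝ) (h0 : 0 ≤ x) (b : ℕ) (hb : b * x ≤ 1 / 2) (hx : x ≤ 1) :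
    (1 - x) ^ b * (1 - (b : ℝ) ^ 2 * x ^ 2) ≤ 1 - b * x := by
  have h1 := bern_upper x h0 hx b
  have h2 := bern_lower x hx b
  have h3 : 1 / 2 ≤ (1 - x) ^ b := by linarith
  have h4 : (b : ℝ) ^ 2 * x ^ 2 * (1 / 2) ≤ (b : ℝ) ^ 2 * x ^ 2 * (1 - x) ^ b :=
    mul_le_mul_of_nonneg_left h3 (by positivity)
  nlinarith

lemma prod_one_sub (y : ι → ℝ) (s : Finset ι) (h0 : ∀ i, 0 ≤ y i) (h1 : ∀ i, y i ≤ 1) :
    1 - ∑ i ∈ s, y i ≤ ∏ i ∈ s, (1 - y i) := by
  induction s using Finset.induction_on with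
  | empty => simp
  | insert i s hi ih =>
    rw [sum_insert hi, prod_insert hi]
    have h2 : 0 ≤ ∏ i ∈ s, (1 - y i) := prod_nonneg fun i _ => by linarith [h1 i]
    have h3 : ∏ i ∈ s, (1 - y i) ≤ 1 := prod_le_one (fun i _ => by linarith [h1 i]) (fun i _ => by linarith [h0 i])
    have h4 : 0 ≤ ∑ i ∈ s, y i := sum_nonneg fun i _ => h0 i
    nlinarith [h0 i, h1 i]

/-- the large primes -/
theorem HT_SS (a b : ∀ i, ZMod (p i)) (H : ℕ) (hp : ∀ i, 4 * (H + 1) ≤ p i)
    (hab : ∀ i, ∀ j ≤ H, ∀ k ≤ H, a i - (j : ZMod (p i)) ≠ b i - (k : ZMod (p i))) :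
    HT (SS a b univ) (dl p univ) (∑ i, 4 / (p i : ℝ) ^ 2) H := by
  intro B hB
  have hBH : B.card ≤ H + 1 := by simpa using card_le_card hB
  have hpos : ∀ i, (0 : ℝ) < p i := by
    intro i
    have := hp i
    exact_mod_cast (by omega : 0 < p i)
  rw [corr a b B (fun i j hj k hk h => by
      have hj' := mem_range.1 (hB hj)
      have hk' := mem_range.1 (hB hk)
      have hpi := hp i
      have h2 := congrArg ZMod.val h
      rwa [ZMod.val_natCast_of_lt (by omega), ZMod.val_natCast_of_lt (by omega)] at h2)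
    (fun i j hj k hk => hab i j (by have := mem_range.1 (hB hj); omega) k (by have := mem_range.1 (hB hk); omega))]
  have hx0 : ∀ i, 0 ≤ 2 / (p i : ℝ) := fun i => by positivity
  have hbx : ∀ i, (B.card : ℝ) * (2 / (p i : ℝ)) ≤ 1 / 2 := by
    intro i
    have h1 := hp i
    have h2 : 4 * B.card ≤ p i := by omega
    have h3 : 4 * (B.card : ℝ) ≤ p i := by exact_mod_cast h2
    rw [← mul_div_assoc, div_le_iff₀ (hpos i)]
    linarith
  have hx1 : ∀ i, 2 / (p i : ℝ) ≤ 1 := by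
    intro i
    have h1 := hp i
    have h3 : (2 : ℝ) ≤ p i := by exact_mod_cast (by omega : 2 ≤ p i)
    rw [div_le_one (hpos i)]
    exact h3
  have e1 : ∀ i, 1 - 2 * (B.card : ℝ) / (p i : ℝ) = 1 - B.card * (2 / (p i : ℝ)) := by
    intro i; ring
  simp_rw [e1]
  have hq0 : 0 ≤ dl p univ := prod_nonneg fun i _ => by linarith [hx1 i]
  have up : ∏ i, (1 - B.card * (2 / (p i : ℝ))) ≤ dl p univ ^ B.card := by
    unfold dl
    rw [← prod_pow]
    apply prod_le_prod
    · intro i _; linarith [hbx i]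
    · intro i _; exact bern_lower _ (hx1 i) _
  have lo : dl p univ ^ B.card * (1 - (B.card : ℝ) ^ 2 * ∑ i, 4 / (p i : ℝ) ^ 2) ≤
      ∏ i, (1 - B.card * (2 / (p i : ℝ))) := by
    have h1 : ∏ i, ((1 - 2 / (p i : ℝ)) ^ B.card * (1 - (B.card : ℝ) ^ 2 * (2 / (p i : ℝ)) ^ 2)) ≤
        ∏ i, (1 - B.card * (2 / (p i : ℝ))) := by
      apply prod_le_prod
      · intro i _
        apply mul_nonneg (pow_nonneg (by linarith [hx1 i]) _)
        have := hbx i
        have h2 : ((B.card : ℝ) * (2 / (p i : ℝ))) ^ 2 ≤ (1 / 2) ^ 2 := pow_le_pow_left₀ (by positivity) this 2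
        nlinarith
      · intro i _
        exact bern_ratio _ (hx0 i) _ (hbx i) (hx1 i)
    rw [prod_mul_distrib, prod_pow] at h1
    refine le_trans ?_ h1
    unfold dl
    apply mul_le_mul_of_nonneg_left _ (pow_nonneg (prod_nonneg fun i _ => by linarith [hx1 i]) _)
    have h2 := prod_one_sub (fun i => (B.card : ℝ) ^ 2 * (2 / (p i : ℝ)) ^ 2) univ (fun i => by positivity)
      (fun i => by
        have := hbx i
        have h2 : ((B.card : ℝ) * (2 / (p i : ℝ))) ^ 2 ≤ (1 / 2) ^ 2 := pow_le_pow_left₀ (by positivity) this 2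
        nlinarith)
    refine le_trans (le_of_eq ?_) h2
    rw [← mul_sum]
    congr 3
    funext i
    rw [div_pow]; norm_num
  rw [abs_le]
  constructor
  · nlinarith
  · have : 0 ≤ (B.card : ℝ) ^ 2 * (∑ i, 4 / (p i : ℝ) ^ 2) * dl p univ ^ B.card :=
      mul_nonneg (mul_nonneg (by positivity) (sum_nonneg fun i _ => by positivity)) (pow_nonneg hq0 _)
    linarith

end Pool.Agent.K9h56.TB
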