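import Pool.Agent.K9h56.TB.Bridge

set_option autoImplicit false
set_option linter.unusedSectionVars false
set_option linter.style.haveILetI false

/-! The pair correlations and the gap function. -/

namespace Pool.Agent.K9h56.TB

open Finset

/-- the number of forbidden classes modulo `p` of the pair -/
def nu (p k : ℕ) : ℕ := if p ∣ k then 2 else if p ∣ 3 * k + 1 ∨ p ∣ 3 * k - 1 then 3 else 4

/-- the pair correlation -/
noncomputable def rz (s : Finset ℕ) (k : ℕ) : ℝ := ∏ p ∈ s, (1 - (nu p k : ℝ) / p)

lemma avg_pair {p : ℕ} (hp : p.Prime) (h5 : 5 ≤ p) (k : ℕ) (hk : 0 < k) : haveI : NeZero p := ⟨hp.ne_zero⟩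
    Ex (fun x : ZMod p => gd (-5 * 6⁻¹) (-7 * 6⁻¹) x * gd (-5 * 6⁻¹) (-7 * 6⁻¹) (x + (k : ZMod p))) =
      1 - (nu p k : ℝ) / p := by
  haveI : NeZero p := ⟨hp.ne_zero⟩
  haveI := Fact.mk hp
  classical
  have hab := av_ne_bv hp h5
  have h6 := six_mul hp h5
  set a : ZMod p := -5 * 6⁻¹ with ha
  set b : ZMod p := -7 * 6⁻¹ with hb
  have hpr : (p : ℝ) ≠ 0 := by exact_mod_cast hp.ne_zero
  have hd : 3 * (a - b) = 1 := by
    rw [ha, hb]; linear_combination h6
  have h2 : (2 : ZMod p) ≠ 0 := by
    intro h3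
    have h4 : ((2 : ℕ) : ZMod p) = 0 := by exact_mod_cast h3
    rw [ZMod.natCast_eq_zero_iff] at h4
    have := Nat.le_of_dvd (by norm_num) h4
    omega
  set T : Finset (ZMod p) := {a, b, a - (k : ZMod p), b - (k : ZMod p)} with hT
  have e1 : ∀ x : ZMod p, gd a b x * gd a b (x + (k : ZMod p)) = if x ∈ T then 0 else 1 := by
    intro x
    by_cases hx : x ∈ T
    · rw [if_pos hx]
      rw [hT, mem_insert, mem_insert, mem_insert, mem_singleton] at hx
      rcases hx with h | h | h | h
      · rw [show gd a b x = 0 from by unfold gd; rw [if_pos (Or.inl h)], zero_mul]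
      · rw [show gd a b x = 0 from by unfold gd; rw [if_pos (Or.inr h)], zero_mul]
      · rw [show gd a b (x + (k : ZMod p)) = 0 from by unfold gd; rw [if_pos (Or.inl (by rw [h]; ring))], mul_zero]
      · rw [show gd a b (x + (k : ZMod p)) = 0 from by unfold gd; rw [if_pos (Or.inr (by rw [h]; ring))], mul_zero]
    · rw [if_neg hx]
      rw [hT, mem_insert, mem_insert, mem_insert, mem_singleton] at hx
      push Not at hx
      obtain ⟨h1, h2, h3, h4⟩ := hx
      unfold gd
      rw [if_neg, if_neg, one_mul]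
      · rintro (h | h)
        · exact h3 (by rw [← h]; ring)
        · exact h4 (by rw [← h]; ring)
      · rintro (h | h)
        · exact h1 h
        · exact h2 h
  have e2 : T.card = nu p k := by
    by_cases hk0 : p ∣ k
    · have hk1 : (k : ZMod p) = 0 := (ZMod.natCast_eq_zero_iff _ _).2 hk0
      have : T = {a, b} := by
        rw [hT, hk1, sub_zero, sub_zero]
        ext x
        simp only [mem_insert, mem_singleton]
        tauto
      rw [this, card_pair hab]
      unfold nu
      rw [if_pos hk0]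
    · have hk1 : (k : ZMod p) ≠ 0 := fun h => hk0 ((ZMod.natCast_eq_zero_iff _ _).1 h)
      have n1 : a ≠ a - (k : ZMod p) := fun h => hk1 (by linear_combination h)
      have n2 : b ≠ b - (k : ZMod p) := fun h => hk1 (by linear_combination h)
      have n3 : a - (k : ZMod p) ≠ b - (k : ZMod p) := fun h => hab (by linear_combination h)
      by_cases hc1 : p ∣ 3 * k + 1
      · have h3 : (3 : ZMod p) * k + 1 = 0 := by
          have := (ZMod.natCast_eq_zero_iff (3 * k + 1) p).2 hc1
          push_cast at this; exact this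
        have h30 : (3 : ZMod p) ≠ 0 := fun h => by rw [h] at hd; simp at hd
        have e3 : b - (k : ZMod p) = a := by
          apply mul_left_cancel₀ h30
          linear_combination - hd - h3
        have n4 : b ≠ a - (k : ZMod p) := by
          intro h
          apply h2
          linear_combination (-3) * h - hd + h3
        have : T = {a, b, a - (k : ZMod p)} := by
          rw [hT, e3]
          ext x
          simp only [mem_insert, mem_singleton]
          tauto
        rw [this, card_insert_of_notMem, card_pair n4]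
        · unfold nu
          rw [if_neg hk0, if_pos (Or.inl hc1)]
        · rw [mem_insert, mem_singleton]
          push Not
          exact ⟨hab, n1⟩
      · have n5 : a ≠ b - (k : ZMod p) := by
          intro h
          apply hc1
          rw [← ZMod.natCast_eq_zero_iff]
          push_cast
          linear_combination 3 * h - hd
        by_cases hc2 : p ∣ 3 * k - 1
        · have h3 : (3 : ZMod p) * k - 1 = 0 := by
            have := (ZMod.natCast_eq_zero_iff (3 * k - 1) p).2 hc2
            rw [Nat.cast_sub (by omega)] at this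
            push_cast at this; exact this
          have h30 : (3 : ZMod p) ≠ 0 := fun h => by rw [h] at hd; simp at hd
          have e3 : a - (k : ZMod p) = b := by
            apply mul_left_cancel₀ h30
            linear_combination hd - h3
          have : T = {a, b, b - (k : ZMod p)} := by
            rw [hT, e3]
            ext x
            simp only [mem_insert, mem_singleton]
            tauto
          rw [this, card_insert_of_notMem, card_pair n2]
          · unfold nu
            rw [if_neg hk0, if_pos (Or.inr hc2)]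
          · rw [mem_insert, mem_singleton]
            push Not
            exact ⟨hab, n5⟩
        · have n6 : b ≠ a - (k : ZMod p) := by
            intro h
            apply hc2
            rw [← ZMod.natCast_eq_zero_iff, Nat.cast_sub (by omega)]
            push_cast
            linear_combination 3 * h + hd
          rw [hT, card_insert_of_notMem, card_insert_of_notMem, card_pair n3]
          · unfold nu
            rw [if_neg hk0, if_neg (by tauto)]
          · rw [mem_insert, mem_singleton]
            push Not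
            exact ⟨n6, n2⟩
          · rw [mem_insert, mem_insert, mem_singleton]
            push Not
            exact ⟨hab, n1, n5⟩
  unfold Ex
  simp_rw [e1]
  have h3 : ∑ x : ZMod p, (if x ∈ T then (0 : ℝ) else 1) = (p : ℝ) - nu p k := by
    have h4 : ∀ x : ZMod p, (if x ∈ T then (0 : ℝ) else 1) = 1 - if x ∈ T then 1 else 0 := by
      intro x; split_ifs <;> norm_num
    simp_rw [h4]
    rw [sum_sub_distrib, sum_const, card_univ, ZMod.card, nsmul_eq_mul, mul_one, sum_boole]
    congr 1
    rw [filter_mem_eq_inter, univ_inter, e2]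
  rw [h3, ZMod.card]
  field_simp

lemma rh_SS {s : Finset ℕ} (hs : IsPr s) (k : ℕ) (hk : 0 < k) : haveI := neZero_of hs
    rh (SS (av s) (bv s) univ) k = rz s k := by
  haveI := neZero_of hs
  unfold rh rz
  have h1 : ∀ ω : RR s, SS (av s) (bv s) univ ω * SS (av s) (bv s) univ (ω + (k : RR s)) =
      ∏ i : ↥s, (gd (-5 * 6⁻¹) (-7 * 6⁻¹) (ω i) * gd (-5 * 6⁻¹) (-7 * 6⁻¹) (ω i + ((k : ℕ) : ZMod (i : ℕ)))) := by
    intro ω
    unfold SS
    rw [← prod_mul_distrib]
    rfl
  simp_rw [h1]
  rw [Ex_pi (p := fun i : ↥s => (i : ℕ)) (fun i x => gd (-5 * 6⁻¹) (-7 * 6⁻¹) x *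
    gd (-5 * 6⁻¹) (-7 * 6⁻¹) (x + ((k : ℕ) : ZMod (i : ℕ))))]
  rw [← dl_eq (fun p => 1 - (nu p k : ℝ) / p)]
  apply prod_congr rfl
  intro i _
  exact avg_pair (hs i i.2).1 (hs i i.2).2 k hk

lemma Ex_SS {s : Finset ℕ} (hs : IsPr s) : haveI := neZero_of hs
    Ex (SS (av s) (bv s) univ : RR s → ℝ) = ∏ p ∈ s, (1 - 2 / (p : ℝ)) := by
  haveI := neZero_of hs
  have h := corr (p := fun i : ↥s => (i : ℕ)) (av s) (bv s) {0}
    (fun i j hj k hk _ => by rw [mem_singleton] at hj hk; rw [hj, hk])
    (fun i j hj k hk => by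
      rw [mem_singleton] at hj hk
      rw [hj, hk]
      have := av_ne_bv (hs i i.2).1 (hs i i.2).2
      simpa [av, bv] using this)
  simp only [prod_singleton, card_singleton, Nat.cast_one, mul_one, Nat.cast_zero, add_zero] at h
  rw [dl_eq (fun p => 1 - 2 / (p : ℝ))] at h
  exact h

lemma rh_prod {R0 R1 : Type*} [CommRing R0] [Fintype R0] [CommRing R1] [Fintype R1]
    (S0 : R0 → ℝ) (S1 : R1 → ℝ) (k : ℕ) : rh (ST S0 S1) k = rh S0 k * rh S1 k := by
  unfold rh
  rw [Ex_prod, ← Ex_mul_right]
  apply Ex_congr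
  intro ω
  rw [← Ex_mul_left]
  apply Ex_congr
  intro ω1
  rw [ST_shift]
  unfold ST
  ring

/-! ### The gap function -/

lemma pr5_union {z0 z : ℕ} (h4 : 4 ≤ z0) (h : z0 ≤ z) : pr5 z = pr5 z0 ∪ prl z0 z := by
  ext p
  rw [mem_union, mem_pr5, mem_pr5, mem_prl]
  constructor
  · rintro ⟨h1, h2, h3⟩
    rcases le_or_gt p z0 with h | h
    · left; exact ⟨h1, h, h3⟩
    · right; exact ⟨h, h2, h3⟩
  · rintro (⟨h1, h2, h3⟩ | ⟨h1, h2, h3⟩)
    · exact ⟨h1, by omega, h3⟩
    · exact ⟨by omega, h2, h3⟩

lemma pr5_disj (z0 z : ℕ) : Disjoint (pr5 z0) (prl z0 z) := by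
  rw [disjoint_left]
  intro p hp hp'
  rw [mem_pr5] at hp
  rw [mem_prl] at hp'
  omega

lemma good_union {s t : Finset ℕ} (m : ℕ) : Good (s ∪ t) m ↔ Good s m ∧ Good t m := by
  unfold Good
  constructor
  · intro h
    exact ⟨fun p hp => h p (mem_union_left _ hp), fun p hp => h p (mem_union_right _ hp)⟩
  · rintro ⟨h1, h2⟩ p hp
    rcases mem_union.1 hp with hp | hp
    · exact h1 p hp
    · exact h2 p hp

lemma good_add {s : Finset ℕ} (m t : ℕ) : Good s (m + (∏ p ∈ s, p) * t) ↔ Good s m := by
  unfold Good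
  apply forall_congr'
  intro p
  apply imp_congr_right
  intro hp
  have hd : p ∣ 6 * ((∏ p ∈ s, p) * t) := (dvd_mul_of_dvd_left (dvd_prod_of_mem _ hp) _).mul_left _
  have e1 : 6 * (m + (∏ p ∈ s, p) * t) + 5 = 6 * ((∏ p ∈ s, p) * t) + (6 * m + 5) := by ring
  have e2 : 6 * (m + (∏ p ∈ s, p) * t) + 7 = 6 * ((∏ p ∈ s, p) * t) + (6 * m + 7) := by ring
  rw [e1, e2, Nat.dvd_add_right hd, Nat.dvd_add_right hd]

lemma good_exists {s : Finset ℕ} (hs : IsPr s) (m : ℕ) : ∃ h, 0 < h ∧ Good s (m + h) := by
  set M := ∏ p ∈ s, p with hM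
  have hM0 : 0 < M := prod_pos fun p hp => (hs p hp).1.pos
  refine ⟨M * (m + 2) - 1 - m, ?_, ?_⟩
  · have : m + 2 ≤ M * (m + 2) := Nat.le_mul_of_pos_left _ hM0
    omega
  · have h1 : m + 2 ≤ M * (m + 2) := Nat.le_mul_of_pos_left _ hM0
    have h2 : m + (M * (m + 2) - 1 - m) = M * (m + 2) - 1 := by omega
    rw [h2]
    intro p hp
    have hp1 := (hs p hp)
    have hd : p ∣ 6 * (M * (m + 2)) := (dvd_mul_of_dvd_left (dvd_prod_of_mem _ hp) _).mul_left _
    constructor
    · intro h
      have h3 : 6 * (M * (m + 2)) = (6 * (M * (m + 2) - 1) + 5) + 1 := by omega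
      rw [h3, Nat.dvd_add_right h] at hd
      have := Nat.le_of_dvd (by norm_num) hd
      omega
    · intro h
      have h3 : 6 * (M * (m + 2) - 1) + 7 = 6 * (M * (m + 2)) + 1 := by omega
      rw [h3, Nat.dvd_add_right hd] at h
      have := Nat.le_of_dvd (by norm_num) h
      omega

open Classical in
/-- the distance to the next good place -/
noncomputable def gap {s : Finset ℕ} (hs : IsPr s) (m : ℕ) : ℕ := Nat.find (good_exists hs m)

lemma gap_pos {s : Finset ℕ} (hs : IsPr s) (m : ℕ) : 0 < gap hs m := by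
  classical
  exact (Nat.find_spec (good_exists hs m)).1

lemma gap_good {s : Finset ℕ} (hs : IsPr s) (m : ℕ) : Good s (m + gap hs m) := by
  classical
  exact (Nat.find_spec (good_exists hs m)).2

lemma gap_min {s : Finset ℕ} (hs : IsPr s) (m h : ℕ) (h0 : 0 < h) (hh : h < gap hs m) : ¬ Good s (m + h) := by
  classical
  intro hg
  exact Nat.find_min (good_exists hs m) hh ⟨h0, hg⟩

lemma gap_unique {s : Finset ℕ} (hs : IsPr s) (m g : ℕ) (h0 : 0 < g) (h1 : Good s (m + g))
    (h2 : ∀ h, 0 < h → h < g → ¬ Good s (m + h)) : gap hs m = g := by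
  rcases lt_trichotomy (gap hs m) g with h | h | h
  · exact absurd (gap_good hs m) (h2 _ (gap_pos hs m) h)
  · exact h
  · exact absurd h1 (gap_min hs m g h0 h)

lemma gap_add {s : Finset ℕ} (hs : IsPr s) (m t : ℕ) : gap hs (m + (∏ p ∈ s, p) * t) = gap hs m := by
  apply gap_unique
  · exact gap_pos hs m
  · have : m + (∏ p ∈ s, p) * t + gap hs m = (m + gap hs m) + (∏ p ∈ s, p) * t := by ring
    rw [this, good_add]
    exact gap_good hs m
  · intro h h0 h1
    have : m + (∏ p ∈ s, p) * t + h = (m + h) + (∏ p ∈ s, p) * t := by ring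
    rw [this, good_add]
    exact gap_min hs m h h0 h1

/-- the alternating function is the sign of the gap -/
lemma uu_gap {R : Type*} [CommRing R] {s : Finset ℕ} (hs : IsPr s) (S : R → ℝ) (m : ℕ)
    (h1 : ∀ n : ℕ, Good s n → S (n : R) = 1) (h0 : ∀ n : ℕ, ¬ Good s n → S (n : R) = 0) :
    uu S 1 (m : R) = (-1) ^ gap hs m := by
  unfold uu
  have hg := gap_pos hs m
  have hcast : ∀ j : ℕ, (m : R) + (j : R) = ((m + j : ℕ) : R) := fun j => by push_cast; ring
  rw [tsum_eq_single (gap hs m - 1)]
  · unfold ut PP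
    rw [Nat.sub_add_cancel hg, hcast, h1 _ (gap_good hs m)]
    rw [prod_eq_one]
    · ring
    · intro j hj
      rw [mem_range] at hj
      rw [hcast, h0 _ (gap_min hs m (j + 1) (by omega) (by omega))]
      ring
  · intro n hn
    unfold ut
    rcases lt_or_gt_of_ne hn with h | h
    · rw [hcast, h0 _ (gap_min hs m (n + 1) (by omega) (by omega))]
      ring
    · have : PP S 1 n (m : R) = 0 := by
        unfold PP
        apply prod_eq_zero (mem_range.2 h)
        rw [Nat.sub_add_cancel hg, hcast, h1 _ (gap_good hs m)]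
        ring
      rw [this, mul_zero]

end Pool.Agent.K9h56.TB
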