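import Pool.Agent.K9h56.TB.Two3

set_option autoImplicit false
set_option linter.unusedSectionVars false

/-! Thinning: the large primes act like independent thinning with the probability `q`. -/

namespace Pool.Agent.K9h56.TB

open Finset

section one

variable {R : Type*} [CommRing R] [Fintype R] {S : R → ℝ} {q η : ℝ}

/-- inclusion-exclusion -/
lemma incl_excl {H : ℕ} (hq0 : 0 ≤ q) (hη : 0 ≤ η)
    (h : ∀ B : Finset ℕ, B ⊆ range (H + 1) →
      |(Ex fun ω : R => ∏ j ∈ B, S (ω + (j : R))) - q ^ B.card| ≤ (B.card : ℝ) ^ 2 * η * q ^ B.card)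
    (A : Finset ℕ) : ∀ B : Finset ℕ, Disjoint A B → A ⊆ range (H + 1) → B ⊆ range (H + 1) →
      |(Ex fun ω : R => (∏ j ∈ B, S (ω + (j : R))) * ∏ j ∈ A, (1 - S (ω + (j : R)))) -
        q ^ B.card * (1 - q) ^ A.card| ≤ ((A.card : ℝ) + B.card) ^ 2 * η * q ^ B.card * (1 + q) ^ A.card := by
  induction A using Finset.induction_on with
  | empty =>
    intro B _ _ hB
    simpa using h B hB
  | insert j A hj ih =>
    intro B hd hA hB
    have hjB : j ∉ B := disjoint_left.1 hd (mem_insert_self _ _)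
    have hd' : Disjoint A B := disjoint_of_subset_left (subset_insert _ _) hd
    have hd'' : Disjoint A (insert j B) := by
      rw [disjoint_insert_right]
      exact ⟨hj, hd'⟩
    have hA' : A ⊆ range (H + 1) := (subset_insert _ _).trans hA
    have hjH : j ∈ range (H + 1) := hA (mem_insert_self _ _)
    have h1 := ih B hd' hA' hB
    have h2 := ih (insert j B) hd'' hA' (insert_subset hjH hB)
    rw [card_insert_of_notMem hjB] at h2
    rw [card_insert_of_notMem hj]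
    have e1 : (Ex fun ω : R => (∏ i ∈ B, S (ω + (i : R))) * ∏ i ∈ insert j A, (1 - S (ω + (i : R)))) =
        (Ex fun ω : R => (∏ i ∈ B, S (ω + (i : R))) * ∏ i ∈ A, (1 - S (ω + (i : R)))) -
        (Ex fun ω : R => (∏ i ∈ insert j B, S (ω + (i : R))) * ∏ i ∈ A, (1 - S (ω + (i : R)))) := by
      rw [← Ex_sub]
      apply Ex_congr
      intro ω
      rw [prod_insert hj, prod_insert hjB]
      ring
    rw [e1]
    set X := (Ex fun ω : R => (∏ i ∈ B, S (ω + (i : R))) * ∏ i ∈ A, (1 - S (ω + (i : R))))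
    set Y := (Ex fun ω : R => (∏ i ∈ insert j B, S (ω + (i : R))) * ∏ i ∈ A, (1 - S (ω + (i : R))))
    push_cast at h2 ⊢
    have e2 : X - Y - q ^ B.card * (1 - q) ^ (A.card + 1) =
        (X - q ^ B.card * (1 - q) ^ A.card) - (Y - q ^ (B.card + 1) * (1 - q) ^ A.card) := by ring
    rw [e2]
    refine (abs_sub _ _).trans ?_
    have h3 : ((A.card : ℝ) + B.card) ^ 2 ≤ ((A.card : ℝ) + 1 + B.card) ^ 2 := by
      apply pow_le_pow_left₀ (by positivity)
      linarith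
    have h4 : ((A.card : ℝ) + B.card) ^ 2 * η * q ^ B.card * (1 + q) ^ A.card ≤
        ((A.card : ℝ) + 1 + B.card) ^ 2 * η * q ^ B.card * (1 + q) ^ A.card := by
      have : 0 ≤ η * q ^ B.card * (1 + q) ^ A.card := by positivity
      nlinarith
    have h5 : ((A.card : ℝ) + (B.card + 1)) ^ 2 * η * q ^ (B.card + 1) * (1 + q) ^ A.card =
        q * (((A.card : ℝ) + 1 + B.card) ^ 2 * η * q ^ B.card * (1 + q) ^ A.card) := by ring
    rw [h5] at h2
    have h6 : ((A.card : ℝ) + 1 + B.card) ^ 2 * η * q ^ B.card * (1 + q) ^ (A.card + 1) =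
        ((A.card : ℝ) + 1 + B.card) ^ 2 * η * q ^ B.card * (1 + q) ^ A.card +
        q * (((A.card : ℝ) + 1 + B.card) ^ 2 * η * q ^ B.card * (1 + q) ^ A.card) := by ring
    rw [h6]
    linarith

end one

section two

variable {R0 R1 : Type*} [CommRing R0] [Fintype R0] [CommRing R1] [Fintype R1]
  {S0 : R0 → ℝ} {S1 : R1 → ℝ} {q η : ℝ}

/-- the thinned set -/
noncomputable def ST (S0 : R0 → ℝ) (S1 : R1 → ℝ) (ω : R0 × R1) : ℝ := S0 ω.1 * S1 ω.2

open Classical in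
/-- the places of the first set -/
noncomputable def pl (S0 : R0 → ℝ) (n : ℕ) (ω : R0) : Finset ℕ :=
  (Ico 1 (n + 1)).filter fun j => S0 (ω + (j : R0)) = 1

lemma ST_zo (h0 : ∀ ω, S0 ω = 0 ∨ S0 ω = 1) (h1 : ∀ ω, S1 ω = 0 ∨ S1 ω = 1) (ω : R0 × R1) :
    ST S0 S1 ω = 0 ∨ ST S0 S1 ω = 1 := by
  unfold ST
  rcases h0 ω.1 with h | h <;> rcases h1 ω.2 with h' | h' <;> rw [h, h'] <;> norm_num

lemma ST_shift (ω : R0 × R1) (n : ℕ) : ST S0 S1 (ω + (n : R0 × R1)) = S0 (ω.1 + (n : R0)) * S1 (ω.2 + (n : R1)) := by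
  unfold ST
  simp

lemma prod_shift (f : ℕ → ℝ) (n : ℕ) : ∏ j ∈ range n, f (j + 1) = ∏ j ∈ Ico 1 (n + 1), f j := by
  rw [prod_Ico_eq_prod_range]
  apply prod_congr (by simp)
  intro j _
  rw [add_comm]

lemma PP_ST (h0 : ∀ ω, S0 ω = 0 ∨ S0 ω = 1) (n : ℕ) (ω : R0 × R1) :
    PP (ST S0 S1) 1 n ω = ∏ j ∈ pl S0 n ω.1, (1 - S1 (ω.2 + (j : R1))) := by
  classical
  unfold PP pl
  rw [prod_filter]
  have := prod_shift (fun j => 1 - 1 * ST S0 S1 (ω + (j : R0 × R1))) n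
  rw [this]
  apply prod_congr rfl
  intro j _
  rw [ST_shift]
  rcases h0 (ω.1 + (j : R0)) with h | h
  · rw [h, if_neg (by norm_num)]; ring
  · rw [h, if_pos rfl]; ring

lemma PP_S0 (h0 : ∀ ω, S0 ω = 0 ∨ S0 ω = 1) (n : ℕ) (ω : R0) :
    PP S0 q n ω = (1 - q) ^ (pl S0 n ω).card := by
  classical
  unfold PP pl
  have := prod_shift (fun j => 1 - q * S0 (ω + (j : R0))) n
  rw [this, ← prod_const, prod_filter]
  apply prod_congr rfl
  intro j _
  rcases h0 (ω + (j : R0)) with h | h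
  · rw [h, if_neg (by norm_num)]; ring
  · rw [h, if_pos rfl]; ring

lemma card_pl (h0 : ∀ ω, S0 ω = 0 ∨ S0 ω = 1) (n : ℕ) (ω : R0) :
    ((pl S0 n ω).card : ℝ) = ∑ t ∈ range n, S0 (ω + 1 + (t : R0)) := by
  classical
  unfold pl
  rw [card_filter, Nat.cast_sum]
  rw [sum_Ico_eq_sum_range]
  apply sum_congr (by simp)
  intro t _
  have : ω + ((1 + t : ℕ) : R0) = ω + 1 + (t : R0) := by push_cast; ring
  rw [this]
  rcases h0 (ω + 1 + (t : R0)) with h | h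
  · rw [h, if_neg (by norm_num)]; norm_num
  · rw [h, if_pos rfl]; norm_num

lemma pl_mono (n m : ℕ) (h : n ≤ m) (ω : R0) : pl S0 n ω ⊆ pl S0 m ω := by
  classical
  unfold pl
  apply filter_subset_filter
  exact Ico_subset_Ico_right (by omega)

lemma pl_sub (n : ℕ) (ω : R0) : pl S0 n ω ⊆ Ico 1 (n + 1) := by
  classical
  exact filter_subset _ _

/-- the hypothesis about the large primes -/
def HT (S1 : R1 → ℝ) (q η : ℝ) (H : ℕ) : Prop := ∀ B : Finset ℕ, B ⊆ range (H + 1) →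
  |(Ex fun ω : R1 => ∏ j ∈ B, S1 (ω + (j : R1))) - q ^ B.card| ≤ (B.card : ℝ) ^ 2 * η * q ^ B.card

lemma tail_one {H : ℕ} (hq0 : 0 ≤ q) (hη : 0 ≤ η) (hT : HT S1 q η H)
    (h0 : ∀ ω, S0 ω = 0 ∨ S0 ω = 1) (ω : R0) :
    |(Ex fun ω1 : R1 => S1 ω1 * PP (ST S0 S1) 1 H (ω, ω1)) - q * PP S0 q H ω| ≤
      (((pl S0 H ω).card : ℝ) + 1) ^ 2 * η * q * (1 + q) ^ (pl S0 H ω).card := by
  have h1 := incl_excl hq0 hη hT (pl S0 H ω) {0} (by
      rw [disjoint_singleton_right]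
      intro h
      have := pl_sub H ω h
      simp at this) ((pl_sub H ω).trans (by
      intro j hj
      rw [mem_Ico] at hj
      rw [mem_range]
      omega)) (by simp)
  simp only [prod_singleton, card_singleton, pow_one, Nat.cast_one, Nat.cast_zero, add_zero] at h1
  rw [PP_S0 h0]
  refine le_trans (le_of_eq ?_) h1
  congr 2
  apply Ex_congr
  intro ω1
  rw [PP_ST h0]

lemma term_one {H : ℕ} (hq0 : 0 ≤ q) (hη : 0 ≤ η) (hT : HT S1 q η H)
    (h0 : ∀ ω, S0 ω = 0 ∨ S0 ω = 1) (ω : R0) (n : ℕ) (hn : n < H) :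
    |(Ex fun ω1 : R1 => S1 ω1 * ut (ST S0 S1) 1 n (ω, ω1)) - q ^ 2 * ut S0 q n ω| ≤
      S0 (ω + ((n + 1 : ℕ) : R0)) *
        ((((pl S0 H ω).card : ℝ) + 2) ^ 2 * η * q ^ 2 * (1 + q) ^ (pl S0 H ω).card) := by
  have e0 : (Ex fun ω1 : R1 => S1 ω1 * ut (ST S0 S1) 1 n (ω, ω1)) =
      (-1) ^ (n + 1) * S0 (ω + ((n + 1 : ℕ) : R0)) *
        (Ex fun ω1 : R1 => (S1 ω1 * S1 (ω1 + ((n + 1 : ℕ) : R1))) * ∏ j ∈ pl S0 n ω, (1 - S1 (ω1 + (j : R1)))) := by
    rw [← Ex_mul_left]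
    apply Ex_congr
    intro ω1
    unfold ut
    rw [PP_ST h0, ST_shift]
    ring
  rw [e0]
  unfold ut
  rw [PP_S0 h0]
  have h1 := incl_excl hq0 hη hT (pl S0 n ω) {0, n + 1} (by
      rw [disjoint_insert_right, disjoint_singleton_right]
      constructor
      · intro h
        have := pl_sub n ω h
        simp at this
      · intro h
        have := pl_sub n ω h
        simp at this) ((pl_sub n ω).trans (by
      intro j hj
      rw [mem_Ico] at hj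
      rw [mem_range]
      omega)) (by
      intro j hj
      simp only [mem_insert, mem_singleton] at hj
      rw [mem_range]
      omega)
  have hcard : ({0, n + 1} : Finset ℕ).card = 2 := by
    rw [card_pair]; omega
  rw [hcard] at h1
  have e1 : (Ex fun ω1 : R1 => (∏ j ∈ ({0, n + 1} : Finset ℕ), S1 (ω1 + (j : R1))) *
      ∏ j ∈ pl S0 n ω, (1 - S1 (ω1 + (j : R1)))) =
      (Ex fun ω1 : R1 => (S1 ω1 * S1 (ω1 + ((n + 1 : ℕ) : R1))) * ∏ j ∈ pl S0 n ω, (1 - S1 (ω1 + (j : R1)))) := by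
    apply Ex_congr
    intro ω1
    rw [prod_pair (by omega)]
    simp
  rw [e1] at h1
  set X := (Ex fun ω1 : R1 => (S1 ω1 * S1 (ω1 + ((n + 1 : ℕ) : R1))) * ∏ j ∈ pl S0 n ω, (1 - S1 (ω1 + (j : R1))))
  have e2 : (-1) ^ (n + 1) * S0 (ω + ((n + 1 : ℕ) : R0)) * X -
      q ^ 2 * ((-1) ^ (n + 1) * S0 (ω + ((n + 1 : ℕ) : R0)) * (1 - q) ^ (pl S0 n ω).card) =
      (-1) ^ (n + 1) * (S0 (ω + ((n + 1 : ℕ) : R0)) * (X - q ^ 2 * (1 - q) ^ (pl S0 n ω).card)) := by ring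
  rw [e2, abs_mul, abs_pow, abs_neg, abs_one, one_pow, one_mul, abs_mul, abs_of_nonneg (S_nonneg h0 _)]
  apply mul_le_mul_of_nonneg_left _ (S_nonneg h0 _)
  refine h1.trans ?_
  have h2 : ((pl S0 n ω).card : ℝ) ≤ (pl S0 H ω).card := by exact_mod_cast card_le_card (pl_mono n H hn.le ω)
  have h3 : (1 + q) ^ (pl S0 n ω).card ≤ (1 + q) ^ (pl S0 H ω).card :=
    pow_le_pow_right₀ (by linarith) (card_le_card (pl_mono n H hn.le ω))
  push_cast
  gcongr

lemma sum_one {H : ℕ} (hq0 : 0 ≤ q) (hη : 0 ≤ η) (hT : HT S1 q η H)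
    (h0 : ∀ ω, S0 ω = 0 ∨ S0 ω = 1) (ω : R0) :
    |(Ex fun ω1 : R1 => S1 ω1 * uH (ST S0 S1) 1 H (ω, ω1)) - q ^ 2 * uH S0 q H ω| ≤
      ((pl S0 H ω).card : ℝ) *
        ((((pl S0 H ω).card : ℝ) + 2) ^ 2 * η * q ^ 2 * (1 + q) ^ (pl S0 H ω).card) := by
  have e0 : (Ex fun ω1 : R1 => S1 ω1 * uH (ST S0 S1) 1 H (ω, ω1)) - q ^ 2 * uH S0 q H ω =
      ∑ n ∈ range H, ((Ex fun ω1 : R1 => S1 ω1 * ut (ST S0 S1) 1 n (ω, ω1)) - q ^ 2 * ut S0 q n ω) := by
    rw [sum_sub_distrib, ← mul_sum]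
    congr 1
    rw [← Ex_sum (range H) (fun n ω1 => S1 ω1 * ut (ST S0 S1) 1 n (ω, ω1))]
    apply Ex_congr
    intro ω1
    unfold uH
    rw [mul_sum]
  rw [e0]
  refine (abs_sum_le_sum_abs _ _).trans ?_
  refine (sum_le_sum fun n hn => term_one hq0 hη hT h0 ω n (mem_range.1 hn)).trans ?_
  rw [← sum_mul]
  apply le_of_eq
  congr 1
  rw [card_pl h0]
  apply sum_congr rfl
  intro t _
  rw [show ω + ((t + 1 : ℕ) : R0) = ω + 1 + (t : R0) by push_cast; ring]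

end two

end Pool.Agent.K9h56.TB
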