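import Pool.Agent.K9h56.TB.Ex

set_option autoImplicit false

/-! The thinned alternating gap function. -/

namespace Pool.Agent.K9h56.TB

open Finset

variable {R : Type*} [CommRing R]

/-- the probability that the thinned process has no point among the `n` next places -/
noncomputable def PP (S : R → ℝ) (q : ℝ) (n : ℕ) (ω : R) : ℝ :=
  ∏ j ∈ range n, (1 - q * S (ω + ((j + 1 : ℕ) : R)))

/-- the terms -/
noncomputable def ut (S : R → ℝ) (q : ℝ) (n : ℕ) (ω : R) : ℝ :=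
  (-1) ^ (n + 1) * S (ω + ((n + 1 : ℕ) : R)) * PP S q n ω

noncomputable def uH (S : R → ℝ) (q : ℝ) (H : ℕ) (ω : R) : ℝ := ∑ n ∈ range H, ut S q n ω

noncomputable def uu (S : R → ℝ) (q : ℝ) (ω : R) : ℝ := ∑' n, ut S q n ω

lemma PP_zero (S : R → ℝ) (q : ℝ) (ω : R) : PP S q 0 ω = 1 := by simp [PP]

lemma PP_succ (S : R → ℝ) (q : ℝ) (n : ℕ) (ω : R) :
    PP S q (n + 1) ω = PP S q n ω * (1 - q * S (ω + ((n + 1 : ℕ) : R))) := by
  unfold PP; rw [prod_range_succ]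

lemma PP_succ' (S : R → ℝ) (q : ℝ) (n : ℕ) (ω : R) :
    PP S q (n + 1) ω = (1 - q * S (ω + 1)) * PP S q n (ω + 1) := by
  unfold PP
  rw [prod_range_succ', mul_comm]
  congr 1
  · simp
  · apply prod_congr rfl
    intro j _
    congr 3
    push_cast
    ring

variable {S : R → ℝ} {q : ℝ}

lemma S_nonneg (hS : ∀ ω, S ω = 0 ∨ S ω = 1) (ω : R) : 0 ≤ S ω := by
  rcases hS ω with h | h <;> rw [h]; norm_num

lemma S_le (hS : ∀ ω, S ω = 0 ∨ S ω = 1) (ω : R) : S ω ≤ 1 := by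
  rcases hS ω with h | h <;> rw [h]; norm_num

lemma S_sq (hS : ∀ ω, S ω = 0 ∨ S ω = 1) (ω : R) : S ω * S ω = S ω := by
  rcases hS ω with h | h <;> rw [h]; norm_num; norm_num

lemma fac_nonneg (hS : ∀ ω, S ω = 0 ∨ S ω = 1) (hq1 : q ≤ 1) (ω : R) : 0 ≤ 1 - q * S ω := by
  rcases hS ω with h | h <;> rw [h]
  · norm_num
  · linarith

lemma fac_le (hS : ∀ ω, S ω = 0 ∨ S ω = 1) (hq0 : 0 ≤ q) (ω : R) : 1 - q * S ω ≤ 1 := by
  rcases hS ω with h | h <;> rw [h]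
  · norm_num
  · linarith

lemma PP_nonneg (hS : ∀ ω, S ω = 0 ∨ S ω = 1) (hq1 : q ≤ 1) (n : ℕ) (ω : R) : 0 ≤ PP S q n ω :=
  prod_nonneg fun _ _ => fac_nonneg hS hq1 _

lemma PP_le_one (hS : ∀ ω, S ω = 0 ∨ S ω = 1) (hq0 : 0 ≤ q) (hq1 : q ≤ 1) (n : ℕ) (ω : R) :
    PP S q n ω ≤ 1 :=
  prod_le_one (fun _ _ => fac_nonneg hS hq1 _) fun _ _ => fac_le hS hq0 _

lemma PP_step (n : ℕ) (ω : R) :
    PP S q n ω - PP S q (n + 1) ω = q * (S (ω + ((n + 1 : ℕ) : R)) * PP S q n ω) := by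
  rw [PP_succ]; ring

lemma PP_anti (hS : ∀ ω, S ω = 0 ∨ S ω = 1) (hq0 : 0 ≤ q) (hq1 : q ≤ 1) (ω : R) :
    Antitone fun n => PP S q n ω := by
  apply antitone_nat_of_succ_le
  intro n
  have := PP_step (S := S) (q := q) n ω
  have h2 : 0 ≤ q * (S (ω + ((n + 1 : ℕ) : R)) * PP S q n ω) :=
    mul_nonneg hq0 (mul_nonneg (S_nonneg hS _) (PP_nonneg hS hq1 _ _))
  linarith

lemma abs_ut (hS : ∀ ω, S ω = 0 ∨ S ω = 1) (hq0 : 0 < q) (hq1 : q ≤ 1) (n : ℕ) (ω : R) :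
    |ut S q n ω| = (PP S q n ω - PP S q (n + 1) ω) / q := by
  rw [PP_step, mul_div_cancel_left₀ _ hq0.ne', ut, abs_mul, abs_mul, abs_pow, abs_neg, abs_one,
    one_pow, one_mul, abs_of_nonneg (S_nonneg hS _), abs_of_nonneg (PP_nonneg hS hq1 _ _)]

lemma sum_abs_ut (hS : ∀ ω, S ω = 0 ∨ S ω = 1) (hq0 : 0 < q) (hq1 : q ≤ 1) (a n : ℕ) (ω : R) :
    ∑ i ∈ range n, |ut S q (i + a) ω| = (PP S q a ω - PP S q (n + a) ω) / q := by
  induction n with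
  | zero => simp
  | succ n ih =>
    rw [sum_range_succ, ih, abs_ut hS hq0 hq1, show n + 1 + a = n + a + 1 by ring]
    ring

lemma sum_abs_ut_le (hS : ∀ ω, S ω = 0 ∨ S ω = 1) (hq0 : 0 < q) (hq1 : q ≤ 1) (a n : ℕ) (ω : R) :
    ∑ i ∈ range n, |ut S q (i + a) ω| ≤ PP S q a ω / q := by
  rw [sum_abs_ut hS hq0 hq1]
  apply div_le_div_of_nonneg_right _ hq0.le
  have := PP_nonneg hS hq1 (n + a) ω
  linarith

lemma summable_ut (hS : ∀ ω, S ω = 0 ∨ S ω = 1) (hq0 : 0 < q) (hq1 : q ≤ 1) (ω : R) :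
    Summable fun n => |ut S q n ω| := by
  apply summable_of_sum_range_le (c := PP S q 0 ω / q) (fun _ => abs_nonneg _)
  intro n
  exact sum_abs_ut_le hS hq0 hq1 0 n ω

lemma summable_ut' (hS : ∀ ω, S ω = 0 ∨ S ω = 1) (hq0 : 0 < q) (hq1 : q ≤ 1) (ω : R) :
    Summable fun n => ut S q n ω := (summable_ut hS hq0 hq1 ω).of_abs

lemma uu_sub (hS : ∀ ω, S ω = 0 ∨ S ω = 1) (hq0 : 0 < q) (hq1 : q ≤ 1) (H : ℕ) (ω : R) :
    |uu S q ω - uH S q H ω| ≤ PP S q H ω / q := by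
  have h1 := (summable_ut' hS hq0 hq1 ω).sum_add_tsum_nat_add H
  have h2 : uu S q ω - uH S q H ω = ∑' n, ut S q (n + H) ω := by
    unfold uu uH
    linarith
  rw [h2]
  have h3 : Summable fun n => |ut S q (n + H) ω| :=
    (summable_nat_add_iff H).2 (summable_ut hS hq0 hq1 ω)
  have h4 : |∑' n, ut S q (n + H) ω| ≤ ∑' n, |ut S q (n + H) ω| := by
    have := norm_tsum_le_tsum_norm (f := fun n => ut S q (n + H) ω) h3
    exact this
  refine h4.trans ?_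
  exact h3.tsum_le_of_sum_range_le (fun n => sum_abs_ut_le hS hq0 hq1 H n ω)

lemma abs_uH (hS : ∀ ω, S ω = 0 ∨ S ω = 1) (hq0 : 0 < q) (hq1 : q ≤ 1) (H : ℕ) (ω : R) :
    |uH S q H ω| ≤ 1 / q := by
  refine (abs_sum_le_sum_abs _ _).trans ?_
  have := sum_abs_ut_le hS hq0 hq1 0 H ω
  simpa [PP_zero] using this

lemma abs_uu (hS : ∀ ω, S ω = 0 ∨ S ω = 1) (hq0 : 0 < q) (hq1 : q ≤ 1) (ω : R) :
    |uu S q ω| ≤ 1 / q := by
  have := uu_sub hS hq0 hq1 0 ω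
  simpa [PP_zero, uH] using this

lemma uu_rec (hS : ∀ ω, S ω = 0 ∨ S ω = 1) (hq0 : 0 < q) (hq1 : q ≤ 1) (ω : R) :
    uu S q ω = - S (ω + 1) - (1 - q * S (ω + 1)) * uu S q (ω + 1) := by
  have h1 := (summable_ut' hS hq0 hq1 ω).tsum_eq_zero_add
  have h2 : ∀ n, ut S q (n + 1) ω = -(1 - q * S (ω + 1)) * ut S q n (ω + 1) := by
    intro n
    unfold ut
    rw [PP_succ']
    have : ω + ((n + 1 + 1 : ℕ) : R) = ω + 1 + ((n + 1 : ℕ) : R) := by push_cast; ring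
    rw [this]
    ring
  have h3 : ut S q 0 ω = - S (ω + 1) := by
    unfold ut
    simp [PP_zero]
  unfold uu
  rw [h1, h3]
  simp_rw [h2]
  rw [tsum_mul_left]
  ring

section fin

variable [Fintype R]

lemma Ex_shiftn (c : ℕ) (f : R → ℝ) : Ex (fun ω => f (ω + (c : R))) = Ex f := Ex_shift _ _

/-- pair correlation -/
noncomputable def rh (S : R → ℝ) (k : ℕ) : ℝ := Ex fun ω : R => S ω * S (ω + (k : R))

lemma rh_eq (S : R → ℝ) (k : ℕ) : rh S k = Ex fun ω : R => S (ω - (k : R)) * S ω := by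
  unfold rh
  rw [← Ex_shift (k : R) (fun ω => S (ω - (k : R)) * S ω)]
  apply Ex_congr
  intro ω
  rw [add_sub_cancel_right]

lemma X_rec (hS : ∀ ω, S ω = 0 ∨ S ω = 1) (hq0 : 0 < q) (hq1 : q ≤ 1) (d0 : ℝ) (j : ℕ) :
    (Ex fun ω : R => S (ω - (j : R)) * uu S q ω) =
      - rh S (j + 1) - (1 - q * d0) * (Ex fun ω : R => S (ω - ((j + 1 : ℕ) : R)) * uu S q ω) +
        q * (Ex fun ω : R => S (ω - ((j + 1 : ℕ) : R)) * (S ω - d0) * uu S q ω) := by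
  rw [rh_eq]
  rw [← Ex_shift (1 : R) (fun ω => S (ω - ((j + 1 : ℕ) : R)) * S ω)]
  rw [← Ex_shift (1 : R) (fun ω => S (ω - ((j + 1 : ℕ) : R)) * uu S q ω)]
  rw [← Ex_shift (1 : R) (fun ω => S (ω - ((j + 1 : ℕ) : R)) * (S ω - d0) * uu S q ω)]
  rw [← Ex_mul_left, ← Ex_mul_left, ← Ex_neg, ← Ex_sub, ← Ex_add]
  apply Ex_congr
  intro ω
  rw [uu_rec hS hq0 hq1 ω]
  have : ω + 1 - ((j + 1 : ℕ) : R) = ω - (j : R) := by push_cast; ring
  rw [this]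
  ring

/-- the backward weighted sum -/
noncomputable def bb (S : R → ℝ) (θ : ℝ) (J : ℕ) (ω : R) : ℝ :=
  ∑ k ∈ range J, (-1) ^ (k + 1) * (1 - θ) ^ k * S (ω - ((k + 1 : ℕ) : R))

lemma X_iter (hS : ∀ ω, S ω = 0 ∨ S ω = 1) (hq0 : 0 < q) (hq1 : q ≤ 1) (d0 : ℝ) (J : ℕ) :
    (Ex fun ω : R => S ω * uu S q ω) =
      (∑ k ∈ range J, (-1) ^ (k + 1) * (1 - q * d0) ^ k * rh S (k + 1)) -
        q * (Ex fun ω : R => bb S (q * d0) J ω * (S ω - d0) * uu S q ω) +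
        (-(1 - q * d0)) ^ J * (Ex fun ω : R => S (ω - (J : R)) * uu S q ω) := by
  induction J with
  | zero => simp [bb, Ex_zero]
  | succ J ih =>
    rw [ih, X_rec hS hq0 hq1 d0 J, sum_range_succ]
    have h1 : (Ex fun ω : R => bb S (q * d0) (J + 1) ω * (S ω - d0) * uu S q ω) =
        (Ex fun ω : R => bb S (q * d0) J ω * (S ω - d0) * uu S q ω) +
        (-1) ^ (J + 1) * (1 - q * d0) ^ J *
          (Ex fun ω : R => S (ω - ((J + 1 : ℕ) : R)) * (S ω - d0) * uu S q ω) := by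
      rw [← Ex_mul_left, ← Ex_add]
      apply Ex_congr
      intro ω
      unfold bb
      rw [sum_range_succ]
      ring
    rw [h1]
    have h2 : (-(1 - q * d0)) ^ J = (-1) ^ J * (1 - q * d0) ^ J := by
      rw [neg_eq_neg_one_mul, mul_pow]
    have h3 : (-(1 - q * d0)) ^ (J + 1) = (-1) ^ (J + 1) * (1 - q * d0) ^ (J + 1) := by
      rw [neg_eq_neg_one_mul, mul_pow]
    rw [h2, h3]
    ring

end fin

end Pool.Agent.K9h56.TB
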