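import Pool.Agent.K9h56.TB.Two

set_option autoImplicit false
set_option linter.unusedSectionVars false

/-! Fourth moments and the block shift. -/

namespace Pool.Agent.K9h56.TB

open Finset

lemma abel (a w : ℕ → ℝ) (H : ℕ) : ∑ n ∈ range H, a n * w n =
    (∑ i ∈ range H, a i) * w H + ∑ n ∈ range H, (∑ i ∈ range (n + 1), a i) * (w n - w (n + 1)) := by
  induction H with
  | zero => simp
  | succ H ih =>
    rw [sum_range_succ, ih, sum_range_succ (fun n => (∑ i ∈ range (n + 1), a i) * (w n - w (n + 1))),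
      sum_range_succ a H]
    ring

lemma four_add (x y : ℝ) : (x + y) ^ 4 ≤ 8 * (x ^ 4 + y ^ 4) := by
  nlinarith [sq_nonneg (x - y), sq_nonneg (x ^ 2 - y ^ 2), sq_nonneg (x + y), sq_nonneg (x * y),
    mul_nonneg (sq_nonneg (x - y)) (sq_nonneg (x + y)), mul_nonneg (sq_nonneg (x - y)) (sq_nonneg x),
    mul_nonneg (sq_nonneg (x - y)) (sq_nonneg y), sq_nonneg ((x - y) * (x - y)),
    mul_nonneg (sq_nonneg (x - y)) (sq_nonneg (x - y))]

lemma four_sum (f : ℕ → ℝ) (H : ℕ) : (∑ n ∈ range H, |f n|) ^ 4 ≤ (H : ℝ) ^ 3 * ∑ n ∈ range H, f n ^ 4 := by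
  rcases Nat.eq_zero_or_pos H with h0 | h0
  · subst h0; simp
  have h2 := pow_sum_div_card_le_sum_pow (s := range H) (f := fun n => |f n|) (n := 3) (fun _ _ => abs_nonneg _)
  rw [card_range, div_le_iff₀ (by positivity)] at h2
  have h3 : ∀ n, |f n| ^ (3 + 1) = f n ^ 4 := by
    intro n
    have : |f n| ^ 4 = (|f n| ^ 2) ^ 2 := by ring
    rw [show 3 + 1 = 4 by norm_num, this, sq_abs]
    ring
  simp_rw [h3] at h2
  rw [mul_comm]
  exact h2

lemma abel_four (a w : ℕ → ℝ) (H : ℕ) (t : ℝ) (hw0 : 0 ≤ w H) (hw1 : w H ≤ 1)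
    (hw : ∀ n, 0 ≤ w n - w (n + 1)) (hwt : ∀ n, w n - w (n + 1) ≤ t) :
    (∑ n ∈ range H, a n * w n) ^ 4 ≤
      8 * ((∑ i ∈ range H, a i) ^ 4 + t ^ 4 * ((H : ℝ) ^ 3 * ∑ n ∈ range H, (∑ i ∈ range (n + 1), a i) ^ 4)) := by
  rw [abel]
  refine (four_add _ _).trans ?_
  apply mul_le_mul_of_nonneg_left _ (by norm_num)
  apply add_le_add
  · rw [mul_pow]
    have : w H ^ 4 ≤ 1 := pow_le_one₀ hw0 hw1
    nlinarith [sq_nonneg ((∑ i ∈ range H, a i) ^ 2)]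
  · have h1 : |∑ n ∈ range H, (∑ i ∈ range (n + 1), a i) * (w n - w (n + 1))| ≤
        t * ∑ n ∈ range H, |∑ i ∈ range (n + 1), a i| := by
      refine (abs_sum_le_sum_abs _ _).trans ?_
      rw [mul_sum]
      apply sum_le_sum
      intro n _
      rw [abs_mul, abs_of_nonneg (hw n), mul_comm]
      exact mul_le_mul_of_nonneg_right (hwt n) (abs_nonneg _)
    have h2 := four_sum (fun n => ∑ i ∈ range (n + 1), a i) H
    have h3 : (∑ n ∈ range H, (∑ i ∈ range (n + 1), a i) * (w n - w (n + 1))) ^ 4 =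
        |∑ n ∈ range H, (∑ i ∈ range (n + 1), a i) * (w n - w (n + 1))| ^ 4 := by
      have : ∀ x : ℝ, x ^ 4 = |x| ^ 4 := by
        intro x
        have : |x| ^ 4 = (|x| ^ 2) ^ 2 := by ring
        rw [this, sq_abs]; ring
      exact this _
    rw [h3]
    calc _ ≤ (t * ∑ n ∈ range H, |∑ i ∈ range (n + 1), a i|) ^ 4 := pow_le_pow_left₀ (abs_nonneg _) h1 4
      _ = t ^ 4 * (∑ n ∈ range H, |∑ i ∈ range (n + 1), a i|) ^ 4 := by rw [mul_pow]
      _ ≤ _ := mul_le_mul_of_nonneg_left h2 (by positivity)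

section fin

variable {R : Type*} [CommRing R] [Fintype R] {S : R → ℝ} {q : ℝ}

lemma Ex_fwd {K : ℝ} (h1 : ∀ n : ℕ, Ex (fun ω : R => (∑ t ∈ range n, (-1) ^ t * S (ω + (t : R))) ^ 4) ≤ K * (n : ℝ) ^ 2)
    (n : ℕ) : Ex (fun ω : R => (∑ t ∈ range n, (-1) ^ (t + 1) * S (ω + ((t + 1 : ℕ) : R))) ^ 4) ≤ K * (n : ℝ) ^ 2 := by
  refine le_trans (le_of_eq ?_) (h1 n)
  rw [← Ex_shift (1 : R) (fun ω : R => (∑ t ∈ range n, (-1) ^ t * S (ω + (t : R))) ^ 4)]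
  apply Ex_congr
  intro ω
  have : ∑ t ∈ range n, (-1) ^ (t + 1) * S (ω + ((t + 1 : ℕ) : R)) =
      - ∑ t ∈ range n, (-1) ^ t * S (ω + 1 + (t : R)) := by
    rw [← sum_neg_distrib]
    apply sum_congr rfl
    intro t _
    rw [show ω + ((t + 1 : ℕ) : R) = ω + 1 + (t : R) by push_cast; ring]
    ring
  rw [this]
  ring

lemma Ex_bwd {K : ℝ} (h1 : ∀ n : ℕ, Ex (fun ω : R => (∑ t ∈ range n, (-1) ^ t * S (ω + (t : R))) ^ 4) ≤ K * (n : ℝ) ^ 2)
    (n : ℕ) : Ex (fun ω : R => (∑ t ∈ range n, (-1) ^ (t + 1) * S (ω - ((t + 1 : ℕ) : R))) ^ 4) ≤ K * (n : ℝ) ^ 2 := by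
  refine le_trans (le_of_eq ?_) (h1 n)
  rw [← Ex_shift (n : R) (fun ω : R => (∑ t ∈ range n, (-1) ^ (t + 1) * S (ω - ((t + 1 : ℕ) : R))) ^ 4)]
  apply Ex_congr
  intro ω
  have : ∑ t ∈ range n, (-1) ^ (t + 1) * S (ω + (n : R) - ((t + 1 : ℕ) : R)) =
      (-1) ^ n * ∑ t ∈ range n, (-1) ^ t * S (ω + (t : R)) := by
    rw [← sum_range_reflect, mul_sum]
    apply sum_congr rfl
    intro t ht
    rw [mem_range] at ht
    have e1 : ω + (n : R) - ((n - 1 - t + 1 : ℕ) : R) = ω + (t : R) := by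
      have : (n - 1 - t + 1 : ℕ) + t = n := by omega
      have h2 : ((n - 1 - t + 1 : ℕ) : R) + (t : R) = (n : R) := by
        rw [← Nat.cast_add]; exact congrArg _ this
      rw [← h2]; ring
    rw [e1]
    have e2 : (-1 : ℝ) ^ (n - 1 - t + 1) = (-1) ^ n * (-1) ^ t := by
      have h3 : n = (n - 1 - t + 1) + t := by omega
      have h4 : (-1 : ℝ) ^ n = (-1) ^ (n - 1 - t + 1) * (-1) ^ t := by
        rw [← pow_add]; exact congrArg _ h3
      rw [h4, mul_assoc, ← mul_pow]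
      norm_num
    rw [e2]
    ring
  rw [this, mul_pow]
  have : ((-1 : ℝ) ^ n) ^ 4 = 1 := by
    rw [← pow_mul, mul_comm, pow_mul]; norm_num
  rw [this, one_mul]

lemma moment_sum {K t : ℝ} (hK : 0 ≤ K) (A : ℕ → R → ℝ) (hA : ∀ n, Ex (fun ω => A n ω ^ 4) ≤ K * (n : ℝ) ^ 2) (H : ℕ) :
    Ex (fun ω => 8 * ((A H ω) ^ 4 + t ^ 4 * ((H : ℝ) ^ 3 * ∑ n ∈ range H, (A (n + 1) ω) ^ 4))) ≤
      8 * K * ((H : ℝ) ^ 2 + t ^ 4 * (H : ℝ) ^ 6) := by
  rw [Ex_mul_left, Ex_add, Ex_mul_left, Ex_mul_left]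
  rw [show Ex (fun ω => ∑ n ∈ range H, A (n + 1) ω ^ 4) = ∑ n ∈ range H, Ex (fun ω => A (n + 1) ω ^ 4) from
    Ex_sum (range H) (fun n ω => A (n + 1) ω ^ 4)]
  have h1 : ∑ n ∈ range H, Ex (fun ω => A (n + 1) ω ^ 4) ≤ ∑ n ∈ range H, K * (H : ℝ) ^ 2 := by
    apply sum_le_sum
    intro n hn
    refine (hA (n + 1)).trans ?_
    apply mul_le_mul_of_nonneg_left _ hK
    apply pow_le_pow_left₀ (by positivity)
    exact_mod_cast mem_range.1 hn
  rw [sum_const, card_range, nsmul_eq_mul] at h1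
  have h2 : t ^ 4 * ((H : ℝ) ^ 3 * ∑ n ∈ range H, Ex (fun ω => A (n + 1) ω ^ 4)) ≤
      t ^ 4 * ((H : ℝ) ^ 3 * ((H : ℝ) * (K * (H : ℝ) ^ 2))) := by
    apply mul_le_mul_of_nonneg_left _ (by positivity)
    apply mul_le_mul_of_nonneg_left h1 (by positivity)
  have h3 := hA H
  nlinarith

lemma four_uH (hS : ∀ ω, S ω = 0 ∨ S ω = 1) (hq0 : 0 < q) (hq1 : q ≤ 1) {K : ℝ} (hK : 0 ≤ K)
    (h1 : ∀ n : ℕ, Ex (fun ω : R => (∑ t ∈ range n, (-1) ^ t * S (ω + (t : R))) ^ 4) ≤ K * (n : ℝ) ^ 2) (H : ℕ) :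
    Ex (fun ω : R => uH S q H ω ^ 4) ≤ 8 * K * ((H : ℝ) ^ 2 + q ^ 4 * (H : ℝ) ^ 6) := by
  refine le_trans (Ex_mono fun ω => ?_) (moment_sum hK
    (fun n ω => ∑ t ∈ range n, (-1) ^ (t + 1) * S (ω + ((t + 1 : ℕ) : R))) (Ex_fwd h1) H (t := q))
  exact abel_four (fun t => (-1) ^ (t + 1) * S (ω + ((t + 1 : ℕ) : R))) (fun n => PP S q n ω) H q
    (PP_nonneg hS hq1 _ _) (PP_le_one hS hq0.le hq1 _ _)
    (fun n => sub_nonneg.2 (PP_anti hS hq0.le hq1 ω (Nat.le_succ n)))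
    (fun n => by
      show PP S q n ω - PP S q (n + 1) ω ≤ q
      rw [PP_step]
      have h2 := S_nonneg hS (ω + ((n + 1 : ℕ) : R))
      have h3 := S_le hS (ω + ((n + 1 : ℕ) : R))
      have h4 := PP_nonneg hS hq1 n ω
      have h5 := PP_le_one hS hq0.le hq1 n ω
      have h6 : S (ω + ((n + 1 : ℕ) : R)) * PP S q n ω ≤ 1 := mul_le_one₀ h3 h4 h5
      nlinarith)

lemma four_bb (hS : ∀ ω, S ω = 0 ∨ S ω = 1) {θ : ℝ} (hq0 : 0 ≤ θ) (hq1 : θ ≤ 1) {K : ℝ} (hK : 0 ≤ K)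
    (h1 : ∀ n : ℕ, Ex (fun ω : R => (∑ t ∈ range n, (-1) ^ t * S (ω + (t : R))) ^ 4) ≤ K * (n : ℝ) ^ 2) (J : ℕ) :
    Ex (fun ω : R => bb S θ J ω ^ 4) ≤ 8 * K * ((J : ℝ) ^ 2 + θ ^ 4 * (J : ℝ) ^ 6) := by
  refine le_trans (Ex_mono fun ω => ?_) (moment_sum hK
    (fun n ω => ∑ t ∈ range n, (-1) ^ (t + 1) * S (ω - ((t + 1 : ℕ) : R))) (Ex_bwd h1) J (t := θ))
  have h2 := abel_four (fun t => (-1) ^ (t + 1) * S (ω - ((t + 1 : ℕ) : R))) (fun n => (1 - θ) ^ n) J θ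
    (pow_nonneg (by linarith) _) (pow_le_one₀ (by linarith) (by linarith))
    (fun n => by
      show 0 ≤ (1 - θ) ^ n - (1 - θ) ^ (n + 1)
      have : (1 - θ) ^ n - (1 - θ) ^ (n + 1) = θ * (1 - θ) ^ n := by ring
      rw [this]
      exact mul_nonneg hq0 (pow_nonneg (by linarith) _))
    (fun n => by
      show (1 - θ) ^ n - (1 - θ) ^ (n + 1) ≤ θ
      have : (1 - θ) ^ n - (1 - θ) ^ (n + 1) = θ * (1 - θ) ^ n := by ring
      rw [this]
      exact mul_le_of_le_one_right hq0 (pow_le_one₀ (by linarith) (by linarith)))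
  refine le_trans (le_of_eq ?_) h2
  unfold bb
  congr 1
  apply sum_congr rfl
  intro k _
  ring

/-- the thinned process has a point soon -/
lemma Ex_PP (hS : ∀ ω, S ω = 0 ∨ S ω = 1) (hq0 : 0 < q) (hq1 : q ≤ 1) {K d0 : ℝ} (hd0 : 0 < d0)
    (h2 : ∀ n : ℕ, Ex (fun ω : R => (∑ t ∈ range n, (S (ω + (t : R)) - d0)) ^ 4) ≤ K * (n : ℝ) ^ 2)
    (H : ℕ) (hH : 0 < H) :
    Ex (fun ω : R => PP S q H ω) ≤ Real.exp (- (q * d0 * H / 2)) + 16 * K / (d0 ^ 4 * (H : ℝ) ^ 2) := by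
  have hH' : (0 : ℝ) < H := by exact_mod_cast hH
  have key : ∀ ω : R, PP S q H ω ≤ Real.exp (- (q * d0 * H / 2)) +
      16 / (d0 * H) ^ 4 * (∑ t ∈ range H, (S (ω + 1 + (t : R)) - d0)) ^ 4 := by
    intro ω
    set N : ℝ := ∑ t ∈ range H, S (ω + ((t + 1 : ℕ) : R)) with hN
    have hV : ∑ t ∈ range H, (S (ω + 1 + (t : R)) - d0) = N - d0 * H := by
      rw [sum_sub_distrib, sum_const, card_range, nsmul_eq_mul, hN]
      congr 1
      · apply sum_congr rfl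
        intro t _
        rw [show ω + ((t + 1 : ℕ) : R) = ω + 1 + (t : R) by push_cast; ring]
      · ring
    rw [hV]
    rcases le_or_gt (d0 * H / 2) N with hc | hc
    · have h3 : PP S q H ω ≤ Real.exp (- (q * N)) := by
        rw [hN, mul_sum, ← sum_neg_distrib, Real.exp_sum]
        unfold PP
        apply prod_le_prod
        · intro j _
          exact fac_nonneg hS hq1 _
        · intro j _
          have := Real.add_one_le_exp (-(q * S (ω + ((j + 1 : ℕ) : R))))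
          linarith
      have h4 : Real.exp (- (q * N)) ≤ Real.exp (- (q * d0 * H / 2)) := by
        apply Real.exp_le_exp.2
        have : q * (d0 * H / 2) ≤ q * N := mul_le_mul_of_nonneg_left hc hq0.le
        linarith
      have h5 : 0 ≤ 16 / (d0 * H) ^ 4 * (N - d0 * H) ^ 4 := by positivity
      linarith
    · have h3 : PP S q H ω ≤ 1 := PP_le_one hS hq0.le hq1 _ _
      have h4 : (d0 * H / 2) ^ 4 ≤ (N - d0 * H) ^ 4 := by
        have : (N - d0 * H) ^ 4 = (d0 * H - N) ^ 4 := by ring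
        rw [this]
        apply pow_le_pow_left₀ (by positivity)
        linarith
      have h5 : 1 ≤ 16 / (d0 * H) ^ 4 * (N - d0 * H) ^ 4 := by
        rw [div_mul_eq_mul_div, one_le_div (by positivity)]
        nlinarith
      have := Real.exp_nonneg (- (q * d0 * H / 2))
      linarith
  refine (Ex_mono key).trans ?_
  have : Nonempty R := ⟨0⟩
  rw [Ex_add, Ex_const, Ex_mul_left]
  have h3 : Ex (fun ω : R => (∑ t ∈ range H, (S (ω + 1 + (t : R)) - d0)) ^ 4) ≤ K * (H : ℝ) ^ 2 := by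
    rw [Ex_shift (1 : R) (fun ω : R => (∑ t ∈ range H, (S (ω + (t : R)) - d0)) ^ 4)]
    exact h2 H
  have h4 := mul_le_mul_of_nonneg_left h3 (show (0 : ℝ) ≤ 16 / (d0 * H) ^ 4 by positivity)
  have h5 : 16 / (d0 * H) ^ 4 * (K * (H : ℝ) ^ 2) = 16 * K / (d0 ^ 4 * (H : ℝ) ^ 2) := by
    field_simp
  linarith

lemma four_uu (hS : ∀ ω, S ω = 0 ∨ S ω = 1) (hq0 : 0 < q) (hq1 : q ≤ 1) {K d0 : ℝ} (hK : 0 ≤ K) (hd0 : 0 < d0)
    (h1 : ∀ n : ℕ, Ex (fun ω : R => (∑ t ∈ range n, (-1) ^ t * S (ω + (t : R))) ^ 4) ≤ K * (n : ℝ) ^ 2)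
    (h2 : ∀ n : ℕ, Ex (fun ω : R => (∑ t ∈ range n, (S (ω + (t : R)) - d0)) ^ 4) ≤ K * (n : ℝ) ^ 2)
    (H : ℕ) (hH : 0 < H) :
    Ex (fun ω : R => uu S q ω ^ 4) ≤ 64 * K * ((H : ℝ) ^ 2 + q ^ 4 * (H : ℝ) ^ 6) +
      8 / q ^ 4 * (Real.exp (- (q * d0 * H / 2)) + 16 * K / (d0 ^ 4 * (H : ℝ) ^ 2)) := by
  have key : ∀ ω : R, uu S q ω ^ 4 ≤ 8 * (uH S q H ω ^ 4) + 8 / q ^ 4 * PP S q H ω := by
    intro ω
    have h3 := uu_sub hS hq0 hq1 H ω
    have h4 : uu S q ω ^ 4 = (uH S q H ω + (uu S q ω - uH S q H ω)) ^ 4 := by ring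
    rw [h4]
    refine (four_add _ _).trans ?_
    have h5 : (uu S q ω - uH S q H ω) ^ 4 ≤ PP S q H ω / q ^ 4 := by
      have h6 : (uu S q ω - uH S q H ω) ^ 4 = |uu S q ω - uH S q H ω| ^ 4 := by
        have : ∀ x : ℝ, x ^ 4 = |x| ^ 4 := by
          intro x
          have : |x| ^ 4 = (|x| ^ 2) ^ 2 := by ring
          rw [this, sq_abs]; ring
        exact this _
      rw [h6]
      refine (pow_le_pow_left₀ (abs_nonneg _) h3 4).trans ?_
      rw [div_pow]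
      apply div_le_div_of_nonneg_right _ (by positivity)
      have h7 := PP_nonneg hS hq1 H ω
      have h8 := PP_le_one hS hq0.le hq1 H ω
      calc PP S q H ω ^ 4 = PP S q H ω * PP S q H ω ^ 3 := by ring
        _ ≤ PP S q H ω * 1 := mul_le_mul_of_nonneg_left (pow_le_one₀ h7 h8) h7
        _ = _ := mul_one _
    have : 8 / q ^ 4 * PP S q H ω = 8 * (PP S q H ω / q ^ 4) := by ring
    rw [this]
    linarith
  refine (Ex_mono key).trans ?_
  rw [Ex_add, Ex_mul_left, Ex_mul_left]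
  have h3 := four_uH hS hq0 hq1 hK h1 H
  have h4 := Ex_PP hS hq0 hq1 hd0 h2 H hH
  have h5 := mul_le_mul_of_nonneg_left h4 (show (0 : ℝ) ≤ 8 / q ^ 4 by positivity)
  linarith

/-- block shift for `uu` -/
lemma uu_shift (hS : ∀ ω, S ω = 0 ∨ S ω = 1) (hq0 : 0 < q) (hq1 : q ≤ 1) (i : ℕ) (ω : R) :
    |(-1) ^ i * uu S q (ω + (i : R)) - uu S q ω| ≤ 2 * i := by
  induction i with
  | zero => simp
  | succ i ih =>
    have h1 := uu_rec hS hq0 hq1 (ω + (i : R))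
    have h2 : ω + ((i + 1 : ℕ) : R) = ω + (i : R) + 1 := by push_cast; ring
    rw [h2]
    set x := uu S q (ω + (i : R) + 1) with hx
    set s := S (ω + (i : R) + 1) with hs
    have h3 : |x| ≤ 1 / q := abs_uu hS hq0 hq1 _
    have h4 : |q * x| ≤ 1 := by
      rw [abs_mul, abs_of_pos hq0]
      calc q * |x| ≤ q * (1 / q) := mul_le_mul_of_nonneg_left h3 hq0.le
        _ = 1 := by field_simp
    have h5 : x = - uu S q (ω + (i : R)) - s * (1 - q * x) := by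
      rw [h1]; ring
    have h6 : |s * (1 - q * x)| ≤ 2 := by
      rw [abs_mul, abs_of_nonneg (S_nonneg hS _)]
      have h7 : |1 - q * x| ≤ 2 := by
        rw [abs_le] at h4 ⊢
        constructor <;> linarith [h4.1, h4.2]
      calc s * |1 - q * x| ≤ 1 * 2 := mul_le_mul (S_le hS _) h7 (abs_nonneg _) (by norm_num)
        _ = 2 := by norm_num
    have h7 : (-1) ^ (i + 1) * x - uu S q ω = ((-1) ^ i * uu S q (ω + (i : R)) - uu S q ω) +
        (-1) ^ i * (s * (1 - q * x)) := by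
      have : (-1 : ℝ) ^ (i + 1) * x = (-1) ^ (i + 1) * (- uu S q (ω + (i : R)) - s * (1 - q * x)) := by
        rw [← h5]
      rw [this]
      ring
    rw [h7]
    refine (abs_add_le _ _).trans ?_
    rw [abs_mul, abs_pow, abs_neg, abs_one, one_pow, one_mul]
    push_cast
    linarith

lemma abs_bb (hS : ∀ ω, S ω = 0 ∨ S ω = 1) {θ : ℝ} (h0 : 0 ≤ θ) (h1 : θ ≤ 1) (J : ℕ) (ω : R) :
    θ * |bb S θ J ω| ≤ 1 := by
  have h2 : |bb S θ J ω| ≤ ∑ k ∈ range J, (1 - θ) ^ k := by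
    unfold bb
    refine (abs_sum_le_sum_abs _ _).trans ?_
    apply sum_le_sum
    intro k _
    rw [abs_mul, abs_mul, abs_pow, abs_neg, abs_one, one_pow, one_mul, abs_of_nonneg (S_nonneg hS _),
      abs_of_nonneg (pow_nonneg (by linarith) _)]
    exact mul_le_of_le_one_right (pow_nonneg (by linarith) _) (S_le hS _)
  have h3 : θ * ∑ k ∈ range J, (1 - θ) ^ k = 1 - (1 - θ) ^ J := by
    have := mul_neg_geom_sum (1 - θ) J
    rw [show 1 - (1 - θ) = θ by ring] at this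
    exact this
  calc θ * |bb S θ J ω| ≤ θ * ∑ k ∈ range J, (1 - θ) ^ k := mul_le_mul_of_nonneg_left h2 h0
    _ = 1 - (1 - θ) ^ J := h3
    _ ≤ 1 := by
      have : 0 ≤ (1 - θ) ^ J := pow_nonneg (by linarith) _
      linarith

lemma bb_step (S : R → ℝ) (θ : ℝ) (J : ℕ) (ω : R) :
    bb S θ J (ω + 1) = - S ω - (1 - θ) * bb S θ J ω + (-1) ^ J * (1 - θ) ^ J * S (ω - (J : R)) := by
  induction J with
  | zero => simp [bb]
  | succ J ih =>
    have h1 : ∀ ω, bb S θ (J + 1) ω = bb S θ J ω + (-1) ^ (J + 1) * (1 - θ) ^ J * S (ω - ((J + 1 : ℕ) : R)) := by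
      intro ω
      unfold bb
      rw [sum_range_succ]
    rw [h1, h1, ih]
    have h2 : ω + 1 - ((J + 1 : ℕ) : R) = ω - (J : R) := by push_cast; ring
    rw [h2]
    ring

lemma bb_shift (hS : ∀ ω, S ω = 0 ∨ S ω = 1) {θ : ℝ} (h0 : 0 ≤ θ) (h1 : θ ≤ 1) (J i : ℕ) (ω : R) :
    |(-1) ^ i * bb S θ J (ω + (i : R)) - bb S θ J ω| ≤ 3 * i := by
  induction i with
  | zero => simp
  | succ i ih =>
    have h2 : ω + ((i + 1 : ℕ) : R) = ω + (i : R) + 1 := by push_cast; ring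
    rw [h2, bb_step]
    set x := bb S θ J (ω + (i : R)) with hx
    have h3 : θ * |x| ≤ 1 := abs_bb hS h0 h1 _ _
    have h4 : (-1) ^ (i + 1) * (-S (ω + (i : R)) - (1 - θ) * x + (-1) ^ J * (1 - θ) ^ J * S (ω + (i : R) - (J : R))) -
        bb S θ J ω = ((-1) ^ i * x - bb S θ J ω) +
        (-1) ^ i * (S (ω + (i : R)) - θ * x - (-1) ^ J * (1 - θ) ^ J * S (ω + (i : R) - (J : R))) := by ring
    rw [h4]
    refine (abs_add_le _ _).trans ?_
    rw [abs_mul ((-1) ^ i), abs_pow, abs_neg, abs_one, one_pow, one_mul]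
    have h5 : |S (ω + (i : R)) - θ * x - (-1) ^ J * (1 - θ) ^ J * S (ω + (i : R) - (J : R))| ≤ 3 := by
      refine (abs_sub _ _).trans ?_
      have h6 : |S (ω + (i : R)) - θ * x| ≤ 2 := by
        refine (abs_sub _ _).trans ?_
        rw [abs_of_nonneg (S_nonneg hS _), abs_mul, abs_of_nonneg h0]
        have := S_le hS (ω + (i : R))
        linarith
      have h7 : |(-1) ^ J * (1 - θ) ^ J * S (ω + (i : R) - (J : R))| ≤ 1 := by
        rw [abs_mul, abs_mul, abs_pow, abs_neg, abs_one, one_pow, one_mul, abs_of_nonneg (S_nonneg hS _),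
          abs_of_nonneg (pow_nonneg (by linarith) _)]
        exact mul_le_one₀ (pow_le_one₀ (by linarith) (by linarith)) (S_nonneg hS _) (S_le hS _)
      linarith
    push_cast
    linarith

end fin

end Pool.Agent.K9h56.TB
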