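import Pool.Agent.K9h56.TB.Two2

set_option autoImplicit false
set_option linter.unusedSectionVars false

/-! The main estimate of the alternating function. -/

namespace Pool.Agent.K9h56.TB

open Finset

variable {R : Type*} [CommRing R] [Fintype R] {S : R → ℝ} {q : ℝ}

lemma Ex_abs_le {R : Type*} [Fintype R] [Nonempty R] (f : R → ℝ) {B : ℝ} (hB : 0 ≤ B)
    (h : Ex (fun ω => f ω ^ 4) ≤ B ^ 4) : Ex (fun ω => |f ω|) ≤ B := by
  have h1 := Ex_four_le (fun ω => |f ω|)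
  have h2 : ∀ ω, |f ω| ^ 4 = f ω ^ 4 := by
    intro ω
    have : |f ω| ^ 4 = (|f ω| ^ 2) ^ 2 := by ring
    rw [this, sq_abs]; ring
  simp_rw [h2] at h1
  exact le_of_pow_le_pow_left₀ (by norm_num) hB (h1.trans h)

lemma three_bound (hS : ∀ ω, S ω = 0 ∨ S ω = 1) (hq0 : 0 < q) (hq1 : q ≤ 1) {K d0 : ℝ}
    (hd0 : 0 < d0) (hd1 : d0 ≤ 1)
    (h2 : ∀ n : ℕ, Ex (fun ω : R => (∑ t ∈ range n, (S (ω + (t : R)) - d0)) ^ 4) ≤ K * (n : ℝ) ^ 2)
    (J ℓ : ℕ) (hℓ : 0 < ℓ) {κ B : ℝ} (hκ : 0 ≤ κ) (hK : K ≤ κ ^ 4) (hB : 0 ≤ B)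
    (hb : Ex (fun ω : R => bb S (q * d0) J ω ^ 4) ≤ B ^ 4)
    (hu : Ex (fun ω : R => uu S q ω ^ 4) ≤ B ^ 4) :
    |Ex fun ω : R => bb S (q * d0) J ω * (S ω - d0) * uu S q ω| ≤
      κ * B ^ 2 / ℓ + 5 * (ℓ : ℝ) ^ 2 * B + 6 * (ℓ : ℝ) ^ 4 := by
  have hne : Nonempty R := ⟨0⟩
  set L : ℕ := ℓ ^ 2 with hL
  have hθ0 : 0 ≤ q * d0 := by positivity
  have hθ1 : q * d0 ≤ 1 := mul_le_one₀ hq1 hd0.le hd1
  set b : R → ℝ := bb S (q * d0) J with hbdef
  set u : R → ℝ := uu S q with hudef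
  have hℓ' : (0 : ℝ) < ℓ := by exact_mod_cast hℓ
  -- averaging over the block
  have e1 : (L : ℝ) * (Ex fun ω : R => b ω * (S ω - d0) * u ω) =
      (Ex fun ω : R => b ω * u ω * ∑ t ∈ range L, (S (ω + (t : R)) - d0)) +
      Ex fun ω : R => ∑ t ∈ range L, (b (ω + (t : R)) * u (ω + (t : R)) - b ω * u ω) * (S (ω + (t : R)) - d0) := by
    rw [← Ex_add]
    have h3 : ∀ ω : R, (b ω * u ω * ∑ t ∈ range L, (S (ω + (t : R)) - d0)) +
        ∑ t ∈ range L, (b (ω + (t : R)) * u (ω + (t : R)) - b ω * u ω) * (S (ω + (t : R)) - d0) =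
        ∑ t ∈ range L, b (ω + (t : R)) * (S (ω + (t : R)) - d0) * u (ω + (t : R)) := by
      intro ω
      rw [mul_sum, ← sum_add_distrib]
      apply sum_congr rfl
      intro t _
      ring
    simp_rw [h3]
    rw [Ex_sum (range L) (fun t ω => b (ω + (t : R)) * (S (ω + (t : R)) - d0) * u (ω + (t : R)))]
    have h4 : ∀ t ∈ range L, (Ex fun ω : R => b (ω + (t : R)) * (S (ω + (t : R)) - d0) * u (ω + (t : R))) =
        Ex fun ω : R => b ω * (S ω - d0) * u ω := by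
      intro t _
      exact Ex_shift (t : R) (fun ω => b ω * (S ω - d0) * u ω)
    rw [sum_congr rfl h4, sum_const, card_range, nsmul_eq_mul]
  -- first part
  have e2 : |Ex fun ω : R => b ω * u ω * ∑ t ∈ range L, (S (ω + (t : R)) - d0)| ≤ κ * B ^ 2 * ℓ := by
    refine (abs_Ex_le _).trans ?_
    have h3 := Ex_holder b u (fun ω => ∑ t ∈ range L, (S (ω + (t : R)) - d0))
    have h4 := Ex_sq_sq_le (fun ω : R => ∑ t ∈ range L, (S (ω + (t : R)) - d0))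
    have h5 := h2 L
    have h6 : (Ex fun ω : R => (∑ t ∈ range L, (S (ω + (t : R)) - d0)) ^ 2) ^ 2 ≤ κ ^ 4 * (L : ℝ) ^ 2 :=
      (h4.trans h5).trans (mul_le_mul_of_nonneg_right hK (by positivity))
    have hb0 : 0 ≤ Ex fun ω : R => b ω ^ 4 := Ex_nonneg fun ω => by positivity
    have hu0 : 0 ≤ Ex fun ω : R => u ω ^ 4 := Ex_nonneg fun ω => by positivity
    have h7 : (Ex fun ω => |b ω * u ω * ∑ t ∈ range L, (S (ω + (t : R)) - d0)|) ^ 4 ≤ (κ * B ^ 2 * ℓ) ^ 4 := by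
      calc _ ≤ _ := h3
        _ ≤ B ^ 4 * B ^ 4 * (κ ^ 4 * (L : ℝ) ^ 2) :=
          mul_le_mul (mul_le_mul hb hu hu0 (by positivity)) h6 (sq_nonneg _) (by positivity)
        _ = _ := by rw [hL]; push_cast; ring
    exact le_of_pow_le_pow_left₀ (by norm_num) (by positivity) h7
  -- second part
  have e3 : |Ex fun ω : R => ∑ t ∈ range L, (b (ω + (t : R)) * u (ω + (t : R)) - b ω * u ω) * (S (ω + (t : R)) - d0)| ≤
      (L : ℝ) * (5 * (L : ℝ) * B + 6 * (L : ℝ) ^ 2) := by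
    refine (abs_Ex_le _).trans ?_
    have h3 : ∀ ω : R, |∑ t ∈ range L, (b (ω + (t : R)) * u (ω + (t : R)) - b ω * u ω) * (S (ω + (t : R)) - d0)| ≤
        (L : ℝ) * (2 * (L : ℝ) * |b ω| + 3 * (L : ℝ) * |u ω| + 6 * (L : ℝ) ^ 2) := by
      intro ω
      refine (abs_sum_le_sum_abs _ _).trans ?_
      have h4 : ∀ t ∈ range L, |(b (ω + (t : R)) * u (ω + (t : R)) - b ω * u ω) * (S (ω + (t : R)) - d0)| ≤
          2 * (L : ℝ) * |b ω| + 3 * (L : ℝ) * |u ω| + 6 * (L : ℝ) ^ 2 := by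
        intro t ht
        have htL : (t : ℝ) ≤ L := by exact_mod_cast (mem_range.1 ht).le
        have h5 : |S (ω + (t : R)) - d0| ≤ 1 := by
          rcases hS (ω + (t : R)) with h | h <;> rw [h, abs_le] <;> constructor <;> linarith
        rw [abs_mul]
        refine (mul_le_of_le_one_right (abs_nonneg _) h5).trans ?_
        have h6 := uu_shift hS hq0 hq1 t ω
        have h7 := bb_shift hS hθ0 hθ1 J t ω
        set eu := (-1) ^ t * uu S q (ω + (t : R)) - uu S q ω with heu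
        set eb := (-1) ^ t * bb S (q * d0) J (ω + (t : R)) - bb S (q * d0) J ω with heb
        have hsg : ((-1 : ℝ) ^ t) * (-1) ^ t = 1 := by rw [← mul_pow]; norm_num
        have h8 : b (ω + (t : R)) * u (ω + (t : R)) - b ω * u ω = b ω * eu + u ω * eb + eb * eu := by
          have : (b ω + eb) * (u ω + eu) = b (ω + (t : R)) * u (ω + (t : R)) := by
            rw [heu, heb]
            calc _ = (((-1 : ℝ) ^ t) * (-1) ^ t) * (b (ω + (t : R)) * u (ω + (t : R))) := by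
                  simp only [hbdef, hudef]; ring
              _ = _ := by rw [hsg, one_mul]
          rw [← this]; ring
        rw [h8]
        have h9 : |eu| ≤ 2 * (L : ℝ) := h6.trans (by linarith)
        have h10 : |eb| ≤ 3 * (L : ℝ) := h7.trans (by linarith)
        have h11 : |b ω * eu + u ω * eb + eb * eu| ≤ |b ω| * |eu| + |u ω| * |eb| + |eb| * |eu| := by
          refine (abs_add_le _ _).trans ?_
          rw [abs_mul eb eu]
          have := abs_add_le (b ω * eu) (u ω * eb)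
          rw [abs_mul, abs_mul] at this
          linarith
        have h12 : |b ω| * |eu| ≤ |b ω| * (2 * (L : ℝ)) := mul_le_mul_of_nonneg_left h9 (abs_nonneg _)
        have h13 : |u ω| * |eb| ≤ |u ω| * (3 * (L : ℝ)) := mul_le_mul_of_nonneg_left h10 (abs_nonneg _)
        have h14 : |eb| * |eu| ≤ (3 * (L : ℝ)) * (2 * (L : ℝ)) :=
          mul_le_mul h10 h9 (abs_nonneg _) (by positivity)
        nlinarith
      refine (sum_le_sum h4).trans ?_
      rw [sum_const, card_range, nsmul_eq_mul]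
    refine (Ex_mono h3).trans ?_
    rw [Ex_mul_left, Ex_add, Ex_add, Ex_const, Ex_mul_left, Ex_mul_left]
    have h4 := Ex_abs_le b hB hb
    have h5 := Ex_abs_le u hB hu
    apply mul_le_mul_of_nonneg_left _ (Nat.cast_nonneg _)
    have hL0 : (0 : ℝ) ≤ L := Nat.cast_nonneg _
    nlinarith
  have hLpos : (0 : ℝ) < L := by rw [hL]; push_cast; positivity
  have e4 : (L : ℝ) * |Ex fun ω : R => b ω * (S ω - d0) * u ω| ≤
      (L : ℝ) * (κ * B ^ 2 / ℓ + 5 * (ℓ : ℝ) ^ 2 * B + 6 * (ℓ : ℝ) ^ 4) := by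
    calc _ = |(L : ℝ) * Ex fun ω : R => b ω * (S ω - d0) * u ω| := by rw [abs_mul, abs_of_pos hLpos]
      _ ≤ κ * B ^ 2 * ℓ + (L : ℝ) * (5 * (L : ℝ) * B + 6 * (L : ℝ) ^ 2) := by
        rw [e1]; exact (abs_add_le _ _).trans (add_le_add e2 e3)
      _ = _ := by
        rw [hL]; push_cast
        field_simp
        ring
  exact le_of_mul_le_mul_left e4 hLpos

theorem part_two (hS : ∀ ω, S ω = 0 ∨ S ω = 1) (hq0 : 0 < q) (hq1 : q ≤ 1) {K d0 : ℝ}
    (hd0 : 0 < d0) (hd1 : d0 ≤ 1)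
    (h2 : ∀ n : ℕ, Ex (fun ω : R => (∑ t ∈ range n, (S (ω + (t : R)) - d0)) ^ 4) ≤ K * (n : ℝ) ^ 2)
    (J ℓ : ℕ) (hℓ : 0 < ℓ) {κ B : ℝ} (hκ : 0 ≤ κ) (hK : K ≤ κ ^ 4) (hB : 0 ≤ B)
    (hb : Ex (fun ω : R => bb S (q * d0) J ω ^ 4) ≤ B ^ 4)
    (hu : Ex (fun ω : R => uu S q ω ^ 4) ≤ B ^ 4) :
    |(Ex fun ω : R => S ω * uu S q ω) - ∑ k ∈ range J, (-1) ^ (k + 1) * (1 - q * d0) ^ k * rh S (k + 1)| ≤
      q * (κ * B ^ 2 / ℓ + 5 * (ℓ : ℝ) ^ 2 * B + 6 * (ℓ : ℝ) ^ 4) + (1 - q * d0) ^ J / q := by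
  have hne : Nonempty R := ⟨0⟩
  have h1 := X_iter hS hq0 hq1 d0 J
  have h3 := three_bound hS hq0 hq1 hd0 hd1 h2 J ℓ hℓ hκ hK hB hb hu
  have hθ1 : q * d0 ≤ 1 := mul_le_one₀ hq1 hd0.le hd1
  have h4 : |(-(1 - q * d0)) ^ J * (Ex fun ω : R => S (ω - (J : R)) * uu S q ω)| ≤ (1 - q * d0) ^ J / q := by
    rw [abs_mul, abs_pow, abs_neg, abs_of_nonneg (show 0 ≤ 1 - q * d0 by linarith), div_eq_mul_one_div]
    apply mul_le_mul_of_nonneg_left _ (pow_nonneg (by linarith) _)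
    refine (abs_Ex_le _).trans ?_
    have h5 : ∀ ω : R, |S (ω - (J : R)) * uu S q ω| ≤ 1 / q := by
      intro ω
      rw [abs_mul, abs_of_nonneg (S_nonneg hS _)]
      have h6 := abs_uu hS hq0 hq1 ω
      calc S (ω - (J : R)) * |uu S q ω| ≤ 1 * (1 / q) :=
            mul_le_mul (S_le hS _) h6 (abs_nonneg _) (by norm_num)
        _ = _ := one_mul _
    calc _ ≤ Ex fun _ : R => 1 / q := Ex_mono h5
      _ = _ := Ex_const _
  rw [h1]
  have h5 : |q * (Ex fun ω : R => bb S (q * d0) J ω * (S ω - d0) * uu S q ω)| ≤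
      q * (κ * B ^ 2 / ℓ + 5 * (ℓ : ℝ) ^ 2 * B + 6 * (ℓ : ℝ) ^ 4) := by
    rw [abs_mul, abs_of_pos hq0]
    exact mul_le_mul_of_nonneg_left h3 hq0.le
  have h6 : ∀ x y w : ℝ, |x - y + w - x| ≤ |y| + |w| := by
    intro x y w
    have : x - y + w - x = -y + w := by ring
    rw [this]
    exact (abs_add_le _ _).trans (by rw [abs_neg])
  exact (h6 _ _ _).trans (add_le_add h5 h4)

end Pool.Agent.K9h56.TB
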